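import Mathlib

/-!
# Definitions for the classification of stable and semistable hypersurfaces

A hypersurface of degree `d` in `ℙ^(n-1)` is given by a form `f` of degree `d` in `n` variables.
-/

open MvPolynomial
open scoped LinearAlgebra.Projectivization

namespace Pool.Agent.Lib.MP_965dfe_ag

variable {n : ℕ}

/-- The linear substitution `f ↦ f(g x)`, that is, `x_i ↦ ∑_j g_{ij} x_j`. -/
noncomputable def subst (g : Matrix (Fin n) (Fin n) ℂ) :
    MvPolynomial (Fin n) ℂ →ₐ[ℂ] MvPolynomial (Fin n) ℂ :=
  aeval fun i => ∑ j, C (g i j) * X j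

/-- The coefficient vector of a polynomial. -/
def coeffs (f : MvPolynomial (Fin n) ℂ) : (Fin n →₀ ℕ) → ℂ := fun α => f.coeff α

/-- The orbit of `f` under `SL_n(ℂ)`, as a set of coefficient vectors. -/
def orbit (f : MvPolynomial (Fin n) ℂ) : Set ((Fin n →₀ ℕ) → ℂ) :=
  {v | ∃ g : Matrix (Fin n) (Fin n) ℂ, g.det = 1 ∧ v = coeffs (subst g f)}

/-- The stabiliser of `f` in `SL_n(ℂ)`. -/
def stab (f : MvPolynomial (Fin n) ℂ) : Set (Matrix (Fin n) (Fin n) ℂ) :=
  {g | g.det = 1 ∧ subst g f = f}

/-- Semistability: `0` is not in the closure of the orbit. -/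
def IsSemistable (f : MvPolynomial (Fin n) ℂ) : Prop :=
  (0 : (Fin n →₀ ℕ) → ℂ) ∉ closure (orbit f)

/-- Stability: semistable, with closed orbit and finite stabiliser. -/
def IsStable (f : MvPolynomial (Fin n) ℂ) : Prop :=
  IsSemistable f ∧ IsClosed (orbit f) ∧ (stab f).Finite

/-- The singular points of the hypersurface `f = 0` in projective space. -/
def singularLocus (f : MvPolynomial (Fin n) ℂ) : Set (ℙ ℂ (Fin n → ℂ)) :=
  {x | ∀ i, eval x.rep (pderiv i f) = 0}

/-- `(k, m)` stands for the `m`-th power of the ideal of the codimension `k` member of a flag. -/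
abbrev Power : Type := ℕ × ℕ

/-- A condition: the form lies in the sum of the listed powers. -/
abbrev Condition : Type := List Power

/-- A flag type: a list of conditions on a form, with respect to one and the same flag. -/
abbrev FlagType : Type := List Condition

/-- The ideal `I_k` of the linear subspace `L_k` cut out by the first `k` of the given linear
forms. -/
noncomputable def flagIdeal (l : Fin n → MvPolynomial (Fin n) ℂ) (k : ℕ) :
    Ideal (MvPolynomial (Fin n) ℂ) :=
  Ideal.span (l '' {i | (i : ℕ) < k})

/-- `f` has flag type `t`: there are linearly independent linear forms `l 0, …, l (n-1)` (they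
cut out the members `L_k` of a complete flag of linear subspaces) such that
`f ∈ I_{k₁} ^ m₁ + ⋯ + I_{k_s} ^ m_s` for each member `[(k₁, m₁), …, (k_s, m_s)]` of `t`. -/
def HasFlagType (f : MvPolynomial (Fin n) ℂ) (t : FlagType) : Prop :=
  ∃ l : Fin n → MvPolynomial (Fin n) ℂ, (∀ i, (l i).IsHomogeneous 1) ∧ LinearIndependent ℂ l ∧
    ∀ c ∈ t, f ∈ ⨆ q ∈ c, flagIdeal l q.1 ^ q.2

/-- In suitable linear coordinates all monomials of `f` have nonnegative weight for one of the
weights of the list `W`. -/
def NonnegFor (W : List (Fin n → ℤ)) (f : MvPolynomial (Fin n) ℂ) : Prop :=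
  ∃ g : Matrix (Fin n) (Fin n) ℂ, g.det ≠ 0 ∧ ∃ w ∈ W, ∀ α ∈ (subst g f).support,
    0 ≤ ∑ i, w i * (α i : ℤ)

/-- In suitable linear coordinates all monomials of `f` have positive weight for one of the
weights of the list `W`. -/
def PosFor (W : List (Fin n → ℤ)) (f : MvPolynomial (Fin n) ℂ) : Prop :=
  ∃ g : Matrix (Fin n) (Fin n) ℂ, g.det ≠ 0 ∧ ∃ w ∈ W, ∀ α ∈ (subst g f).support,
    0 < ∑ i, w i * (α i : ℤ)

/-- The classification of the stable and of the semistable hypersurfaces `f = 0` in `ℙ^(n-1)` of a
given degree by lists of flag types (`TN` for non-stable, `TU` for unstable), by the corresponding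
lists of weights (`WN`, `WU`), and by shorter lists of flag types (`IN`, `IU`) if there are only
finitely many singular points. -/
structure Classified (f : MvPolynomial (Fin n) ℂ) (TN TU : List FlagType)
    (WN WU : List (Fin n → ℤ)) (IN IU : List FlagType) : Prop where
  /-- `f` is stable if and only if it has none of the flag types in `TN`. -/
  stable : IsStable f ↔ ¬ ∃ t ∈ TN, HasFlagType f t
  /-- `f` is semistable if and only if it has none of the flag types in `TU`. -/
  semistable : IsSemistable f ↔ ¬ ∃ t ∈ TU, HasFlagType f t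
  /-- The flag types in `TN` describe the same forms as the weights in `WN`. -/
  weights_nonstable : (∃ t ∈ TN, HasFlagType f t) ↔ NonnegFor WN f
  /-- The flag types in `TU` describe the same forms as the weights in `WU`. -/
  weights_unstable : (∃ t ∈ TU, HasFlagType f t) ↔ PosFor WU f
  /-- Stability for hypersurfaces with finitely many singular points. -/
  isolated_stable : (singularLocus f).Finite →
    (IsStable f ↔ ¬ ∃ t ∈ IN, HasFlagType f t)
  /-- Semistability for hypersurfaces with finitely many singular points. -/
  isolated_semistable : (singularLocus f).Finite →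
    (IsSemistable f ↔ ¬ ∃ t ∈ IU, HasFlagType f t)

end Pool.Agent.Lib.MP_965dfe_ag
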