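import Mathlib
import Pool.Agent.Lib.MP_965dfe_ag.Defs

open MvPolynomial Filter Topology

namespace Pool.Agent.Lib.MP_965dfe_ag

variable {n : ℕ}

@[simp] lemma subst_X (g : Matrix (Fin n) (Fin n) ℂ) (i : Fin n) :
    subst g (X i) = ∑ j, C (g i j) * X j := by
  rw [subst, aeval_X]

@[simp] lemma subst_C (g : Matrix (Fin n) (Fin n) ℂ) (c : ℂ) :
    subst g (C c) = C c := by
  rw [subst, aeval_C]; rfl

lemma subst_subst (g h : Matrix (Fin n) (Fin n) ℂ) (f : MvPolynomial (Fin n) ℂ) :
    subst h (subst g f) = subst (g * h) f := by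
  have : (subst h).comp (subst g) = subst (g * h) := by
    apply MvPolynomial.algHom_ext
    intro i
    rw [AlgHom.comp_apply, subst_X, subst_X, map_sum]
    simp only [map_mul, subst_C, subst_X, Matrix.mul_apply, map_sum, Finset.sum_mul,
      Finset.mul_sum]
    rw [Finset.sum_comm]
    refine Finset.sum_congr rfl fun j _ => Finset.sum_congr rfl fun k _ => ?_
    ring
  exact DFunLike.congr_fun this f

@[simp] lemma subst_one (f : MvPolynomial (Fin n) ℂ) : subst 1 f = f := by
  have : subst (1 : Matrix (Fin n) (Fin n) ℂ) = AlgHom.id ℂ _ := by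
    apply MvPolynomial.algHom_ext
    intro i
    rw [subst_X, AlgHom.id_apply]
    rw [Finset.sum_eq_single i]
    · simp
    · intro j _ hj
      rw [Matrix.one_apply_ne hj.symm]
      simp
    · simp
  rw [this, AlgHom.id_apply]

lemma isHomogeneous_subst {f : MvPolynomial (Fin n) ℂ} {d : ℕ} (hf : f.IsHomogeneous d)
    (g : Matrix (Fin n) (Fin n) ℂ) : (subst g f).IsHomogeneous d := by
  have h := hf.aeval (fun i => ∑ j, C (g i j) * X j) (n := 1) (fun i => by
    apply IsHomogeneous.sum
    intro j _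
    have := (isHomogeneous_C (Fin n) (g i j)).mul (isHomogeneous_X ℂ j)
    simpa using this)
  simpa [subst] using h

/-- The coefficients of `f(a x)` for a diagonal matrix `a`. -/
lemma coeff_subst_diagonal (a : Fin n → ℂ) (f : MvPolynomial (Fin n) ℂ) (α : Fin n →₀ ℕ) :
    (subst (Matrix.diagonal a) f).coeff α = (∏ i, a i ^ α i) * f.coeff α := by
  have hX : ∀ i, subst (Matrix.diagonal a) (X i) = C (a i) * X i := by
    intro i
    rw [subst_X, Finset.sum_eq_single i]
    · rw [Matrix.diagonal_apply_eq]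
    · intro j _ hj
      rw [Matrix.diagonal_apply_ne _ hj.symm]
      simp
    · simp
  have hmon : ∀ (β : Fin n →₀ ℕ) (c : ℂ), subst (Matrix.diagonal a) (monomial β c) =
      monomial β ((∏ i, a i ^ β i) * c) := by
    intro β c
    rw [monomial_eq, map_mul, subst_C, Finsupp.prod, map_prod]
    have h1 : (∏ i ∈ β.support, subst (Matrix.diagonal a) (X i ^ β i)) =
        C (∏ i, a i ^ β i) * ∏ i ∈ β.support, X i ^ β i := by
      rw [map_prod]
      have h2 : ∏ i, C (a i ^ β i) = ∏ i ∈ β.support, (C (a i ^ β i) : MvPolynomial (Fin n) ℂ) := by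
        symm
        apply Finset.prod_subset (Finset.subset_univ _)
        intro i _ hi
        rw [Finsupp.notMem_support_iff.mp hi]
        simp
      rw [h2, ← Finset.prod_mul_distrib]
      refine Finset.prod_congr rfl fun i _ => ?_
      rw [map_pow, hX, mul_pow, C_pow]
    rw [h1, monomial_eq (s := β) (a := (∏ i, a i ^ β i) * c), C_mul, Finsupp.prod]
    ring
  induction f using MvPolynomial.induction_on' with
  | monomial β c =>
    rw [hmon, coeff_monomial, coeff_monomial]
    split_ifs with h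
    · rw [h]
    · simp
  | add p q hp hq => rw [map_add, coeff_add, coeff_add, hp, hq, mul_add]

/-- Families of polynomials with continuous coefficients. -/
def ContCoeff {T : Type*} [TopologicalSpace T] (F : T → MvPolynomial (Fin n) ℂ) : Prop :=
  ∀ α, Continuous fun t => (F t).coeff α

lemma ContCoeff.add {T : Type*} [TopologicalSpace T] {F G : T → MvPolynomial (Fin n) ℂ}
    (hF : ContCoeff F) (hG : ContCoeff G) : ContCoeff fun t => F t + G t := by
  intro α
  simp only [coeff_add]
  exact (hF α).add (hG α)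

lemma ContCoeff.mul {T : Type*} [TopologicalSpace T] {F G : T → MvPolynomial (Fin n) ℂ}
    (hF : ContCoeff F) (hG : ContCoeff G) : ContCoeff fun t => F t * G t := by
  classical
  intro α
  simp only [coeff_mul]
  exact continuous_finsetSum _ fun x _ => (hF x.1).mul (hG x.2)

lemma ContCoeff.const {T : Type*} [TopologicalSpace T] (p : MvPolynomial (Fin n) ℂ) :
    ContCoeff fun _ : T => p := fun _ => continuous_const

lemma ContCoeff.C {T : Type*} [TopologicalSpace T] {c : T → ℂ} (hc : Continuous c) :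
    ContCoeff (n := n) fun t => MvPolynomial.C (c t) := by
  classical
  intro α
  simp only [coeff_C]
  split_ifs
  · exact hc
  · exact continuous_const

lemma ContCoeff.sum {T ι : Type*} [TopologicalSpace T] (s : Finset ι)
    {F : ι → T → MvPolynomial (Fin n) ℂ}
    (hF : ∀ i ∈ s, ContCoeff (F i)) : ContCoeff fun t => ∑ i ∈ s, F i t := by
  intro α
  simp only [coeff_sum]
  exact continuous_finsetSum _ fun i hi => hF i hi α

lemma ContCoeff.pow {T : Type*} [TopologicalSpace T] {F : T → MvPolynomial (Fin n) ℂ}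
    (hF : ContCoeff F) (k : ℕ) : ContCoeff fun t => F t ^ k := by
  induction k with
  | zero => simpa using ContCoeff.const 1
  | succ k ih => simpa only [pow_succ] using ih.mul hF

lemma contCoeff_subst (f : MvPolynomial (Fin n) ℂ) :
    ContCoeff fun g : Matrix (Fin n) (Fin n) ℂ => subst g f := by
  have hlin : ∀ i : Fin n, ContCoeff fun g : Matrix (Fin n) (Fin n) ℂ =>
      ∑ j, MvPolynomial.C (g i j) * X j := by
    intro i
    apply ContCoeff.sum
    intro j _
    exact (ContCoeff.C (by fun_prop)).mul (ContCoeff.const _)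
  induction f using MvPolynomial.induction_on with
  | C c => simpa using ContCoeff.const (MvPolynomial.C c)
  | add p q hp hq => simpa only [map_add] using hp.add hq
  | mul_X p i hp =>
    simp only [map_mul, subst_X]
    exact hp.mul (hlin i)

/-- The exponents of degree `d`. -/
noncomputable def expo (n d : ℕ) : Finset (Fin n →₀ ℕ) :=
  Finset.finsuppAntidiag Finset.univ d

lemma mem_expo {d : ℕ} {α : Fin n →₀ ℕ} : α ∈ expo n d ↔ ∑ i, α i = d := by
  simp [expo, Finset.mem_finsuppAntidiag]

lemma sum_of_homogeneous {f : MvPolynomial (Fin n) ℂ} {d : ℕ} (hf : f.IsHomogeneous d)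
    {α : Fin n →₀ ℕ} (hα : f.coeff α ≠ 0) : ∑ i, α i = d := by
  have h := hf hα
  rw [← h]
  simp [Finsupp.weight_apply, Finsupp.sum_fintype]

lemma eq_sum_expo {f : MvPolynomial (Fin n) ℂ} {d : ℕ} (hf : f.IsHomogeneous d) :
    f = ∑ β ∈ expo n d, C (f.coeff β) * monomial β 1 := by
  classical
  ext α
  rw [coeff_sum]
  simp only [coeff_C_mul, coeff_monomial, mul_ite, mul_one, mul_zero]
  rw [Finset.sum_ite_eq']
  split_ifs with h
  · rfl
  · by_contra hne
    exact h (mem_expo.mpr (sum_of_homogeneous hf hne))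

lemma subst_smul_one (c : ℂ) {f : MvPolynomial (Fin n) ℂ} {d : ℕ} (hf : f.IsHomogeneous d) :
    subst (c • (1 : Matrix (Fin n) (Fin n) ℂ)) f = C (c ^ d) * f := by
  have h1 : c • (1 : Matrix (Fin n) (Fin n) ℂ) = Matrix.diagonal (fun _ => c) := by
    rw [Matrix.smul_one_eq_diagonal]
  ext α
  rw [h1, coeff_subst_diagonal, coeff_C_mul]
  by_cases hα : f.coeff α = 0
  · rw [hα, mul_zero, mul_zero]
  · rw [Finset.prod_pow_eq_pow_sum, sum_of_homogeneous hf hα]

/-- Coefficients of a substituted form, in terms of the coefficients of the form. -/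
lemma coeff_subst_eq {f : MvPolynomial (Fin n) ℂ} {d : ℕ} (hf : f.IsHomogeneous d)
    (g : Matrix (Fin n) (Fin n) ℂ) (α : Fin n →₀ ℕ) :
    (subst g f).coeff α = ∑ β ∈ expo n d, f.coeff β * (subst g (monomial β 1)).coeff α := by
  conv_lhs => rw [eq_sum_expo hf]
  rw [map_sum, coeff_sum]
  refine Finset.sum_congr rfl fun β _ => ?_
  rw [map_mul, subst_C, coeff_C_mul]

/-- Joint sequential continuity of `(g, f) ↦ f(g x)` on forms of degree `d`. -/
lemma tendsto_coeff_subst {ι : Type*} {l : Filter ι} {d : ℕ} {F : ι → MvPolynomial (Fin n) ℂ}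
    {F₀ : MvPolynomial (Fin n) ℂ} (hF : ∀ m, (F m).IsHomogeneous d) (hF₀ : F₀.IsHomogeneous d)
    (hlim : ∀ α, Tendsto (fun m => (F m).coeff α) l (𝓝 (F₀.coeff α)))
    {g : ι → Matrix (Fin n) (Fin n) ℂ} {g₀ : Matrix (Fin n) (Fin n) ℂ}
    (hg : Tendsto g l (𝓝 g₀)) (α : Fin n →₀ ℕ) :
    Tendsto (fun m => (subst (g m) (F m)).coeff α) l (𝓝 ((subst g₀ F₀).coeff α)) := by
  rw [coeff_subst_eq hF₀]
  have h1 : (fun m => (subst (g m) (F m)).coeff α) = fun m =>
      ∑ β ∈ expo n d, (F m).coeff β * (subst (g m) (monomial β 1)).coeff α := by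
    funext m
    exact coeff_subst_eq (hF m) _ _
  rw [h1]
  apply tendsto_finsetSum
  intro β _
  apply (hlim β).mul
  exact ((contCoeff_subst (monomial β 1) α).tendsto g₀).comp hg

end Pool.Agent.Lib.MP_965dfe_ag
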