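import Mathlib
import Pool.Agent.Lib.MP_965dfe_ag.Subst

/-!
A verified checker for covering trees with Farkas certificates.
-/

namespace Pool.Agent.Lib.MP_965dfe_ag.Check

/-- Dot product of an integer list with a real list. -/
def dotL : List ℤ → List ℝ → ℝ
  | [], _ => 0
  | _ :: _, [] => 0
  | a :: as, x :: xs => a * x + dotL as xs

/-- Addition of integer lists with padding. -/
def addL : List ℤ → List ℤ → List ℤ
  | [], b => b
  | a :: as, [] => a :: as
  | a :: as, b :: bs => (a + b) :: addL as bs

def smulL (m : ℤ) : List ℤ → List ℤ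
  | [] => []
  | a :: as => (m * a) :: smulL m as

lemma dotL_addL : ∀ (a b : List ℤ) (x : List ℝ), dotL (addL a b) x = dotL a x + dotL b x
  | [], b, x => by simp [addL, dotL]
  | a :: as, [], x => by simp [addL, dotL]
  | a :: as, b :: bs, [] => by simp [addL, dotL]
  | a :: as, b :: bs, x :: xs => by
      simp only [addL, dotL, Int.cast_add, dotL_addL as bs xs]
      ring

lemma dotL_smulL (m : ℤ) : ∀ (a : List ℤ) (x : List ℝ), dotL (smulL m a) x = m * dotL a x
  | [], x => by simp [smulL, dotL]
  | a :: as, [] => by simp [smulL, dotL]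
  | a :: as, x :: xs => by
      simp only [smulL, dotL, Int.cast_mul, dotL_smulL m as xs]
      ring

/-- All entries of the list equal `m`. -/
def allEq (m : ℤ) : List ℤ → Bool
  | [] => true
  | a :: as => a == m && allEq m as

lemma dotL_of_allEq (m : ℤ) : ∀ (a : List ℤ) (x : List ℝ), a.length = x.length →
    allEq m a = true → dotL a x = m * x.sum
  | [], [], _, _ => by simp [dotL]
  | [], x :: xs, h, _ => by simp at h
  | a :: as, [], h, _ => by simp at h
  | a :: as, x :: xs, h, h2 => by
      simp only [allEq, Bool.and_eq_true, beq_iff_eq] at h2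
      simp only [List.length_cons, Nat.add_right_cancel_iff] at h
      simp only [dotL, List.sum_cons, dotL_of_allEq m as xs h h2.2, h2.1]
      ring

/-- A constraint: a vector together with a flag telling whether it is strict. -/
abbrev Con := List ℤ × Bool

def Sat (c : Con) (x : List ℝ) : Prop := if c.2 = true then 0 < dotL c.1 x else 0 ≤ dotL c.1 x

/-- Combination of the constraints with natural coefficients. -/
def comb : List Con → List ℕ → List ℤ
  | [], _ => []
  | _ :: _, [] => []
  | c :: cs, l :: ls => if l = 0 then comb cs ls else addL (smulL l c.1) (comb cs ls)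

def strictUsed : List Con → List ℕ → Bool
  | [], _ => false
  | _ :: _, [] => false
  | c :: cs, l :: ls => (c.2 && (l != 0)) || strictUsed cs ls

lemma comb_nonneg : ∀ (C : List Con) (l : List ℕ) (x : List ℝ), (∀ c ∈ C, Sat c x) →
    0 ≤ dotL (comb C l) x ∧ (strictUsed C l = true → 0 < dotL (comb C l) x)
  | [], l, x, _ => by simp [comb, strictUsed, dotL]
  | c :: cs, [], x, _ => by simp [comb, strictUsed, dotL]
  | c :: cs, l :: ls, x, h => by
      have h1 := comb_nonneg cs ls x (fun c hc => h c (List.mem_cons_of_mem _ hc))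
      have h2 := h c List.mem_cons_self
      have h3 : 0 ≤ dotL c.1 x := by
        unfold Sat at h2
        split_ifs at h2 with hc
        · exact h2.le
        · exact h2
      by_cases hl : l = 0
      · subst hl
        simpa [comb, strictUsed] using h1
      · have hl' : (0 : ℝ) < l := by exact_mod_cast Nat.pos_of_ne_zero hl
        simp only [comb, hl, if_false, dotL_addL, dotL_smulL, Int.cast_natCast]
        refine ⟨add_nonneg (mul_nonneg hl'.le h3) h1.1, ?_⟩
        intro hs
        simp only [strictUsed, Bool.or_eq_true, Bool.and_eq_true] at hs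
        rcases hs with hs | hs
        · have h4 : 0 < dotL c.1 x := by
            unfold Sat at h2
            rwa [if_pos hs.1] at h2
          exact add_pos_of_pos_of_nonneg (mul_pos hl' h4) h1.1
        · exact add_pos_of_nonneg_of_pos (mul_nonneg hl'.le h3) (h1.2 hs)

/-- Farkas certificate: the combination is constant and uses a strict constraint. -/
def farkas (n : ℕ) (C : List Con) (l : List ℕ) : Bool :=
  strictUsed C l && (comb C l).length == n && allEq ((comb C l).headD 0) (comb C l)

lemma farkas_sound {n : ℕ} {C : List Con} {l : List ℕ} {x : List ℝ} (hx : x.length = n)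
    (hsum : x.sum = 0) (hC : ∀ c ∈ C, Sat c x) : farkas n C l ≠ true := by
  intro h
  simp only [farkas, Bool.and_eq_true, beq_iff_eq] at h
  obtain ⟨⟨h1, h2⟩, h3⟩ := h
  have h4 := (comb_nonneg C l x hC).2 h1
  rw [dotL_of_allEq _ _ _ (by rw [h2, hx]) h3, hsum, mul_zero] at h4
  exact lt_irrefl _ h4

/-- Certificate trees: a leaf names a list and gives a certificate for each of its members,
a branch splits along a linear form. -/
inductive Tree
  | leaf (k : ℕ) (certs : List (List ℕ)) : Tree
  | br (b : List ℤ) (t₁ t₂ : Tree) : Tree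

def checkLeaf (n : ℕ) (s : Bool) (C : List Con) : List (List ℤ) → List (List ℕ) → Bool
  | [], _ => true
  | _ :: _, [] => false
  | b :: bs, l :: ls => farkas n ((b, s) :: C) l && checkLeaf n s C bs ls

/-- The checker. `s` is the strictness flag of the tested inequalities. -/
def check (n : ℕ) (s : Bool) (T : List (List (List ℤ))) : Tree → List Con → Bool
  | .leaf k certs, C => k < T.length && checkLeaf n s C (T.getD k []) certs
  | .br b t₁ t₂, C => check n s T t₁ ((b, s) :: C) && check n s T t₂ ((smulL (-1) b, !s) :: C)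

def Good (s : Bool) (Tk : List (List ℤ)) (x : List ℝ) : Prop := ∀ b ∈ Tk, ¬ Sat (b, s) x

lemma checkLeaf_sound {n : ℕ} {s : Bool} {x : List ℝ} (hx : x.length = n)
    (hsum : x.sum = 0) {C : List Con} (hC : ∀ c ∈ C, Sat c x) :
    ∀ (bs : List (List ℤ)) (ls : List (List ℕ)), checkLeaf n s C bs ls = true →
      ∀ b ∈ bs, ¬ Sat (b, s) x
  | [], _, _, b, hb => by simp at hb
  | _ :: _, [], h, _, _ => by simp [checkLeaf] at h
  | b :: bs, l :: ls, h, b', hb' => by
      simp only [checkLeaf, Bool.and_eq_true] at h
      rcases List.mem_cons.mp hb' with rfl | hb'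
      · intro hb
        exact farkas_sound hx hsum (List.forall_mem_cons.mpr ⟨hb, hC⟩) h.1
      · exact checkLeaf_sound hx hsum hC bs ls h.2 b' hb'

lemma check_sound {n : ℕ} {s : Bool} {T : List (List (List ℤ))} {x : List ℝ} (hx : x.length = n)
    (hsum : x.sum = 0) : ∀ (t : Tree) (C : List Con),
    check n s T t C = true → (∀ c ∈ C, Sat c x) → ∃ Tk ∈ T, Good s Tk x
  | .leaf k certs, C, h, hC => by
      simp only [check, Bool.and_eq_true, decide_eq_true_eq] at h
      refine ⟨T.getD k [], ?_, ?_⟩
      · rw [List.getD_eq_getElem _ _ h.1]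
        exact List.getElem_mem _
      · exact checkLeaf_sound hx hsum hC _ _ h.2
  | .br b t₁ t₂, C, h, hC => by
      simp only [check, Bool.and_eq_true] at h
      by_cases hb : Sat (b, s) x
      · exact check_sound hx hsum t₁ _ h.1 (List.forall_mem_cons.mpr ⟨hb, hC⟩)
      · refine check_sound hx hsum t₂ _ h.2 (List.forall_mem_cons.mpr ⟨?_, hC⟩)
        unfold Sat at hb ⊢
        cases s <;> simp [dotL_smulL] at hb ⊢ <;> exact hb

/-- Dominance: `b - a` has nonnegative running sums (starting from `acc`) and total `0`. -/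
def domL : ℤ → List ℤ → List ℤ → Bool
  | acc, [], [] => acc == 0
  | _, [], _ :: _ => false
  | _, _ :: _, [] => false
  | acc, a :: as, b :: bs => 0 ≤ acc + (b - a) && domL (acc + (b - a)) as bs

lemma domL_sound : ∀ (a b : List ℤ) (x : List ℝ) (acc : ℤ) (y : ℝ), 0 ≤ acc →
    List.Pairwise (· ≥ ·) (y :: x) → a.length = x.length → domL acc a b = true →
      dotL a x ≤ acc * y + dotL b x
  | [], [], x, acc, y, _, _, _, h => by
      simp only [domL, beq_iff_eq] at h
      simp [dotL, h]
  | [], _ :: _, x, acc, y, _, _, _, h => by simp [domL] at h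
  | _ :: _, [], x, acc, y, _, _, _, h => by simp [domL] at h
  | a :: as, b :: bs, [], acc, y, _, _, hl, h => by simp at hl
  | a :: as, b :: bs, x :: xs, acc, y, hacc, hs, hl, h => by
      simp only [domL, Bool.and_eq_true, decide_eq_true_eq] at h
      have hs' : List.Pairwise (· ≥ ·) (x :: xs) := (List.pairwise_cons.mp hs).2
      have hxy : x ≤ y := (List.pairwise_cons.mp hs).1 x List.mem_cons_self
      have h1 := domL_sound as bs xs (acc + (b - a)) x h.1 hs'
        (by simpa using hl) h.2
      have h2 : (0 : ℝ) ≤ (acc : ℝ) := by exact_mod_cast hacc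
      simp only [dotL]
      push_cast at h1
      nlinarith [mul_le_mul_of_nonneg_left hxy h2]

/-- Integer dot product. -/
def dotZ : List ℤ → List ℤ → ℤ
  | [], _ => 0
  | _ :: _, [] => 0
  | a :: as, x :: xs => a * x + dotZ as xs

/-- Weak or strict positivity. -/
def posZ (s : Bool) (z : ℤ) : Bool := if s then 0 < z else 0 ≤ z

/-- All monomials of degree `d` in `n` variables. -/
def monos : ℕ → ℕ → List (List ℤ)
  | 0, 0 => [[]]
  | 0, _ + 1 => []
  | n + 1, d => (List.range (d + 1)).flatMap fun a => (monos n (d - a)).map ((a : ℤ) :: ·)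

lemma mem_monos : ∀ (n d : ℕ) (α : Fin n → ℕ), ∑ i, α i = d →
    List.ofFn (fun i => (α i : ℤ)) ∈ monos n d
  | 0, 0, α, _ => by simp [monos]
  | 0, d + 1, α, h => by simp at h
  | n + 1, d, α, h => by
      rw [Fin.sum_univ_succ] at h
      simp only [monos, List.mem_flatMap, List.mem_range, List.mem_map]
      refine ⟨α 0, by omega, List.ofFn (fun i : Fin n => (α i.succ : ℤ)), ?_, ?_⟩
      · exact mem_monos n (d - α 0) (fun i => α i.succ) (by omega)
      · rw [List.ofFn_succ]

/-- Check that each monomial is either selected by `w` or dominated by a member of `Tk`. -/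
def checkW (s : Bool) (M : List (List ℤ)) (w : List ℤ) (Tk : List (List ℤ)) : Bool :=
  M.all fun a => posZ s (dotZ w a) || Tk.any fun b => domL 0 a b

/-- Check of all weights. -/
def checkWs (s : Bool) (M : List (List ℤ)) : List (List ℤ) → List (List (List ℤ)) → Bool
  | [], [] => true
  | [], _ :: _ => false
  | _ :: _, [] => false
  | w :: ws, Tk :: Ts => checkW s M w Tk && checkWs s M ws Ts

lemma checkWs_sound {s : Bool} {M : List (List ℤ)} : ∀ (ws : List (List ℤ))
    (Ts : List (List (List ℤ))), checkWs s M ws Ts = true → ∀ Tk ∈ Ts, ∃ w ∈ ws,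
      checkW s M w Tk = true
  | [], [], _, Tk, hTk => by simp at hTk
  | [], _ :: _, h, _, _ => by simp [checkWs] at h
  | _ :: _, [], h, _, _ => by simp [checkWs] at h
  | w :: ws, Tk' :: Ts, h, Tk, hTk => by
      simp only [checkWs, Bool.and_eq_true] at h
      rcases List.mem_cons.mp hTk with rfl | hTk
      · exact ⟨w, List.mem_cons_self, h.1⟩
      · obtain ⟨w', hw', h'⟩ := checkWs_sound ws Ts h.2 Tk hTk
        exact ⟨w', List.mem_cons_of_mem _ hw', h'⟩

lemma dotZ_ofFn : ∀ (n : ℕ) (w α : Fin n → ℤ),
    dotZ (List.ofFn w) (List.ofFn α) = ∑ i, w i * α i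
  | 0, w, α => by simp [dotZ]
  | n + 1, w, α => by
      rw [List.ofFn_succ, List.ofFn_succ, Fin.sum_univ_succ]
      simp only [dotZ, dotZ_ofFn n]

lemma dotL_ofFn : ∀ (n : ℕ) (α : Fin n → ℤ) (r : Fin n → ℝ),
    dotL (List.ofFn α) (List.ofFn r) = ∑ i, r i * α i
  | 0, w, α => by simp [dotL]
  | n + 1, α, r => by
      rw [List.ofFn_succ, List.ofFn_succ, Fin.sum_univ_succ]
      simp only [dotL, dotL_ofFn n]
      ring

/-- Initial constraints: `r i - r (i+1) ≥ 0`. -/
def walls : ℕ → List (List ℤ)
  | 0 => []
  | 1 => []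
  | n + 2 => (1 :: -1 :: List.replicate n 0) :: (walls (n + 1)).map (0 :: ·)

lemma dotL_replicate_zero : ∀ (n : ℕ) (x : List ℝ), dotL (List.replicate n 0) x = 0
  | 0, x => by simp [dotL]
  | n + 1, [] => by simp [dotL, List.replicate_succ]
  | n + 1, x :: xs => by simp [dotL, List.replicate_succ, dotL_replicate_zero n xs]

lemma walls_sat : ∀ (n : ℕ) (x : List ℝ), List.Pairwise (· ≥ ·) x → x.length = n →
    ∀ c ∈ walls n, 0 ≤ dotL c x
  | 0, _, _, _, c, hc => by simp [walls] at hc
  | 1, _, _, _, c, hc => by simp [walls] at hc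
  | n + 2, [], _, h, _, _ => by simp at h
  | n + 2, [_], _, h, _, _ => by simp at h
  | n + 2, x :: y :: xs, hp, hl, c, hc => by
      simp only [walls, List.mem_cons, List.mem_map] at hc
      rcases hc with rfl | ⟨c', hc', rfl⟩
      · have h1 : x ≥ y := (List.pairwise_cons.mp hp).1 y List.mem_cons_self
        simp only [dotL, dotL_replicate_zero]
        push_cast
        linarith
      · have := walls_sat (n + 1) (y :: xs) (List.pairwise_cons.mp hp).2 (by simpa using hl) c' hc'
        simpa [dotL] using this

/-- The starting constraints of the two cases: in the weak case `r 0 > 0` is added. -/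
def start (n : ℕ) (s : Bool) : List Con :=
  (if s then [] else [(1 :: List.replicate (n - 1) 0, true)]) ++ (walls n).map fun c => (c, false)

/-- The whole check. -/
def checkAll (n d : ℕ) (s : Bool) (ws : List (List ℤ)) (Ts : List (List (List ℤ)))
    (t : Tree) : Bool :=
  checkWs s (monos n d) ws Ts && check n s Ts t (start n s)

/-- Pairwise form of antitone. -/
lemma pairwise_ofFn {n : ℕ} {r : Fin n → ℝ} (hr : Antitone r) :
    List.Pairwise (· ≥ ·) (List.ofFn r) := by
  rw [List.pairwise_ofFn]
  intro i j hij
  exact hr hij.le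

theorem exists_weight {n d : ℕ} (s : Bool) (W : List (Fin n → ℤ)) (Ts : List (List (List ℤ)))
    (t : Tree) (hn : 0 < n)
    (h : checkAll n d s (W.map List.ofFn) Ts t = true)
    {r : Fin n → ℝ} (hr : Antitone r) (hsum : ∑ i, r i = 0) (hr0 : s = false → r ≠ 0) :
    ∃ w ∈ W, ∀ α : Fin n → ℕ, ∑ i, α i = d →
      (if s = true then 0 < ∑ i, r i * (α i : ℝ) else 0 ≤ ∑ i, r i * (α i : ℝ)) →
      (if s = true then 0 < ∑ i, w i * (α i : ℤ) else 0 ≤ ∑ i, w i * (α i : ℤ)) := by
  set x := List.ofFn r with hx
  have hxl : x.length = n := by simp [hx]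
  have hxs : x.sum = 0 := by rw [hx, List.sum_ofFn, hsum]
  have hxp : List.Pairwise (· ≥ ·) x := pairwise_ofFn hr
  simp only [checkAll, Bool.and_eq_true] at h
  obtain ⟨hW, hc⟩ := h
  have hstart : ∀ c ∈ start n s, Sat c x := by
    intro c hcm
    simp only [start, List.mem_append, List.mem_map] at hcm
    rcases hcm with hcm | ⟨c', hc', rfl⟩
    · cases s with
      | true => simp at hcm
      | false =>
        simp only [Bool.false_eq_true, if_false, List.mem_singleton] at hcm
        subst hcm
        obtain ⟨m, rfl⟩ : ∃ m, n = m + 1 := ⟨n - 1, by omega⟩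
        unfold Sat
        rw [if_pos rfl]
        simp only [hx, List.ofFn_succ, dotL, Nat.add_sub_cancel, dotL_replicate_zero]
        have h0 : 0 < r 0 := by
          by_contra hneg
          push Not at hneg
          apply hr0 rfl
          have hle : ∀ i, r i ≤ 0 := fun i => (hr (Fin.zero_le i)).trans hneg
          funext i
          have := (Finset.sum_eq_zero_iff_of_nonpos (fun i _ => hle i)).mp hsum i (Finset.mem_univ i)
          simpa using this
        push_cast
        linarith
    · unfold Sat
      simp only [Bool.false_eq_true, if_false]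
      exact walls_sat n x hxp hxl c' hc'
  have hgood : ∃ Tk ∈ Ts, Good s Tk x := check_sound hxl hxs t _ hc hstart
  obtain ⟨Tk, hTk, hg⟩ := hgood
  obtain ⟨w', hw', hcw⟩ := checkWs_sound _ _ hW Tk hTk
  obtain ⟨w, hwW, rfl⟩ := List.mem_map.mp hw'
  refine ⟨w, hwW, fun α hα hrα => ?_⟩
  simp only [checkW, List.all_eq_true, Bool.or_eq_true, List.any_eq_true] at hcw
  rcases hcw _ (mem_monos n d α hα) with h1 | ⟨b, hb, h1⟩
  · rw [dotZ_ofFn] at h1
    cases s with
    | true => simpa [posZ] using h1
    | false => simpa [posZ] using h1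
  · exfalso
    apply hg b hb
    have h2 := domL_sound (List.ofFn fun i => (α i : ℤ)) b x 0 (r ⟨0, hn⟩) le_rfl
      (by
        rw [List.pairwise_cons]
        refine ⟨?_, hxp⟩
        intro y hy
        rw [hx, List.mem_ofFn] at hy
        obtain ⟨i, rfl⟩ := hy
        exact hr (by rw [Fin.le_def]; exact Nat.zero_le _)) (by simp [hx]) h1
    rw [hx, dotL_ofFn] at h2
    simp only [Int.cast_zero, zero_mul, zero_add, Int.cast_natCast] at h2
    unfold Sat
    cases s with
    | true =>
      simp only [if_true] at hrα ⊢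
      exact hrα.trans_le h2
    | false =>
      simp only [Bool.false_eq_true, if_false] at hrα ⊢
      exact hrα.trans h2

end Pool.Agent.Lib.MP_965dfe_ag.Check
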