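import Mathlib
import Pool.Agent.Lib.MP_965dfe_ag.Subst

open Filter Topology

namespace Pool.Agent.Lib.MP_965dfe_ag

variable {n : ℕ}

/-- The positive diagonal matrix with entries `exp (t i)`. -/
noncomputable def ediag (t : Fin n → ℝ) : Matrix (Fin n) (Fin n) ℂ :=
  Matrix.diagonal fun i => ((Real.exp (t i) : ℝ) : ℂ)

open scoped ComplexOrder in
/-- The decomposition `g = k a k'` with `k`, `k'` unitary and `a` positive diagonal. -/
lemma kak (g : Matrix (Fin n) (Fin n) ℂ) (hg : g.det ≠ 0) :
    ∃ (k k' : Matrix (Fin n) (Fin n) ℂ) (t : Fin n → ℝ),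
      k ∈ Matrix.unitaryGroup (Fin n) ℂ ∧ k' ∈ Matrix.unitaryGroup (Fin n) ℂ ∧
      g = k * ediag t * k' := by
  have hpd : (g.conjTranspose * g).PosDef := by
    apply Matrix.PosDef.conjTranspose_mul_self
    have hu : IsUnit g := (Matrix.isUnit_iff_isUnit_det g).mpr (isUnit_iff_ne_zero.mpr hg)
    exact Matrix.mulVec_injective_of_isUnit hu
  set hA := hpd.1 with hAdef
  have hspec := hA.spectral_theorem
  set U : Matrix (Fin n) (Fin n) ℂ := (hA.eigenvectorUnitary : Matrix (Fin n) (Fin n) ℂ) with hU
  have hUmem : U ∈ Matrix.unitaryGroup (Fin n) ℂ := hA.eigenvectorUnitary.2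
  have hUU : U.conjTranspose * U = 1 := Matrix.mem_unitaryGroup_iff'.mp hUmem
  have hUU' : U * U.conjTranspose = 1 := Matrix.mem_unitaryGroup_iff.mp hUmem
  set ev := hA.eigenvalues with hev
  have hpos : ∀ i, 0 < ev i := fun i => hpd.eigenvalues_pos i
  have hspec' : g.conjTranspose * g = U * Matrix.diagonal (fun i => (ev i : ℂ)) * U.conjTranspose := by
    rw [hspec]
    rfl
  set t : Fin n → ℝ := fun i => Real.log (ev i) / 2 with ht
  have hexp : ∀ i, Real.exp (t i) * Real.exp (t i) = ev i := by
    intro i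
    rw [← Real.exp_add, ht]
    have : Real.log (ev i) / 2 + Real.log (ev i) / 2 = Real.log (ev i) := by ring
    rw [this, Real.exp_log (hpos i)]
  set b : Matrix (Fin n) (Fin n) ℂ := ediag (fun i => - t i) with hb
  have hab : ediag t * b = 1 := by
    rw [hb, ediag, ediag, Matrix.diagonal_mul_diagonal, ← Matrix.diagonal_one]
    congr 1
    funext i
    rw [← Complex.ofReal_mul, ← Real.exp_add]
    simp
  have hba : b * ediag t = 1 := by
    rw [hb, ediag, ediag, Matrix.diagonal_mul_diagonal, ← Matrix.diagonal_one]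
    congr 1
    funext i
    rw [← Complex.ofReal_mul, ← Real.exp_add]
    simp
  have hbh : b.conjTranspose = b := by
    rw [hb, ediag, Matrix.diagonal_conjTranspose]
    congr 1
    funext i
    exact Complex.conj_ofReal _
  refine ⟨g * U * b, U.conjTranspose, t, ?_, ?_, ?_⟩
  · rw [Matrix.mem_unitaryGroup_iff']
    change (g * U * b).conjTranspose * (g * U * b) = 1
    have h1 : (g * U * b).conjTranspose * (g * U * b) =
        b * (U.conjTranspose * (g.conjTranspose * g) * U) * b := by
      rw [Matrix.conjTranspose_mul, Matrix.conjTranspose_mul, hbh]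
      simp only [Matrix.mul_assoc]
    have h2 : U.conjTranspose * (g.conjTranspose * g) * U =
        Matrix.diagonal (fun i => (ev i : ℂ)) := by
      rw [hspec']
      have : U.conjTranspose * (U * Matrix.diagonal (fun i => (ev i : ℂ)) * U.conjTranspose) * U =
          (U.conjTranspose * U) * Matrix.diagonal (fun i => (ev i : ℂ)) * (U.conjTranspose * U) := by
        simp only [Matrix.mul_assoc]
      rw [this, hUU, Matrix.one_mul, Matrix.mul_one]
    rw [h1, h2]
    have h3 : Matrix.diagonal (fun i => (ev i : ℂ)) = ediag t * ediag t := by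
      rw [ediag, Matrix.diagonal_mul_diagonal]
      congr 1
      funext i
      rw [← Complex.ofReal_mul, hexp]
    rw [h3]
    have : b * (ediag t * ediag t) * b = (b * ediag t) * (ediag t * b) := by
      simp only [Matrix.mul_assoc]
    rw [this, hba, hab, Matrix.one_mul]
  · exact Matrix.mem_unitaryGroup_iff.mpr (by
      change U.conjTranspose * U.conjTranspose.conjTranspose = 1
      rw [Matrix.conjTranspose_conjTranspose, hUU])
  · have : g * U * b * ediag t * U.conjTranspose = g * U * (b * ediag t) * U.conjTranspose := by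
      simp only [Matrix.mul_assoc]
    rw [this, hba, Matrix.mul_one, Matrix.mul_assoc, hUU', Matrix.mul_one]

lemma norm_det_unitary {k : Matrix (Fin n) (Fin n) ℂ} (hk : k ∈ Matrix.unitaryGroup (Fin n) ℂ) :
    ‖k.det‖ = 1 := by
  have h1 : k * k.conjTranspose = 1 := Matrix.mem_unitaryGroup_iff.mp hk
  have h2 := congrArg Matrix.det h1
  rw [Matrix.det_mul, Matrix.det_conjTranspose, Matrix.det_one] at h2
  have h3 := congrArg norm h2
  rw [norm_mul, norm_star, norm_one] at h3
  nlinarith [norm_nonneg k.det, sq_nonneg (‖k.det‖ - 1)]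

lemma det_ediag (t : Fin n → ℝ) : (ediag t).det = ((Real.exp (∑ i, t i) : ℝ) : ℂ) := by
  rw [ediag, Matrix.det_diagonal, Real.exp_sum, Complex.ofReal_prod]

lemma sum_eq_zero_of_kak {g k k' : Matrix (Fin n) (Fin n) ℂ} {t : Fin n → ℝ} (hg : g.det = 1)
    (hk : k ∈ Matrix.unitaryGroup (Fin n) ℂ) (hk' : k' ∈ Matrix.unitaryGroup (Fin n) ℂ)
    (h : g = k * ediag t * k') : ∑ i, t i = 0 := by
  have h1 := congrArg (fun m : Matrix (Fin n) (Fin n) ℂ => ‖m.det‖) h
  simp only [Matrix.det_mul, norm_mul, norm_det_unitary hk, norm_det_unitary hk', hg, norm_one,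
    one_mul, mul_one, det_ediag] at h1
  rw [Complex.norm_real, Real.norm_eq_abs, abs_of_pos (Real.exp_pos _)] at h1
  have := Real.exp_eq_one_iff _ |>.mp h1.symm
  exact this

/-- The unitary group is compact. -/
lemma isCompact_unitary :
    IsCompact {k : Matrix (Fin n) (Fin n) ℂ | k ∈ Matrix.unitaryGroup (Fin n) ℂ} := by
  have h1 : IsCompact (Set.univ.pi fun _ : Fin n => Set.univ.pi fun _ : Fin n =>
      Metric.closedBall (0 : ℂ) 1) :=
    isCompact_univ_pi fun _ => isCompact_univ_pi fun _ => isCompact_closedBall _ _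
  refine IsCompact.of_isClosed_subset h1 ?_ ?_
  · have h2 : {k : Matrix (Fin n) (Fin n) ℂ | k ∈ Matrix.unitaryGroup (Fin n) ℂ} =
        (fun k : Matrix (Fin n) (Fin n) ℂ => k * k.conjTranspose) ⁻¹' {1} := by
      ext k
      simp only [Set.mem_preimage, Set.mem_singleton_iff]
      exact Matrix.mem_unitaryGroup_iff
    rw [h2]
    apply IsClosed.preimage _ isClosed_singleton
    fun_prop
  · intro k hk i _ j _
    rw [Metric.mem_closedBall, dist_zero_right]
    exact entry_norm_bound_of_unitary hk i j

end Pool.Agent.Lib.MP_965dfe_ag
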