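import Mathlib
import Pool.Agent.Lib.MP_965dfe_ag.Subst
import Pool.Agent.Lib.MP_965dfe_ag.KAK

open MvPolynomial Filter Topology

namespace Pool.Agent.Lib.MP_965dfe_ag

variable {n : ℕ}

instance instFirstCountableMatrix : FirstCountableTopology (Matrix (Fin n) (Fin n) ℂ) :=
  inferInstanceAs (FirstCountableTopology (Fin n → Fin n → ℂ))

lemma coeff_subst_ediag (t : Fin n → ℝ) (f : MvPolynomial (Fin n) ℂ) (α : Fin n →₀ ℕ) :
    (subst (ediag t) f).coeff α = ((Real.exp (∑ i, t i * α i) : ℝ) : ℂ) * f.coeff α := by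
  rw [ediag, coeff_subst_diagonal]
  congr 1
  rw [Real.exp_sum, Complex.ofReal_prod]
  refine Finset.prod_congr rfl fun i _ => ?_
  rw [← Complex.ofReal_pow, ← Real.exp_nat_mul, mul_comm]

lemma subst_unitary_cancel {g k k' : Matrix (Fin n) (Fin n) ℂ} {t : Fin n → ℝ}
    (hk' : k' ∈ Matrix.unitaryGroup (Fin n) ℂ) (h : g = k * ediag t * k')
    (f : MvPolynomial (Fin n) ℂ) :
    subst k'.conjTranspose (subst g f) = subst (ediag t) (subst k f) := by
  rw [subst_subst, subst_subst, h, Matrix.mul_assoc]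
  have h1 : k' * k'.conjTranspose = 1 := Matrix.mem_unitaryGroup_iff.mp hk'
  rw [h1, Matrix.mul_one]

/-- **Numerical criterion implies semistability.** -/
theorem isSemistable_of_num {f : MvPolynomial (Fin n) ℂ} {d : ℕ} (hf : f.IsHomogeneous d)
    (hnum : ∀ k ∈ Matrix.unitaryGroup (Fin n) ℂ, ∀ r : Fin n → ℝ, ∑ i, r i = 0 →
      ∃ α, (subst k f).coeff α ≠ 0 ∧ ∑ i, r i * α i ≤ 0) : IsSemistable f := by
  intro hmem
  rw [mem_closure_iff_seq_limit] at hmem
  obtain ⟨x, hx, hlim⟩ := hmem
  choose g hdet hxg using hx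
  have hkak := fun m => kak (g m) (by rw [hdet m]; exact one_ne_zero)
  choose k k' t hk hk' hg using hkak
  obtain ⟨k₀, hk₀, φ, hφ, hkφ⟩ := isCompact_unitary.tendsto_subseq (fun m => hk m)
  -- it suffices to use boundedness of the entries of `k'`, via a further subsequence
  obtain ⟨k'₀, hk'₀, ψ, hψ, hk'ψ⟩ := isCompact_unitary.tendsto_subseq (fun m => hk' (φ m))
  have hlim0 : ∀ α, Tendsto (fun m => (subst (g m) f).coeff α) atTop (𝓝 0) := by
    intro α
    have h1 := (tendsto_pi_nhds.mp hlim) α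
    have h2 : (fun m => x m α) = fun m => (subst (g m) f).coeff α := by
      funext m
      rw [hxg m]
      rfl
    rw [h2] at h1
    exact h1
  set θ : ℕ → ℕ := fun m => φ (ψ m) with hθ
  have hθt : Tendsto θ atTop atTop := hφ.tendsto_atTop.comp hψ.tendsto_atTop
  have hkθ : Tendsto (fun m => k (θ m)) atTop (𝓝 k₀) := hkφ.comp hψ.tendsto_atTop
  have hk'θ : Tendsto (fun m => (k' (θ m)).conjTranspose) atTop (𝓝 k'₀.conjTranspose) := by
    have hc : Continuous fun m : Matrix (Fin n) (Fin n) ℂ => m.conjTranspose := by fun_prop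
    exact (hc.tendsto k'₀).comp hk'ψ
  have hH : ∀ α, Tendsto (fun m => (subst (ediag (t (θ m))) (subst (k (θ m)) f)).coeff α) atTop
      (𝓝 0) := by
    intro α
    have h1 := tendsto_coeff_subst (F := fun m => subst (g (θ m)) f) (F₀ := 0) (d := d)
      (fun m => isHomogeneous_subst hf _) (isHomogeneous_zero _ _ _)
      (fun β => by rw [coeff_zero]; exact (hlim0 β).comp hθt) hk'θ α
    rw [map_zero, coeff_zero] at h1
    refine h1.congr fun m => ?_
    rw [subst_unitary_cancel (hk' (θ m)) (hg (θ m))]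
  -- the supporting exponents of the limit
  have hev : ∀ α ∈ expo n d, (subst k₀ f).coeff α ≠ 0 →
      ∀ᶠ m in atTop, ∑ i, t (θ m) i * α i < 0 := by
    intro α _ hα
    have h1 := hH α
    have h2 : Tendsto (fun m => ‖(subst (k (θ m)) f).coeff α‖) atTop
        (𝓝 ‖(subst k₀ f).coeff α‖) :=
      (((contCoeff_subst f α).tendsto k₀).comp hkθ).norm
    have hpos : 0 < ‖(subst k₀ f).coeff α‖ := norm_pos_iff.mpr hα
    have h3 : ∀ᶠ m in atTop, ‖(subst k₀ f).coeff α‖ / 2 < ‖(subst (k (θ m)) f).coeff α‖ :=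
      h2.eventually (lt_mem_nhds (by linarith))
    have h4 : ∀ᶠ m in atTop, ‖(subst (ediag (t (θ m))) (subst (k (θ m)) f)).coeff α‖ <
        ‖(subst k₀ f).coeff α‖ / 2 := by
      have := h1.norm
      rw [norm_zero] at this
      exact this.eventually (gt_mem_nhds (by linarith))
    filter_upwards [h3, h4] with m hm3 hm4
    rw [coeff_subst_ediag, norm_mul, Complex.norm_real, Real.norm_eq_abs,
      abs_of_pos (Real.exp_pos _)] at hm4
    by_contra hcon
    push Not at hcon
    have h5 : 1 ≤ Real.exp (∑ i, t (θ m) i * α i) := Real.one_le_exp hcon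
    nlinarith [norm_nonneg ((subst (k (θ m)) f).coeff α)]
  have hall : ∀ᶠ m in atTop, ∀ α ∈ expo n d, (subst k₀ f).coeff α ≠ 0 →
      ∑ i, t (θ m) i * α i < 0 := by
    rw [Filter.eventually_all_finset]
    intro α hα
    by_cases h : (subst k₀ f).coeff α = 0
    · exact Filter.Eventually.of_forall fun m h' => absurd h h'
    · filter_upwards [hev α hα h] with m hm _
      exact hm
  obtain ⟨m, hm⟩ := hall.exists
  obtain ⟨α, hα, hle⟩ := hnum k₀ hk₀ (fun i => - t (θ m) i) (by
    rw [Finset.sum_neg_distrib, sum_eq_zero_of_kak (hdet (θ m)) (hk _) (hk' _) (hg _), neg_zero])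
  have h1 := hm α (mem_expo.mpr (sum_of_homogeneous (isHomogeneous_subst hf k₀) hα)) hα
  simp only [neg_mul, Finset.sum_neg_distrib] at hle
  linarith

/-- Under the strict numerical criterion, `g ↦ f(g x)` is proper on `SL_n(ℂ)`. -/
theorem exists_subseq {f : MvPolynomial (Fin n) ℂ} {d : ℕ} (hf : f.IsHomogeneous d)
    (hnum : ∀ k ∈ Matrix.unitaryGroup (Fin n) ℂ, ∀ r : Fin n → ℝ, ∑ i, r i = 0 → r ≠ 0 →
      ∃ α, (subst k f).coeff α ≠ 0 ∧ ∑ i, r i * α i < 0)
    (g : ℕ → Matrix (Fin n) (Fin n) ℂ) (hdet : ∀ m, (g m).det = 1) (v : (Fin n →₀ ℕ) → ℂ)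
    (hlim : ∀ α, Tendsto (fun m => (subst (g m) f).coeff α) atTop (𝓝 (v α))) :
    ∃ g₀ : Matrix (Fin n) (Fin n) ℂ, ∃ φ : ℕ → ℕ, StrictMono φ ∧
      Tendsto (fun m => g (φ m)) atTop (𝓝 g₀) := by
  have hkak := fun m => kak (g m) (by rw [hdet m]; exact one_ne_zero)
  choose k k' t hk hk' hg using hkak
  obtain ⟨k₀, hk₀, φ, hφ, hkφ⟩ := isCompact_unitary.tendsto_subseq (fun m => hk m)
  obtain ⟨k'₀, hk'₀, ψ, hψ, hk'ψ⟩ := isCompact_unitary.tendsto_subseq (fun m => hk' (φ m))
  set θ : ℕ → ℕ := fun m => φ (ψ m) with hθ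
  have hθm : StrictMono θ := hφ.comp hψ
  have hθt : Tendsto θ atTop atTop := hθm.tendsto_atTop
  have hkθ : Tendsto (fun m => k (θ m)) atTop (𝓝 k₀) := hkφ.comp hψ.tendsto_atTop
  have hk'θ' : Tendsto (fun m => k' (θ m)) atTop (𝓝 k'₀) := hk'ψ
  have hk'θ : Tendsto (fun m => (k' (θ m)).conjTranspose) atTop (𝓝 k'₀.conjTranspose) := by
    have hc : Continuous fun m : Matrix (Fin n) (Fin n) ℂ => m.conjTranspose := by fun_prop
    exact (hc.tendsto k'₀).comp hk'ψ
  -- the limit form
  set h : MvPolynomial (Fin n) ℂ := ∑ β ∈ expo n d, C (v β) * monomial β 1 with hh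
  have hhom : h.IsHomogeneous d := by
    rw [hh]
    apply IsHomogeneous.sum
    intro β hβ
    rw [C_mul_monomial, mul_one]
    apply isHomogeneous_monomial
    rw [Finsupp.degree_eq_sum]
    exact mem_expo.mp hβ
  have hcoeff : ∀ α, h.coeff α = v α := by
    classical
    intro α
    rw [hh, coeff_sum]
    simp only [coeff_C_mul, coeff_monomial, mul_ite, mul_one, mul_zero]
    rw [Finset.sum_ite_eq']
    split_ifs with hα
    · rfl
    · have h1 : (fun m => (subst (g m) f).coeff α) = fun _ => 0 := by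
        funext m
        by_contra hne
        exact hα (mem_expo.mpr (sum_of_homogeneous (isHomogeneous_subst hf _) hne))
      have h2 := hlim α
      rw [h1] at h2
      exact tendsto_nhds_unique tendsto_const_nhds h2
  have hH : ∀ α, Tendsto (fun m => (subst (ediag (t (θ m))) (subst (k (θ m)) f)).coeff α) atTop
      (𝓝 ((subst k'₀.conjTranspose h).coeff α)) := by
    intro α
    have h1 := tendsto_coeff_subst (F := fun m => subst (g (θ m)) f) (F₀ := h) (d := d)
      (fun m => isHomogeneous_subst hf _) hhom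
      (fun β => by rw [hcoeff]; exact (hlim β).comp hθt) hk'θ α
    refine h1.congr fun m => ?_
    rw [subst_unitary_cancel (hk' (θ m)) (hg (θ m))]
  -- boundedness of `t`
  have hbdd : Bornology.IsBounded (Set.range fun m => t (θ m)) := by
    by_contra hunb
    have hfreq : ∀ N : ℕ, ∃ m > N, (N : ℝ) ≤ ‖t (θ m)‖ := by
      intro N
      by_contra hcon
      push Not at hcon
      apply hunb
      rw [isBounded_iff_forall_norm_le]
      refine ⟨∑ m ∈ Finset.range (N + 1), ‖t (θ m)‖ + N, ?_⟩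
      rintro _ ⟨m, rfl⟩
      by_cases hm : m ≤ N
      · have h1 : ‖t (θ m)‖ ≤ ∑ m ∈ Finset.range (N + 1), ‖t (θ m)‖ :=
          Finset.single_le_sum (f := fun m => ‖t (θ m)‖) (fun _ _ => norm_nonneg _)
            (Finset.mem_range.mpr (by omega))
        have h2 : (0 : ℝ) ≤ N := Nat.cast_nonneg _
        simp only
        linarith
      · have h1 := hcon m (by omega)
        have h2 : 0 ≤ ∑ m ∈ Finset.range (N + 1), ‖t (θ m)‖ :=
          Finset.sum_nonneg fun _ _ => norm_nonneg _
        simp only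
        linarith
    obtain ⟨χ, hχ, hχn⟩ := Filter.extraction_forall_of_frequently
      (P := fun N m => (N : ℝ) ≤ ‖t (θ m)‖) (fun N => by
        rw [Filter.frequently_atTop]
        intro a
        obtain ⟨m, hm, hm'⟩ := hfreq (max a N)
        refine ⟨m, ?_, ?_⟩
        · exact (le_max_left a N).trans hm.le
        · refine le_trans ?_ hm'
          exact_mod_cast le_max_right a N)
    have htop : Tendsto (fun m => ‖t (θ (χ m))‖) atTop atTop :=
      tendsto_atTop_mono hχn tendsto_natCast_atTop_atTop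
    -- normalised directions
    set s : ℕ → (Fin n → ℝ) := fun m => ‖t (θ (χ m))‖⁻¹ • t (θ (χ m)) with hs
    have hsball : ∀ m, s m ∈ Metric.closedBall (0 : Fin n → ℝ) 1 := by
      intro m
      rw [Metric.mem_closedBall, dist_zero_right, hs, norm_smul, norm_inv, norm_norm]
      by_cases h0 : ‖t (θ (χ m))‖ = 0
      · rw [h0]; simp
      · rw [inv_mul_cancel₀ h0]
    obtain ⟨r, -, ω, hω, hsω⟩ := (isCompact_closedBall (0 : Fin n → ℝ) 1).tendsto_subseq hsball
    have htopω : Tendsto (fun m => ‖t (θ (χ (ω m)))‖) atTop atTop := htop.comp hω.tendsto_atTop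
    have hnorm1 : ‖r‖ = 1 := by
      have h1 : Tendsto (fun m => ‖s (ω m)‖) atTop (𝓝 ‖r‖) := hsω.norm
      have h2 : ∀ᶠ m in atTop, ‖s (ω m)‖ = 1 := by
        filter_upwards [htopω.eventually (eventually_gt_atTop 0)] with m hm
        rw [hs]
        simp only [norm_smul, norm_inv, norm_norm]
        exact inv_mul_cancel₀ hm.ne'
      exact tendsto_nhds_unique h1 (tendsto_const_nhds.congr' (h2.mono fun m hm => hm.symm))
    have hr0 : r ≠ 0 := by
      intro h0
      rw [h0, norm_zero] at hnorm1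
      exact zero_ne_one hnorm1
    have hsum : ∑ i, r i = 0 := by
      have h1 : Tendsto (fun m => ∑ i, s (ω m) i) atTop (𝓝 (∑ i, r i)) :=
        tendsto_finsetSum _ fun i _ => (tendsto_pi_nhds.mp hsω) i
      have h2 : (fun m => ∑ i, s (ω m) i) = fun _ => (0 : ℝ) := by
        funext m
        simp only [hs, Pi.smul_apply, smul_eq_mul, ← Finset.mul_sum]
        rw [sum_eq_zero_of_kak (hdet _) (hk _) (hk' _) (hg _), mul_zero]
      rw [h2] at h1
      exact tendsto_nhds_unique h1 tendsto_const_nhds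
    obtain ⟨α, hα, hlt⟩ := hnum k₀ hk₀ (fun i => - r i)
      (by rw [Finset.sum_neg_distrib, hsum, neg_zero]) (fun h0 => hr0 (by
        funext i
        have := congrFun h0 i
        simpa using this))
    have hrα : 0 < ∑ i, r i * α i := by
      simp only [neg_mul, Finset.sum_neg_distrib] at hlt
      linarith
    -- the exponent tends to infinity
    have h1 : Tendsto (fun m => ∑ i, s (ω m) i * α i) atTop (𝓝 (∑ i, r i * α i)) :=
      tendsto_finsetSum _ fun i _ => ((tendsto_pi_nhds.mp hsω) i).mul_const _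
    have h2 : Tendsto (fun m => ∑ i, t (θ (χ (ω m))) i * α i) atTop atTop := by
      have h3 := htopω.atTop_mul_pos hrα h1
      refine h3.congr' ?_
      filter_upwards [htopω.eventually (eventually_gt_atTop 0)] with m hm
      simp only [hs, Pi.smul_apply, smul_eq_mul, Finset.mul_sum]
      refine Finset.sum_congr rfl fun i _ => ?_
      rw [← mul_assoc, ← mul_assoc, mul_inv_cancel₀ hm.ne', one_mul]
    have h3 : Tendsto (fun m => Real.exp (∑ i, t (θ (χ (ω m))) i * α i) *
        ‖(subst (k (θ (χ (ω m)))) f).coeff α‖) atTop atTop := by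
      refine Tendsto.atTop_mul_pos (norm_pos_iff.mpr hα) (Real.tendsto_exp_atTop.comp h2) ?_
      exact ((((contCoeff_subst f α).tendsto k₀).comp hkθ).norm).comp
        (hχ.comp hω).tendsto_atTop
    have h4 : Tendsto (fun m => Real.exp (∑ i, t (θ (χ (ω m))) i * α i) *
        ‖(subst (k (θ (χ (ω m)))) f).coeff α‖) atTop
        (𝓝 ‖(subst k'₀.conjTranspose h).coeff α‖) := by
      have h5 := ((hH α).norm).comp (hχ.comp hω).tendsto_atTop
      refine h5.congr fun m => ?_
      simp only [Function.comp_apply]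
      rw [coeff_subst_ediag, norm_mul, Complex.norm_real, Real.norm_eq_abs,
        abs_of_pos (Real.exp_pos _)]
    exact not_tendsto_nhds_of_tendsto_atTop h3 _ h4
  obtain ⟨t₀, -, ω, hω, htω⟩ := tendsto_subseq_of_bounded hbdd (fun m => Set.mem_range_self m)
  refine ⟨k₀ * ediag t₀ * k'₀, fun m => θ (ω m), hθm.comp hω, ?_⟩
  have h1 : Tendsto (fun m => k (θ (ω m)) * ediag (t (θ (ω m))) * k' (θ (ω m))) atTop
      (𝓝 (k₀ * ediag t₀ * k'₀)) := by
    have hcont : Continuous fun t : Fin n → ℝ => (ediag t : Matrix (Fin n) (Fin n) ℂ) := by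
      unfold ediag
      fun_prop
    exact ((hkθ.comp hω.tendsto_atTop).mul ((hcont.tendsto t₀).comp htω)).mul
      (hk'θ'.comp hω.tendsto_atTop)
  refine h1.congr fun m => ?_
  rw [hg (θ (ω m))]

end Pool.Agent.Lib.MP_965dfe_ag
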