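import Mathlib
import Pool.Agent.Lib.MP_965dfe_ag.HM

open MvPolynomial Filter Topology

namespace Pool.Agent.Lib.MP_965dfe_ag

variable {n : ℕ}

/-- Under the strict numerical criterion, the orbit is closed. -/
theorem isClosed_orbit {f : MvPolynomial (Fin n) ℂ} {d : ℕ} (hf : f.IsHomogeneous d)
    (hnum : ∀ k ∈ Matrix.unitaryGroup (Fin n) ℂ, ∀ r : Fin n → ℝ, ∑ i, r i = 0 → r ≠ 0 →
      ∃ α, (subst k f).coeff α ≠ 0 ∧ ∑ i, r i * α i < 0) : IsClosed (orbit f) := by
  apply IsSeqClosed.isClosed
  intro x v hx hlim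
  choose g hdet hxg using hx
  have hlim' : ∀ α, Tendsto (fun m => (subst (g m) f).coeff α) atTop (𝓝 (v α)) := by
    intro α
    have h1 := (tendsto_pi_nhds.mp hlim) α
    have h2 : (fun m => x m α) = fun m => (subst (g m) f).coeff α := by
      funext m
      rw [hxg m]
      rfl
    rw [h2] at h1
    exact h1
  obtain ⟨g₀, φ, hφ, hg⟩ := exists_subseq hf hnum g hdet v hlim'
  refine ⟨g₀, ?_, ?_⟩
  · have hc : Continuous fun m : Matrix (Fin n) (Fin n) ℂ => m.det := Continuous.matrix_det continuous_id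
    have h1 := (hc.tendsto g₀).comp hg
    have h2 : ((fun m : Matrix (Fin n) (Fin n) ℂ => m.det) ∘ fun m => g (φ m)) = fun _ => 1 := by
      funext m
      exact hdet (φ m)
    rw [h2] at h1
    exact tendsto_nhds_unique h1 tendsto_const_nhds
  · funext α
    have h1 := ((contCoeff_subst f α).tendsto g₀).comp hg
    have h2 := (hlim' α).comp hφ.tendsto_atTop
    exact tendsto_nhds_unique h2 h1

open scoped Matrix.Norms.Operator

/-- Families of polynomials with differentiable coefficients. -/
def DiffCoeff (F : Matrix (Fin n) (Fin n) ℂ → MvPolynomial (Fin n) ℂ) : Prop :=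
  ∀ α, Differentiable ℂ fun t => (F t).coeff α

lemma differentiable_entry (i j : Fin n) :
    Differentiable ℂ (fun g : Matrix (Fin n) (Fin n) ℂ => g i j) :=
  (LinearMap.toContinuousLinearMap (Matrix.entryLinearMap ℂ ℂ i j)).differentiable

lemma diffCoeff_subst (f : MvPolynomial (Fin n) ℂ) :
    DiffCoeff fun g : Matrix (Fin n) (Fin n) ℂ => subst g f := by
  classical
  have hadd : ∀ F G : Matrix (Fin n) (Fin n) ℂ → MvPolynomial (Fin n) ℂ, DiffCoeff F →
      DiffCoeff G → DiffCoeff fun t => F t + G t := by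
    intro F G hF hG α
    simp only [coeff_add]
    exact (hF α).add (hG α)
  have hmul : ∀ F G : Matrix (Fin n) (Fin n) ℂ → MvPolynomial (Fin n) ℂ, DiffCoeff F →
      DiffCoeff G → DiffCoeff fun t => F t * G t := by
    intro F G hF hG α
    simp only [coeff_mul]
    exact Differentiable.fun_sum fun x _ => (hF x.1).mul (hG x.2)
  have hconst : ∀ p : MvPolynomial (Fin n) ℂ, DiffCoeff fun _ => p :=
    fun p α => differentiable_const _
  have hlin : ∀ i : Fin n, DiffCoeff fun g : Matrix (Fin n) (Fin n) ℂ =>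
      ∑ j, MvPolynomial.C (g i j) * X j := by
    intro i α
    simp only [coeff_sum, coeff_C_mul]
    exact Differentiable.fun_sum fun j _ => (differentiable_entry i j).mul_const _
  induction f using MvPolynomial.induction_on with
  | C c => simpa using hconst (MvPolynomial.C c)
  | add p q hp hq => simpa only [map_add] using hadd _ _ hp hq
  | mul_X p i hp =>
    simp only [map_mul, subst_X]
    exact hmul _ _ hp (hlin i)

lemma differentiable_det : Differentiable ℂ (fun g : Matrix (Fin n) (Fin n) ℂ => g.det) := by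
  simp only [Matrix.det_apply]
  refine Differentiable.fun_sum fun σ _ => ?_
  apply Differentiable.const_smul
  intro g
  exact (HasFDerivAt.finsetProd (u := Finset.univ) (𝕜 := ℂ)
    (g := fun (i : Fin n) (g : Matrix (Fin n) (Fin n) ℂ) => g (σ i) i)
    fun i _ => (differentiable_entry (σ i) i g).hasFDerivAt).differentiableAt

/-- A function `F` with `F (z + w) = G w z`, `G` flat at `w = 0`, is constant. -/
lemma const_of_flat (F : ℂ → ℂ) (hF : ∀ z, HasDerivAt (fun w => F (w + z)) 0 0) (z : ℂ) :
    F z = F 0 := by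
  have h1 : ∀ z, HasDerivAt F 0 z := by
    intro z
    have h2 := hF z
    have h3 : HasDerivAt (fun w => F (w + z)) 0 (z - z) := by rw [sub_self]; exact h2
    have h4 := h3.comp_sub_const z z
    simpa using h4
  exact is_const_of_deriv_eq_zero (fun z => (h1 z).differentiableAt) (fun z => (h1 z).deriv) z 0

/-- No nonzero infinitesimal stabiliser. -/
lemma infinitesimal {f : MvPolynomial (Fin n) ℂ} {d : ℕ} (hf : f.IsHomogeneous d)
    (hnum : ∀ k ∈ Matrix.unitaryGroup (Fin n) ℂ, ∀ r : Fin n → ℝ, ∑ i, r i = 0 → r ≠ 0 →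
      ∃ α, (subst k f).coeff α ≠ 0 ∧ ∑ i, r i * α i < 0)
    (A : Matrix (Fin n) (Fin n) ℂ)
    (hA : ∀ α, fderiv ℂ (fun g : Matrix (Fin n) (Fin n) ℂ => (subst g f).coeff α) 1 A = 0)
    (hdetA : fderiv ℂ (fun g : Matrix (Fin n) (Fin n) ℂ => g.det) 1 A = 0) : A = 0 := by
  set E : ℂ → Matrix (Fin n) (Fin n) ℂ := fun z => NormedSpace.exp (z • A) with hE
  have hE0 : E 0 = 1 := by simp [hE]
  have hEadd : ∀ w z, E (w + z) = E w * E z := by
    intro w z
    simp only [hE]
    rw [add_smul]
    apply NormedSpace.exp_add_of_commute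
    exact (Commute.refl A).smul_left w |>.smul_right z
  have hEderiv : ∀ z, HasDerivAt E (E z * A) z := fun z => hasDerivAt_exp_smul_const A z
  have hE0deriv : HasDerivAt E A 0 := by
    have := hEderiv 0
    rwa [hE0, one_mul] at this
  -- derivative at zero of the coefficients and of the determinant along `E`
  have hcoeff0 : ∀ α, HasDerivAt (fun w => (subst (E w) f).coeff α) 0 0 := by
    intro α
    have h1 := ((diffCoeff_subst f α) (E 0)).hasFDerivAt
    refine (h1.comp_hasDerivAt (0 : ℂ) hE0deriv).congr_deriv ?_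
    rw [hE0]
    exact hA α
  have hdet0 : HasDerivAt (fun w => (E w).det) 0 0 := by
    have h1 := (differentiable_det (E 0)).hasFDerivAt
    refine (h1.comp_hasDerivAt (0 : ℂ) hE0deriv).congr_deriv ?_
    rw [hE0]
    exact hdetA
  have hsub : ∀ z, subst (E z) f = f := by
    intro z
    ext α
    have h1 : ∀ z, HasDerivAt (fun w => (subst (E (w + z)) f).coeff α) 0 0 := by
      intro z
      have h2 : (fun w => (subst (E (w + z)) f).coeff α) = fun w =>
          ∑ β ∈ expo n d, (subst (E w) f).coeff β * (subst (E z) (monomial β 1)).coeff α := by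
        funext w
        rw [hEadd, ← subst_subst]
        exact coeff_subst_eq (isHomogeneous_subst hf _) _ _
      rw [h2]
      have h3 := HasDerivAt.fun_sum (u := expo n d)
        (A := fun β w => (subst (E w) f).coeff β * (subst (E z) (monomial β 1)).coeff α)
        (A' := fun β => 0 * (subst (E z) (monomial β 1)).coeff α) (x := (0 : ℂ))
        (fun β _ => (hcoeff0 β).mul_const _)
      simpa using h3
    have h2 : (subst (E z) f).coeff α = (subst (E 0) f).coeff α :=
      const_of_flat (fun z => (subst (E z) f).coeff α) h1 z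
    rw [h2, hE0, subst_one]
  have hdet : ∀ z, (E z).det = 1 := by
    intro z
    have h1 : ∀ z, HasDerivAt (fun w => (E (w + z)).det) 0 0 := by
      intro z
      have h2 : (fun w => (E (w + z)).det) = fun w => (E w).det * (E z).det := by
        funext w
        rw [hEadd, Matrix.det_mul]
      rw [h2]
      have h3 := hdet0.mul_const (E z).det
      simpa using h3
    have h2 : (E z).det = (E 0).det := const_of_flat (fun z => (E z).det) h1 z
    rw [h2, hE0, Matrix.det_one]
  -- boundedness
  have hbdd : Bornology.IsBounded (Set.range E) := by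
    by_contra hunb
    rw [isBounded_iff_forall_norm_le] at hunb
    push Not at hunb
    have h1 : ∀ N : ℕ, ∃ z, (N : ℝ) < ‖E z‖ := by
      intro N
      obtain ⟨_, ⟨z, rfl⟩, hz⟩ := hunb N
      exact ⟨z, hz⟩
    choose z hz using h1
    obtain ⟨g₀, φ, hφ, hg⟩ := exists_subseq hf hnum (fun m => E (z m)) (fun m => hdet _)
      (coeffs f) (fun α => by
        simp only [hsub]
        exact tendsto_const_nhds)
    have h2 := hg.norm
    have h3 : Tendsto (fun m => ‖E (z (φ m))‖) atTop atTop := by
      have h4 : Tendsto (fun m => ((φ m : ℕ) : ℝ)) atTop atTop :=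
        tendsto_natCast_atTop_atTop.comp hφ.tendsto_atTop
      exact tendsto_atTop_mono (fun m => (hz (φ m)).le) h4
    exact not_tendsto_nhds_of_tendsto_atTop h3 _ h2
  have hdiff : Differentiable ℂ E := fun z => (hEderiv z).differentiableAt
  have hconst : ∀ z, E z = E 0 := fun z => hdiff.apply_eq_apply_of_bounded hbdd z 0
  have h1 : HasDerivAt E 0 0 := by
    have h2 : E = fun _ => E 0 := funext hconst
    rw [h2]
    exact hasDerivAt_const _ _
  exact hE0deriv.unique h1

/-- Under the strict numerical criterion, the stabiliser in `SL_n(ℂ)` is finite. -/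
theorem finite_stab {f : MvPolynomial (Fin n) ℂ} {d : ℕ} (hf : f.IsHomogeneous d)
    (hnum : ∀ k ∈ Matrix.unitaryGroup (Fin n) ℂ, ∀ r : Fin n → ℝ, ∑ i, r i = 0 → r ≠ 0 →
      ∃ α, (subst k f).coeff α ≠ 0 ∧ ∑ i, r i * α i < 0) : (stab f).Finite := by
  by_contra hinf
  have hinf' : (stab f).Infinite := hinf
  set e := hinf'.natEmbedding with he
  set g : ℕ → Matrix (Fin n) (Fin n) ℂ := fun m => (e m : Matrix (Fin n) (Fin n) ℂ) with hg
  have hginj : Function.Injective g := fun a b hab => e.injective (Subtype.ext hab)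
  have hgdet : ∀ m, (g m).det = 1 := fun m => (e m).2.1
  have hgsub : ∀ m, subst (g m) f = f := fun m => (e m).2.2
  obtain ⟨g₀, φ, hφ, hlim⟩ := exists_subseq hf hnum g hgdet (coeffs f) (fun α => by
    simp only [hgsub]
    exact tendsto_const_nhds)
  have hg₀det : g₀.det = 1 := by
    have hc : Continuous fun m : Matrix (Fin n) (Fin n) ℂ => m.det :=
      Continuous.matrix_det continuous_id
    have h1 := (hc.tendsto g₀).comp hlim
    have h2 : ((fun m : Matrix (Fin n) (Fin n) ℂ => m.det) ∘ fun m => g (φ m)) = fun _ => 1 := by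
      funext m
      exact hgdet (φ m)
    rw [h2] at h1
    exact tendsto_nhds_unique h1 tendsto_const_nhds
  have hg₀sub : subst g₀ f = f := by
    ext α
    have h1 := ((contCoeff_subst f α).tendsto g₀).comp hlim
    have h2 : ((fun g : Matrix (Fin n) (Fin n) ℂ => (subst g f).coeff α) ∘ fun m => g (φ m)) =
        fun _ => f.coeff α := by
      funext m
      simp only [Function.comp_apply, hgsub]
    rw [h2] at h1
    exact tendsto_nhds_unique h1 tendsto_const_nhds
  have hu : IsUnit g₀.det := by rw [hg₀det]; exact isUnit_one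
  have hinv1 : g₀ * g₀⁻¹ = 1 := Matrix.mul_nonsing_inv g₀ hu
  have hinv2 : g₀⁻¹ * g₀ = 1 := Matrix.nonsing_inv_mul g₀ hu
  have hginvsub : subst g₀⁻¹ f = f := by
    have h1 : subst g₀⁻¹ (subst g₀ f) = f := by
      rw [subst_subst, hinv1, subst_one]
    rwa [hg₀sub] at h1
  have hginvdet : g₀⁻¹.det = 1 := by
    have h1 := congrArg Matrix.det hinv1
    rw [Matrix.det_mul, hg₀det, one_mul, Matrix.det_one] at h1
    exact h1
  -- elements of the stabiliser tending to one
  set s : ℕ → Matrix (Fin n) (Fin n) ℂ := fun m => g₀⁻¹ * g (φ m) with hs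
  have hslim : Tendsto s atTop (𝓝 1) := by
    have h1 : Tendsto s atTop (𝓝 (g₀⁻¹ * g₀)) := tendsto_const_nhds.mul hlim
    rwa [hinv2] at h1
  have hssub : ∀ m, subst (s m) f = f := by
    intro m
    rw [hs, ← subst_subst, hginvsub, hgsub]
  have hsdet : ∀ m, (s m).det = 1 := by
    intro m
    rw [hs, Matrix.det_mul, hginvdet, hgdet, one_mul]
  have hsinj : Function.Injective s := by
    intro a b hab
    apply hφ.injective
    apply hginj
    have h1 : g₀ * (g₀⁻¹ * g (φ a)) = g₀ * (g₀⁻¹ * g (φ b)) := by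
      simp only [hs] at hab
      rw [hab]
    rwa [← Matrix.mul_assoc, ← Matrix.mul_assoc, hinv1, Matrix.one_mul, Matrix.one_mul] at h1
  obtain ⟨N, hN⟩ : ∃ N, ∀ m, s (m + N) ≠ 1 := by
    by_cases h : ∃ m₀, s m₀ = 1
    · obtain ⟨m₀, hm₀⟩ := h
      refine ⟨m₀ + 1, fun m hm => ?_⟩
      have := hsinj (hm.trans hm₀.symm)
      omega
    · push Not at h
      exact ⟨0, fun m => h _⟩
  set Y : ℕ → Matrix (Fin n) (Fin n) ℂ := fun m => s (m + N) - 1 with hY
  have hY0 : ∀ m, Y m ≠ 0 := fun m h => hN m (sub_eq_zero.mp h)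
  have hYlim : Tendsto Y atTop (𝓝 0) := by
    have h1 : Tendsto (fun m => s (m + N) - 1) atTop (𝓝 (1 - 1)) :=
      (hslim.comp (tendsto_add_atTop_nat N)).sub_const 1
    rwa [sub_self] at h1
  set c : ℕ → ℂ := fun m => ((‖Y m‖⁻¹ : ℝ) : ℂ) with hc
  have hcnorm : ∀ m, ‖c m • Y m‖ = 1 := by
    intro m
    rw [norm_smul, hc, Complex.norm_real, norm_inv, norm_norm,
      inv_mul_cancel₀ (norm_ne_zero_iff.mpr (hY0 m))]
  have hproper : ProperSpace (Matrix (Fin n) (Fin n) ℂ) := FiniteDimensional.proper ℂ _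
  obtain ⟨A, hAmem, ω, hω, hAlim⟩ := (isCompact_closedBall (0 : Matrix (Fin n) (Fin n) ℂ) 1).tendsto_subseq
    (x := fun m => c m • Y m) (fun m => by rw [Metric.mem_closedBall, dist_zero_right, hcnorm])
  have hA1 : ‖A‖ = 1 := by
    have h1 := hAlim.norm
    have h2 : (fun m => ‖((fun m => c m • Y m) ∘ ω) m‖) = fun _ => (1 : ℝ) := by
      funext m
      exact hcnorm (ω m)
    rw [h2] at h1
    exact tendsto_nhds_unique h1 tendsto_const_nhds |>.symm ▸ rfl
  have hder : ∀ (Φ : Matrix (Fin n) (Fin n) ℂ → ℂ), DifferentiableAt ℂ Φ 1 →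
      (∀ m, Φ (s m) = Φ 1) → fderiv ℂ Φ 1 A = 0 := by
    intro Φ hΦ hval
    have h1 := (hasFDerivWithinAt_univ.mpr hΦ.hasFDerivAt).lim (l := atTop)
      (c := fun m => c (ω m)) (d := fun m => Y (ω m)) (v := A)
      (hYlim.comp hω.tendsto_atTop) (Filter.Eventually.of_forall fun _ => Set.mem_univ _) hAlim
    have h2 : (fun m => c (ω m) • (Φ (1 + Y (ω m)) - Φ 1)) = fun _ => (0 : ℂ) := by
      funext m
      have : 1 + Y (ω m) = s (ω m + N) := by rw [hY]; simp
      rw [this, hval, sub_self, smul_zero]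
    rw [h2] at h1
    exact (tendsto_nhds_unique h1 tendsto_const_nhds)
  have hzero := infinitesimal hf hnum A
    (fun α => hder _ (diffCoeff_subst f α _) (fun m => by simp only [hssub, subst_one]))
    (hder _ (differentiable_det _) (fun m => by rw [hsdet, Matrix.det_one]))
  rw [hzero, norm_zero] at hA1
  exact zero_ne_one hA1

end Pool.Agent.Lib.MP_965dfe_ag
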