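import Mathlib
import Pool.Agent.Lib.MP_965dfe_ag.Stab

open MvPolynomial Filter Topology

namespace Pool.Agent.Lib.MP_965dfe_ag

variable {n : ℕ}

lemma det_ediag_of_sum {t : Fin n → ℝ} (ht : ∑ i, t i = 0) : (ediag t).det = 1 := by
  rw [det_ediag, ht, Real.exp_zero, Complex.ofReal_one]

/-- A destabilising one-parameter subgroup shows that `f` is not semistable. -/
theorem not_isSemistable_of {f : MvPolynomial (Fin n) ℂ}
    {g : Matrix (Fin n) (Fin n) ℂ} (hg : g.det = 1) {r : Fin n → ℝ} (hr : ∑ i, r i = 0)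
    (h : ∀ α ∈ (subst g f).support, 0 < ∑ i, r i * α i) : ¬ IsSemistable f := by
  intro hss
  apply hss
  rw [mem_closure_iff_seq_limit]
  refine ⟨fun m => coeffs (subst (g * ediag (fun i => -(m : ℝ) * r i)) f), ?_, ?_⟩
  · intro m
    refine ⟨_, ?_, rfl⟩
    rw [Matrix.det_mul, hg, one_mul, det_ediag_of_sum]
    rw [← Finset.mul_sum, hr, mul_zero]
  · rw [tendsto_pi_nhds]
    intro α
    simp only [coeffs, Pi.zero_apply, ← subst_subst, coeff_subst_ediag]
    by_cases hα : (subst g f).coeff α = 0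
    · simp only [hα, mul_zero]
      exact tendsto_const_nhds
    · have hpos := h α (mem_support_iff.mpr hα)
      have h1 : Tendsto (fun m : ℕ => Real.exp (∑ i, -(m : ℝ) * r i * α i)) atTop (𝓝 0) := by
        have h2 : (fun m : ℕ => Real.exp (∑ i, -(m : ℝ) * r i * α i)) =
            fun m : ℕ => Real.exp (-((m : ℝ) * ∑ i, r i * α i)) := by
          funext m
          congr 1
          rw [Finset.mul_sum, ← Finset.sum_neg_distrib]
          refine Finset.sum_congr rfl fun i _ => by ring
        rw [h2]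
        apply Real.tendsto_exp_neg_atTop_nhds_zero.comp
        exact tendsto_natCast_atTop_atTop.atTop_mul_const hpos
      have h2 : Tendsto (fun m : ℕ =>
          ((Real.exp (∑ i, -(m : ℝ) * r i * α i) : ℝ) : ℂ) * (subst g f).coeff α) atTop
          (𝓝 (((0 : ℝ) : ℂ) * (subst g f).coeff α)) :=
        ((Complex.continuous_ofReal.tendsto 0).comp h1).mul_const _
      simpa using h2

/-- A one-parameter subgroup with nonnegative weights shows that `f` is not stable. -/
theorem not_isStable_of {f : MvPolynomial (Fin n) ℂ} {d : ℕ} (hf : f.IsHomogeneous d)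
    {g : Matrix (Fin n) (Fin n) ℂ} (hg : g.det = 1) {r : Fin n → ℝ} (hr : ∑ i, r i = 0)
    (hr0 : r ≠ 0) (h : ∀ α ∈ (subst g f).support, 0 ≤ ∑ i, r i * α i) : ¬ IsStable f := by
  classical
  rintro ⟨-, hclosed, hfin⟩
  set F := subst g f with hF
  have hFhom : F.IsHomogeneous d := isHomogeneous_subst hf g
  set h₀ : MvPolynomial (Fin n) ℂ := ∑ β ∈ (expo n d).filter (fun β => ∑ i, r i * β i = 0),
    monomial β (F.coeff β) with hh₀
  have hcoeff : ∀ α, h₀.coeff α = if ∑ i, r i * α i = 0 then F.coeff α else 0 := by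
    intro α
    rw [hh₀, coeff_sum]
    simp only [coeff_monomial]
    rw [Finset.sum_ite_eq']
    by_cases hα : F.coeff α = 0
    · simp [hα]
    · have h1 : α ∈ expo n d := mem_expo.mpr (sum_of_homogeneous hFhom hα)
      simp [Finset.mem_filter, h1]
  -- the limit lies in the orbit
  have hmem : coeffs h₀ ∈ orbit f := by
    have hseq := hclosed.isSeqClosed
    refine hseq (x := fun m : ℕ => coeffs (subst (g * ediag (fun i => -(m : ℝ) * r i)) f)) ?_ ?_
    · intro m
      refine ⟨_, ?_, rfl⟩
      rw [Matrix.det_mul, hg, one_mul, det_ediag_of_sum]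
      rw [← Finset.mul_sum, hr, mul_zero]
    · rw [tendsto_pi_nhds]
      intro α
      simp only [coeffs, ← subst_subst, coeff_subst_ediag, ← hF, hcoeff]
      have h2 : ∀ m : ℕ, Real.exp (∑ i, -(m : ℝ) * r i * α i) =
          Real.exp (-((m : ℝ) * ∑ i, r i * α i)) := by
        intro m
        congr 1
        rw [Finset.mul_sum, ← Finset.sum_neg_distrib]
        refine Finset.sum_congr rfl fun i _ => by ring
      simp only [h2]
      by_cases hα : F.coeff α = 0
      · simp only [hα, mul_zero, ite_self]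
        exact tendsto_const_nhds
      · have hnn := h α (mem_support_iff.mpr hα)
        rcases hnn.eq_or_lt with h0 | hpos
        · rw [← h0]
          simp
        · rw [if_neg hpos.ne']
          have h1 : Tendsto (fun m : ℕ => Real.exp (-((m : ℝ) * ∑ i, r i * α i))) atTop (𝓝 0) := by
            apply Real.tendsto_exp_neg_atTop_nhds_zero.comp
            exact tendsto_natCast_atTop_atTop.atTop_mul_const hpos
          have h3 : Tendsto (fun m : ℕ =>
              ((Real.exp (-((m : ℝ) * ∑ i, r i * α i)) : ℝ) : ℂ) * F.coeff α) atTop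
              (𝓝 (((0 : ℝ) : ℂ) * F.coeff α)) :=
            ((Complex.continuous_ofReal.tendsto 0).comp h1).mul_const _
          simpa using h3
  obtain ⟨g', hg', hg'h⟩ := hmem
  have hh : h₀ = subst g' f := by
    ext α
    exact congrFun hg'h α
  have hu : IsUnit g'.det := by rw [hg']; exact isUnit_one
  have hinv1 : g' * g'⁻¹ = 1 := Matrix.mul_nonsing_inv g' hu
  have hinv2 : g'⁻¹ * g' = 1 := Matrix.nonsing_inv_mul g' hu
  have hfix : ∀ s : ℝ, subst (ediag (fun i => s * r i)) h₀ = h₀ := by
    intro s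
    ext α
    rw [coeff_subst_ediag, hcoeff]
    split_ifs with h1
    · have h2 : ∑ i, s * r i * α i = s * ∑ i, r i * α i := by
        rw [Finset.mul_sum]
        refine Finset.sum_congr rfl fun i _ => by ring
      rw [h2, h1, mul_zero, Real.exp_zero, Complex.ofReal_one, one_mul]
    · rw [mul_zero]
  set γ : ℝ → Matrix (Fin n) (Fin n) ℂ := fun s => g' * ediag (fun i => s * r i) * g'⁻¹ with hγ
  have hγmem : ∀ s, γ s ∈ stab f := by
    intro s
    refine ⟨?_, ?_⟩
    · rw [hγ, Matrix.det_mul, Matrix.det_mul, det_ediag_of_sum (by rw [← Finset.mul_sum, hr,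
        mul_zero]), mul_one, ← Matrix.det_mul, hinv1, Matrix.det_one]
    · rw [hγ, ← subst_subst, ← subst_subst, ← hh, hfix, hh, subst_subst, hinv1, subst_one]
  have hγinj : Function.Injective γ := by
    intro s s' hss
    have h1 : ediag (fun i => s * r i) = ediag (fun i => s' * r i) := by
      have h2 : g'⁻¹ * γ s * g' = g'⁻¹ * γ s' * g' := by rw [hss]
      have h3 : ∀ s, g'⁻¹ * γ s * g' = ediag (fun i => s * r i) := by
        intro s
        calc g'⁻¹ * (g' * ediag (fun i => s * r i) * g'⁻¹) * g'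
            = (g'⁻¹ * g') * ediag (fun i => s * r i) * (g'⁻¹ * g') := by
              simp only [Matrix.mul_assoc]
          _ = ediag (fun i => s * r i) := by rw [hinv2, Matrix.one_mul, Matrix.mul_one]
      rw [h3, h3] at h2
      exact h2
    obtain ⟨i, hi⟩ : ∃ i, r i ≠ 0 := by
      by_contra hcon
      push Not at hcon
      exact hr0 (funext hcon)
    have h2 := congrFun (congrFun h1 i) i
    simp only [ediag, Matrix.diagonal_apply_eq] at h2
    have h3 : Real.exp (s * r i) = Real.exp (s' * r i) := Complex.ofReal_injective h2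
    exact mul_right_cancel₀ hi (Real.exp_injective h3)
  exact Set.infinite_of_injective_forall_mem hγinj hγmem hfin

/-! ### Permutations and scalings of the coordinates -/

/-- The permutation matrix with `subst = rename σ`. -/
def permMat (σ : Equiv.Perm (Fin n)) : Matrix (Fin n) (Fin n) ℂ :=
  Matrix.of fun i j => if σ i = j then 1 else 0

lemma subst_permMat (σ : Equiv.Perm (Fin n)) (f : MvPolynomial (Fin n) ℂ) :
    subst (permMat σ) f = rename σ f := by
  have h : subst (permMat σ) = rename σ := by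
    apply MvPolynomial.algHom_ext
    intro i
    rw [subst_X, rename_X, Finset.sum_eq_single (σ i)]
    · simp [permMat]
    · intro j _ hj
      simp [permMat, hj.symm]
    · simp
  rw [h]

lemma det_permMat_ne_zero (σ : Equiv.Perm (Fin n)) : (permMat σ).det ≠ 0 := by
  have h1 : permMat σ * permMat σ⁻¹ = 1 := by
    ext i j
    rw [Matrix.mul_apply, Finset.sum_eq_single (σ i)]
    · simp [permMat, Matrix.one_apply]
    · intro k _ hk
      simp [permMat, hk.symm]
    · simp
  intro h0
  have h2 := congrArg Matrix.det h1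
  rw [Matrix.det_mul, h0, zero_mul, Matrix.det_one] at h2
  exact zero_ne_one h2

/-- Passing from `GL_n` to `SL_n`. -/
lemma exists_det_one {f : MvPolynomial (Fin n) ℂ} {d : ℕ} (hf : f.IsHomogeneous d) (hn : 0 < n)
    {g : Matrix (Fin n) (Fin n) ℂ} (hg : g.det ≠ 0) :
    ∃ g' : Matrix (Fin n) (Fin n) ℂ, g'.det = 1 ∧ (subst g' f).support = (subst g f).support := by
  obtain ⟨c, hc⟩ := IsAlgClosed.exists_pow_nat_eq (g.det)⁻¹ hn
  have hc0 : c ≠ 0 := by
    intro h0
    rw [h0, zero_pow (by omega)] at hc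
    exact (inv_ne_zero hg) hc.symm
  refine ⟨g * (c • (1 : Matrix (Fin n) (Fin n) ℂ)), ?_, ?_⟩
  · rw [Matrix.det_mul, Matrix.det_smul, Matrix.det_one, mul_one, Fintype.card_fin, hc,
      mul_inv_cancel₀ hg]
  · rw [← subst_subst, subst_smul_one c (isHomogeneous_subst hf g)]
    ext α
    rw [mem_support_iff, mem_support_iff, coeff_C_mul]
    constructor
    · intro h h0
      exact h (by rw [h0, mul_zero])
    · intro h
      exact mul_ne_zero (pow_ne_zero _ hc0) h

lemma det_ne_zero_of_unitary {k : Matrix (Fin n) (Fin n) ℂ}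
    (hk : k ∈ Matrix.unitaryGroup (Fin n) ℂ) : k.det ≠ 0 := by
  intro h0
  have := norm_det_unitary hk
  rw [h0, norm_zero] at this
  exact zero_ne_one this

/-- Sorting the weights. -/
lemma exists_sorted (g : Matrix (Fin n) (Fin n) ℂ) (hg : g.det ≠ 0) (f : MvPolynomial (Fin n) ℂ)
    (r : Fin n → ℝ) (hr : ∑ i, r i = 0) :
    ∃ (g' : Matrix (Fin n) (Fin n) ℂ) (r' : Fin n → ℝ), g'.det ≠ 0 ∧ Antitone r' ∧
      ∑ i, r' i = 0 ∧ (r ≠ 0 → r' ≠ 0) ∧
      ∀ α' ∈ (subst g' f).support, ∃ α ∈ (subst g f).support,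
        ∑ i, r i * α i = ∑ i, r' i * α' i := by
  set τ : Equiv.Perm (Fin n) := Tuple.sort (fun i => - r i) with hτ
  have hmono : Monotone ((fun i => - r i) ∘ τ) := Tuple.monotone_sort _
  refine ⟨g * permMat τ⁻¹, r ∘ τ, ?_, ?_, ?_, ?_, ?_⟩
  · rw [Matrix.det_mul]
    exact mul_ne_zero hg (det_permMat_ne_zero _)
  · intro i j hij
    have := hmono hij
    simp only [Function.comp_apply] at this ⊢
    linarith
  · have h1 : ∑ i, (r ∘ τ) i = ∑ i, r i := Equiv.sum_comp τ r
    rw [h1, hr]
  · intro hr0 h0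
    apply hr0
    funext i
    have := congrFun h0 (τ.symm i)
    simpa using this
  · intro α' hα'
    rw [← subst_subst, subst_permMat, mem_support_iff] at hα'
    obtain ⟨α, hα, hα0⟩ := coeff_rename_ne_zero _ _ _ hα'
    refine ⟨α, mem_support_iff.mpr hα0, ?_⟩
    rw [← hα]
    have h1 : ∀ i, (Finsupp.mapDomain (⇑τ⁻¹) α) i = α (τ i) := by
      intro i
      have h2 : i = τ⁻¹ (τ i) := by simp
      conv_lhs => rw [h2]
      exact Finsupp.mapDomain_apply τ⁻¹.injective α (τ i)
    simp only [h1, Function.comp_apply]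
    exact (Equiv.sum_comp τ (fun i => r i * (α i : ℝ))).symm

/-- **Hilbert-Mumford criterion**, semistability, sorted weights. -/
theorem not_isSemistable_iff {f : MvPolynomial (Fin n) ℂ} {d : ℕ} (hf : f.IsHomogeneous d)
    (hn : 0 < n) : ¬ IsSemistable f ↔
    ∃ (g : Matrix (Fin n) (Fin n) ℂ) (r : Fin n → ℝ), g.det ≠ 0 ∧ Antitone r ∧ ∑ i, r i = 0 ∧
      ∀ α ∈ (subst g f).support, 0 < ∑ i, r i * α i := by
  constructor
  · intro hns
    by_contra hcon
    push Not at hcon
    apply hns
    apply isSemistable_of_num hf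
    intro k hk r hr
    obtain ⟨g', r', hg', hanti, hr', -, hsub⟩ := exists_sorted k (det_ne_zero_of_unitary hk) f r hr
    obtain ⟨α', hα', hle⟩ := hcon g' r' hg' hanti hr'
    obtain ⟨α, hα, heq⟩ := hsub α' hα'
    exact ⟨α, mem_support_iff.mp hα, by rw [heq]; exact hle⟩
  · rintro ⟨g, r, hg, -, hr, h⟩
    obtain ⟨g', hg', hsupp⟩ := exists_det_one hf hn hg
    exact not_isSemistable_of hg' hr (by rw [hsupp]; exact h)

/-- **Hilbert-Mumford criterion**, stability, sorted weights. -/
theorem not_isStable_iff {f : MvPolynomial (Fin n) ℂ} {d : ℕ} (hf : f.IsHomogeneous d)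
    (hn : 1 < n) : ¬ IsStable f ↔
    ∃ (g : Matrix (Fin n) (Fin n) ℂ) (r : Fin n → ℝ), g.det ≠ 0 ∧ Antitone r ∧ ∑ i, r i = 0 ∧
      r ≠ 0 ∧ ∀ α ∈ (subst g f).support, 0 ≤ ∑ i, r i * α i := by
  constructor
  · intro hns
    by_contra hcon
    push Not at hcon
    apply hns
    have hnum : ∀ k ∈ Matrix.unitaryGroup (Fin n) ℂ, ∀ r : Fin n → ℝ, ∑ i, r i = 0 → r ≠ 0 →
        ∃ α, (subst k f).coeff α ≠ 0 ∧ ∑ i, r i * α i < 0 := by
      intro k hk r hr hr0
      obtain ⟨g', r', hg', hanti, hr', hr0', hsub⟩ :=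
        exists_sorted k (det_ne_zero_of_unitary hk) f r hr
      obtain ⟨α', hα', hlt⟩ := hcon g' r' hg' hanti hr' (hr0' hr0)
      obtain ⟨α, hα, heq⟩ := hsub α' hα'
      exact ⟨α, mem_support_iff.mp hα, by rw [heq]; exact hlt⟩
    refine ⟨?_, isClosed_orbit hf hnum, finite_stab hf hnum⟩
    apply isSemistable_of_num hf
    intro k hk r hr
    by_cases hr0 : r = 0
    · -- use any nonzero direction to see that `f` is nonzero
      set r₁ : Fin n → ℝ := fun i => if i = ⟨0, by omega⟩ then 1
        else if i = ⟨1, by omega⟩ then -1 else 0 with hr₁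
      have hne : (⟨0, by omega⟩ : Fin n) ≠ ⟨1, by omega⟩ := by simp [Fin.ext_iff]
      have hs : ∑ i, r₁ i = 0 := by
        rw [hr₁]
        have : ∀ i : Fin n, (if i = ⟨0, by omega⟩ then (1 : ℝ)
            else if i = ⟨1, by omega⟩ then -1 else 0) =
            (if i = ⟨0, by omega⟩ then (1 : ℝ) else 0) + (if i = ⟨1, by omega⟩ then (-1 : ℝ) else 0) := by
          intro i
          by_cases h0 : i = ⟨0, by omega⟩
          · subst h0
            rw [if_pos rfl, if_pos rfl, if_neg hne, add_zero]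
          · rw [if_neg h0, if_neg h0, zero_add]
        simp only [this, Finset.sum_add_distrib, Finset.sum_ite_eq', Finset.mem_univ, if_true]
        norm_num
      have hn0 : r₁ ≠ 0 := by
        intro h0
        have := congrFun h0 ⟨0, by omega⟩
        simp [hr₁] at this
      obtain ⟨α, hα, _⟩ := hnum k hk r₁ hs hn0
      exact ⟨α, hα, by simp [hr0]⟩
    · obtain ⟨α, hα, hlt⟩ := hnum k hk r hr hr0
      exact ⟨α, hα, hlt.le⟩
  · rintro ⟨g, r, hg, -, hr, hr0, h⟩
    obtain ⟨g', hg', hsupp⟩ := exists_det_one hf (by omega) hg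
    exact not_isStable_of hf hg' hr hr0 (by rw [hsupp]; exact h)

end Pool.Agent.Lib.MP_965dfe_ag
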