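import Mathlib

/-!
The lists of weights.
-/

namespace Pool.Agent.Lib.MP_965dfe_ag

/-- A weight for four variables. -/
def wt4 (a b c d : ℤ) : Fin 4 → ℤ := ![a, b, c, d]

/-- A weight for five variables. -/
def wt5 (a b c d e : ℤ) : Fin 5 → ℤ := ![a, b, c, d, e]

/-- The weights of the non-stable quintic surfaces. -/
def nonstable45 : List (Fin 4 → ℤ) :=
  [wt4 1 0 0 (-1), wt4 2 1 (-1) (-2), wt4 1 1 1 (-3), wt4 2 1 0 (-3), wt4 2 2 (-1) (-3),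
    wt4 3 0 (-1) (-2), wt4 3 1 (-2) (-2), wt4 4 2 (-1) (-5), wt4 5 1 (-2) (-4),
    wt4 8 (-1) (-2) (-5)]

/-- The weights of the unstable quintic surfaces. -/
def unstable45 : List (Fin 4 → ℤ) :=
  [wt4 1 1 1 (-3), wt4 5 1 (-3) (-3), wt4 5 1 1 (-7), wt4 5 5 (-3) (-7), wt4 9 5 (-3) (-11),
    wt4 9 5 (-1) (-13), wt4 13 1 (-3) (-11), wt4 13 5 (-7) (-11), wt4 13 5 (-3) (-15),
    wt4 13 5 1 (-19), wt4 29 (-3) (-7) (-19)]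

/-- The weights of the non-stable quartic threefolds. -/
def nonstable54 : List (Fin 5 → ℤ) :=
  [wt5 1 0 0 0 (-1), wt5 1 1 0 (-1) (-1), wt5 1 1 0 0 (-2), wt5 2 0 0 (-1) (-1),
    wt5 2 1 0 (-1) (-2), wt5 1 1 1 0 (-3), wt5 2 1 1 (-1) (-3), wt5 3 0 (-1) (-1) (-1),
    wt5 3 1 (-1) (-1) (-2), wt5 3 1 0 (-1) (-3), wt5 3 1 1 (-2) (-3), wt5 3 2 (-1) (-1) (-3),
    wt5 3 2 1 (-1) (-5), wt5 5 1 (-1) (-2) (-3), wt5 5 3 2 (-1) (-9), wt5 9 1 (-2) (-3) (-5)]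

/-- The weights of the unstable quartic threefolds. -/
def unstable54 : List (Fin 5 → ℤ) :=
  [wt5 4 (-1) (-1) (-1) (-1), wt5 4 4 (-1) (-1) (-6), wt5 6 2 2 (-5) (-5),
    wt5 7 7 (-2) (-6) (-6), wt5 9 4 (-1) (-6) (-6), wt5 4 4 4 (-1) (-11), wt5 9 4 4 (-6) (-11),
    wt5 11 7 (-2) (-6) (-10), wt5 7 5 1 1 (-14), wt5 14 4 (-1) (-6) (-11), wt5 9 4 4 (-1) (-16),
    wt5 16 2 2 (-5) (-15), wt5 19 4 (-6) (-6) (-11), wt5 19 4 (-1) (-6) (-16),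
    wt5 19 7 (-2) (-6) (-18), wt5 14 9 4 (-6) (-21), wt5 21 8 5 (-14) (-20),
    wt5 14 8 5 (-4) (-23), wt5 24 8 5 (-14) (-23), wt5 14 9 4 (-1) (-26), wt5 16 13 2 (-4) (-27),
    wt5 29 4 (-6) (-11) (-16), wt5 49 4 (-11) (-16) (-26)]

/-- The weights of the non-stable quintic threefolds, part 1. -/
def nonstable55_1 : List (Fin 5 → ℤ) :=
  [wt5 1 0 0 0 (-1), wt5 2 1 0 (-1) (-2), wt5 2 1 0 0 (-3), wt5 2 2 2 (-3) (-3),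
    wt5 3 0 0 (-1) (-2), wt5 3 2 0 (-2) (-3), wt5 3 3 (-2) (-2) (-2), wt5 1 1 1 1 (-4),
    wt5 3 2 1 (-2) (-4), wt5 4 (-1) (-1) (-1) (-1), wt5 4 1 0 (-1) (-4), wt5 4 2 (-1) (-2) (-3),
    wt5 4 2 0 (-1) (-5), wt5 5 1 0 (-2) (-4), wt5 4 4 (-1) (-1) (-6), wt5 6 1 1 (-4) (-4),
    wt5 7 2 2 (-3) (-8), wt5 8 3 (-2) (-2) (-7), wt5 6 6 1 (-4) (-9), wt5 9 4 (-1) (-6) (-6),
    wt5 8 3 3 (-2) (-12), wt5 12 2 (-3) (-3) (-8), wt5 12 7 2 (-8) (-13),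
    wt5 13 8 (-2) (-7) (-12), wt5 11 6 1 (-4) (-14), wt5 14 4 (-1) (-6) (-11),
    wt5 12 7 2 (-3) (-18), wt5 18 3 (-2) (-7) (-12), wt5 16 6 1 (-4) (-19),
    wt5 19 4 (-1) (-6) (-16)]

/-- The weights of the non-stable quintic threefolds, part 2. -/
def nonstable55_2 : List (Fin 5 → ℤ) :=
  [wt5 14 9 4 (-6) (-21), wt5 21 6 (-4) (-9) (-14), wt5 16 11 6 (-9) (-24),
    wt5 24 9 (-6) (-11) (-16), wt5 18 8 3 (-2) (-27), wt5 27 2 (-3) (-8) (-18),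
    wt5 24 9 4 (-1) (-36), wt5 36 1 (-4) (-9) (-24)]

/-- The weights of the non-stable quintic threefolds. -/
def nonstable55 : List (Fin 5 → ℤ) :=
  nonstable55_1 ++ nonstable55_2

/-- The weights of the unstable quintic threefolds, part 1. -/
def unstable55_1 : List (Fin 5 → ℤ) :=
  [wt5 8 7 3 (-8) (-10), wt5 9 7 3 (-9) (-10), wt5 11 5 (-4) (-5) (-7), wt5 12 4 (-2) (-5) (-9),
    wt5 7 5 2 1 (-15), wt5 11 5 2 (-2) (-16), wt5 11 7 2 (-4) (-16), wt5 11 8 3 (-6) (-16),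
    wt5 15 10 (-2) (-6) (-17), wt5 17 8 (-4) (-10) (-11), wt5 13 11 1 (-7) (-18),
    wt5 14 9 2 (-7) (-18), wt5 16 7 5 (-10) (-18), wt5 13 7 3 (-4) (-19), wt5 17 6 2 (-6) (-19),
    wt5 20 2 (-2) (-7) (-13), wt5 10 6 4 1 (-21), wt5 21 4 1 (-11) (-15),
    wt5 21 5 (-3) (-5) (-18), wt5 23 5 1 (-14) (-15), wt5 17 4 3 1 (-25),
    wt5 18 17 1 (-11) (-25), wt5 24 8 3 (-10) (-25), wt5 25 2 (-5) (-6) (-16),
    wt5 26 8 (-6) (-11) (-17), wt5 10 9 7 1 (-27), wt5 23 16 3 (-15) (-27),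
    wt5 29 4 1 (-15) (-19), wt5 29 11 1 (-16) (-25), wt5 24 13 1 (-8) (-30)]

/-- The weights of the unstable quintic threefolds, part 2. -/
def unstable55_2 : List (Fin 5 → ℤ) :=
  [wt5 29 8 3 (-10) (-30), wt5 23 9 4 (-2) (-34), wt5 30 9 2 (-7) (-34),
    wt5 27 21 10 (-23) (-35), wt5 37 3 1 (-9) (-32), wt5 38 21 3 (-25) (-37),
    wt5 33 13 1 (-8) (-39), wt5 29 11 2 1 (-43), wt5 34 23 7 (-21) (-43),
    wt5 43 27 (-5) (-27) (-38), wt5 45 23 (-15) (-21) (-32), wt5 40 19 13 (-25) (-47),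
    wt5 53 21 (-12) (-23) (-39), wt5 45 23 (-4) (-10) (-54), wt5 53 37 (-12) (-23) (-55),
    wt5 56 12 (-10) (-21) (-37), wt5 57 35 (-13) (-29) (-50), wt5 41 20 15 (-17) (-59),
    wt5 60 29 (-7) (-28) (-54), wt5 65 1 (-7) (-16) (-43), wt5 81 17 (-4) (-31) (-63),
    wt5 61 45 24 (-39) (-91), wt5 93 17 7 (-23) (-94), wt5 97 4 (-11) (-27) (-63),
    wt5 69 33 7 (-8) (-101), wt5 117 29 (-7) (-28) (-111), wt5 81 45 4 (-11) (-119)]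

/-- The weights of the unstable quintic threefolds. -/
def unstable55 : List (Fin 5 → ℤ) :=
  unstable55_1 ++ unstable55_2

end Pool.Agent.Lib.MP_965dfe_ag
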