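import Mathlib
import Pool.Agent.Lib.MP_965dfe_ag.Weights
import Pool.Agent.Lib.MP_965dfe_ag.Check

/-!
Certificates: for each list of weights, the maximal monomials outside of the selected set, and a
tree with Farkas certificates showing that the lists cover all one-parameter subgroups.
-/

namespace Pool.Agent.Lib.MP_965dfe_ag

open Check

def nonstable45_T : List (List (List ℤ)) :=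
  [[[2, 0, 0, 3], [1, 2, 0, 2], [0, 4, 0, 1]],
   [[2, 0, 1, 2], [1, 1, 2, 1], [1, 0, 4, 0], [0, 3, 0, 2], [0, 2, 3, 0]],
   [[3, 0, 0, 2]],
   [[2, 1, 0, 2], [1, 0, 3, 1], [0, 2, 2, 1]],
   [[2, 0, 2, 1], [1, 0, 4, 0]],
   [[1, 2, 0, 2], [1, 1, 2, 1], [1, 0, 4, 0], [0, 4, 1, 0]],
   [[1, 1, 3, 0], [0, 3, 2, 0]],
   [[2, 0, 1, 2], [1, 2, 0, 2], [1, 1, 2, 1], [0, 1, 4, 0]],
   [[2, 0, 0, 3], [1, 2, 0, 2], [1, 1, 2, 1], [1, 0, 4, 0], [0, 3, 2, 0]],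
   [[1, 2, 1, 1], [0, 5, 0, 0]]]

def nonstable45_tree : Tree :=
  (.br [0, 3, 2, 0]
   (.br [1, 0, 4, 0]
    (.br [0, 1, 4, 0]
     (.br [0, 4, 0, 1]
      (.br [3, 0, 0, 2]
       (.leaf 3 [[13, 0, 2, 7, 0, 0, 2], [8, 5, 6, 0, 0, 0, 1], [2, 1, 0, 0, 0, 0, 1]])
       (.leaf 2 [[1, 1]]))
      (.leaf 0 [[3, 1, 0, 0, 4, 2], [3, 2, 0, 0, 2, 1], [1, 1]]))
     (.leaf 7 [[10, 1, 0, 7], [5, 3, 5, 1], [10, 3, 0, 1], [1, 1]]))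
    (.br [2, 0, 2, 1]
     (.br [1, 2, 0, 2]
      (.leaf 1 [[7, 0, 1, 1, 5], [7, 0, 3, 3, 1], [1, 0, 0, 1], [7, 0, 16, 2, 3], [2, 3, 4, 1]])
      (.leaf 7 [[6, 1, 0, 1, 4], [1, 1], [2, 1, 0, 1], [2, 1, 2, 3]]))
     (.leaf 4 [[1, 1], [1, 0, 1]])))
   (.br [0, 5, 0, 0]
    (.br [1, 1, 3, 0]
     (.br [0, 4, 1, 0]
      (.br [0, 4, 0, 1]
       (.leaf 8 [[1, 2, 0, 3, 0, 2], [2, 1, 0, 3, 0, 2], [10, 0, 0, 0, 3, 5], [5, 5, 3, 0, 0, 9],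
         [1, 0, 0, 0, 0, 1]])
       (.leaf 0 [[2, 1, 2, 1], [4, 3, 2, 1], [1, 1]]))
      (.br [2, 0, 0, 3]
       (.leaf 5 [[5, 0, 5, 5, 3], [5, 0, 5, 0, 4], [5, 5, 5, 0, 7], [1, 0, 1]])
       (.leaf 0 [[1, 1], [5, 5, 5, 0, 1], [5, 5, 10, 0, 2]])))
     (.leaf 6 [[1, 1], [1, 0, 0, 1]]))
    (.leaf 9 [[5, 1], [1, 1]])))

set_option maxRecDepth 100000 in
theorem nonstable45_check :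
    checkAll 4 5 false (nonstable45.map List.ofFn) nonstable45_T nonstable45_tree = true := by
  decide +kernel

def unstable45_T : List (List (List ℤ)) :=
  [[[3, 0, 0, 2]],
   [[1, 1, 3, 0], [0, 3, 2, 0]],
   [[2, 1, 0, 2], [0, 4, 0, 1]],
   [[2, 0, 2, 1], [1, 0, 4, 0]],
   [[2, 0, 1, 2], [1, 2, 0, 2], [1, 1, 2, 1], [1, 0, 4, 0]],
   [[2, 1, 0, 2], [1, 1, 2, 1], [0, 0, 5, 0]],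
   [[2, 0, 0, 3], [1, 2, 0, 2], [1, 1, 2, 1], [0, 4, 0, 1], [0, 3, 2, 0]],
   [[2, 0, 1, 2], [1, 1, 3, 0], [0, 3, 1, 1]],
   [[2, 0, 1, 2], [1, 2, 0, 2], [1, 1, 2, 1], [0, 3, 1, 1], [0, 1, 4, 0]],
   [[2, 1, 0, 2], [1, 0, 3, 1], [0, 3, 1, 1]],
   [[1, 2, 1, 1], [0, 5, 0, 0]]]

def unstable45_tree : Tree :=
  (.br [2, 0, 2, 1]
   (.br [2, 1, 0, 2]
    (.br [2, 0, 1, 2]
     (.br [1, 1, 3, 0]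
      (.br [0, 5, 0, 0]
       (.leaf 6 [[5, 2, 5], [5, 1, 5, 5], [5, 2, 0, 5], [1, 0, 1, 2], [5, 1, 0, 10]])
       (.leaf 10 [[5, 1], [1, 1]]))
      (.leaf 1 [[1, 1], [3, 0, 4, 1]]))
     (.br [1, 1, 3, 0]
      (.br [1, 0, 4, 0]
       (.leaf 8 [[1, 0, 0, 1], [3, 1, 2, 0, 2], [3, 0, 0, 1, 2], [1, 1, 0, 0, 2], [3, 0, 0, 2,
         7]])
       (.leaf 4 [[1, 0, 0, 1], [2, 0, 1, 0, 0, 1], [3, 1, 1, 0, 1], [1, 1]]))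
      (.leaf 7 [[1, 0, 1], [1, 1], [2, 1, 0, 0, 3]])))
    (.br [3, 0, 0, 2]
     (.br [0, 3, 1, 1]
      (.leaf 5 [[1, 0, 0, 1], [2, 1, 1], [2, 5, 5]])
      (.br [0, 4, 0, 1]
       (.leaf 9 [[1, 0, 0, 0, 1], [2, 2, 1, 1], [1, 0, 1]])
       (.leaf 2 [[1, 0, 0, 0, 1], [1, 1]])))
     (.leaf 0 [[1, 1]])))
   (.br [2, 1, 0, 2]
    (.leaf 3 [[1, 0, 1], [1, 1, 2, 1]])
    (.leaf 5 [[1, 1], [1, 0, 1, 1], [1, 0, 5, 5]])))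

set_option maxRecDepth 100000 in
theorem unstable45_check :
    checkAll 4 5 true (unstable45.map List.ofFn) unstable45_T unstable45_tree = true := by
  decide +kernel

def nonstable54_T : List (List (List ℤ)) :=
  [[[1, 1, 0, 0, 2], [0, 3, 0, 0, 1]],
   [[1, 0, 1, 2, 0], [0, 0, 3, 1, 0]],
   [[2, 0, 0, 0, 2], [1, 0, 2, 0, 1]],
   [[1, 0, 0, 3, 0], [0, 3, 0, 1, 0]],
   [[1, 1, 0, 0, 2], [1, 0, 1, 1, 1], [1, 0, 0, 3, 0], [0, 2, 0, 1, 1], [0, 1, 2, 0, 1], [0, 1,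
     1, 2, 0], [0, 0, 3, 1, 0]],
   [[2, 0, 0, 1, 1]],
   [[2, 0, 0, 0, 2], [1, 1, 0, 1, 1], [1, 0, 0, 3, 0]],
   [[0, 3, 1, 0, 0]],
   [[1, 0, 2, 0, 1], [0, 2, 1, 0, 1], [0, 1, 3, 0, 0]],
   [[1, 1, 0, 0, 2], [1, 0, 1, 1, 1], [0, 2, 1, 0, 1], [0, 1, 1, 2, 0], [0, 0, 3, 1, 0]],
   [[1, 1, 0, 1, 1], [1, 0, 0, 3, 0], [0, 2, 0, 2, 0]],
   [[1, 1, 0, 0, 2], [1, 0, 2, 0, 1], [0, 1, 3, 0, 0]],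
   [[2, 0, 0, 0, 2], [1, 1, 0, 1, 1], [0, 1, 2, 0, 1], [0, 1, 0, 3, 0]],
   [[1, 0, 1, 1, 1], [1, 0, 0, 3, 0], [0, 2, 1, 1, 0], [0, 1, 3, 0, 0]],
   [[2, 0, 0, 0, 2], [1, 1, 0, 1, 1], [0, 2, 1, 0, 1], [0, 0, 1, 3, 0]],
   [[1, 0, 1, 1, 1], [0, 3, 0, 0, 1], [0, 2, 2, 0, 0]]]

def nonstable54_tree : Tree :=
  (.br [2, 0, 0, 1, 1]
   (.br [1, 0, 1, 2, 0]
    (.br [2, 0, 0, 0, 2]
     (.br [0, 3, 1, 0, 0]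
      (.br [1, 1, 0, 0, 2]
       (.br [1, 0, 2, 0, 1]
        (.br [0, 2, 2, 0, 0]
         (.br [0, 3, 0, 1, 0]
          (.leaf 13 [[7, 2, 1, 0, 1, 0, 0, 0, 0, 1], [10, 0, 9, 6, 12, 0, 0, 0, 0, 2], [5, 0, 0,
            3, 7, 0, 0, 6, 0, 1], [7, 4, 0, 0, 19, 0, 0, 17, 0, 2]])
          (.leaf 3 [[2, 2, 1, 0, 2, 2], [1, 1]]))
         (.leaf 15 [[4, 1, 0, 0, 2], [2, 1, 2, 0, 0, 0, 2], [1, 1]]))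
        (.leaf 8 [[1, 1], [1, 1, 2, 0, 0, 3, 0, 0, 0, 0, 2], [2, 2, 2, 0, 1, 2]]))
       (.br [0, 3, 0, 0, 1]
        (.br [1, 1, 0, 1, 1]
         (.br [0, 2, 1, 0, 1]
          (.br [0, 1, 3, 0, 0]
           (.leaf 4 [[1, 0, 0, 0, 0, 1], [2, 0, 2, 2, 0, 2, 0, 1], [4, 2, 6, 0, 0, 2, 0, 5], [2,
             1, 0, 0, 0, 1, 0, 2, 1], [2, 0, 0, 4, 0, 2, 0, 1], [2, 0, 2, 0, 0, 2, 0, 3], [1, 0,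
             1, 3, 0, 1, 0, 1]])
           (.leaf 11 [[1, 0, 0, 0, 0, 1], [1, 1, 1, 0, 0, 1], [1, 1]]))
          (.leaf 9 [[1, 0, 0, 0, 1], [4, 1, 0, 1, 0, 1], [1, 1], [3, 1, 0, 1, 0, 0, 2, 0, 0, 0,
            0, 0, 2], [2, 2, 2, 2, 0, 0, 1]]))
         (.leaf 10 [[1, 1], [1, 3, 1, 0, 0, 1], [1, 2, 0, 0, 0, 1]]))
        (.leaf 0 [[1, 0, 1], [1, 1]])))
      (.leaf 7 [[1, 1]]))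
     (.br [1, 0, 2, 0, 1]
      (.br [0, 3, 0, 0, 1]
       (.br [0, 2, 1, 0, 1]
        (.br [0, 1, 2, 0, 1]
         (.leaf 6 [[1, 0, 0, 0, 0, 1], [4, 0, 0, 0, 2, 1], [2, 4, 4, 0, 0, 1, 0, 6]])
         (.leaf 12 [[1, 0, 0, 0, 0, 1], [4, 0, 0, 0, 2, 1], [1, 1], [1, 1, 2, 0, 2, 0, 0, 1]]))
        (.leaf 14 [[1, 0, 0, 0, 1], [4, 0, 0, 2, 1], [1, 1], [1, 1, 2, 2, 0, 0, 1]]))
       (.leaf 0 [[4, 0, 2, 5, 0, 4], [1, 1]]))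
      (.leaf 2 [[1, 0, 1], [1, 1]])))
    (.br [0, 0, 3, 1, 0]
     (.br [2, 0, 0, 0, 2]
      (.leaf 10 [[5, 0, 2, 1, 0, 1], [5, 0, 3, 9, 0, 4], [2, 1, 2, 2, 2]])
      (.leaf 6 [[1, 1], [4, 1, 2, 2, 2], [1, 1, 1, 3, 2]]))
     (.leaf 1 [[1, 0, 1], [1, 1]])))
   (.leaf 5 [[1, 1]]))

set_option maxRecDepth 100000 in
theorem nonstable54_check :
    checkAll 5 4 false (nonstable54.map List.ofFn) nonstable54_T nonstable54_tree = true := by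
  decide +kernel

def unstable54_T : List (List (List ℤ)) :=
  [[[0, 4, 0, 0, 0]],
   [[2, 0, 0, 0, 2], [1, 0, 2, 0, 1], [0, 0, 4, 0, 0]],
   [[1, 1, 0, 2, 0]],
   [[1, 0, 2, 1, 0], [0, 0, 4, 0, 0]],
   [[1, 0, 1, 2, 0], [0, 2, 0, 2, 0], [0, 1, 2, 1, 0], [0, 0, 4, 0, 0]],
   [[2, 0, 0, 1, 1], [0, 0, 0, 4, 0]],
   [[2, 0, 0, 0, 2], [1, 1, 0, 1, 1], [1, 0, 0, 3, 0], [0, 2, 0, 2, 0]],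
   [[1, 1, 0, 0, 2], [1, 0, 2, 0, 1], [1, 0, 1, 2, 0], [0, 2, 0, 1, 1], [0, 1, 2, 1, 0], [0, 0,
     4, 0, 0]],
   [[2, 0, 0, 0, 2], [1, 1, 1, 0, 1]],
   [[1, 1, 0, 0, 2], [1, 0, 1, 1, 1], [1, 0, 0, 3, 0], [0, 2, 1, 0, 1], [0, 2, 0, 2, 0], [0, 1,
     2, 1, 0], [0, 0, 4, 0, 0]],
   [[2, 0, 0, 0, 2], [1, 1, 0, 1, 1], [0, 3, 0, 0, 1], [0, 0, 0, 4, 0]],
   [[1, 1, 0, 1, 1], [0, 3, 0, 0, 1], [0, 2, 0, 2, 0]],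
   [[1, 0, 2, 0, 1], [0, 2, 2, 0, 0]],
   [[1, 1, 0, 0, 2], [1, 0, 1, 1, 1], [0, 3, 0, 0, 1], [0, 2, 0, 2, 0], [0, 1, 2, 1, 0], [0, 0,
     4, 0, 0]],
   [[1, 1, 0, 0, 2], [1, 0, 2, 0, 1], [0, 2, 1, 0, 1], [0, 1, 2, 1, 0], [0, 0, 4, 0, 0]],
   [[2, 0, 0, 0, 2], [1, 1, 0, 1, 1], [1, 0, 0, 3, 0], [0, 1, 2, 0, 1], [0, 0, 2, 2, 0]],
   [[1, 1, 0, 1, 1], [1, 0, 1, 2, 0], [0, 2, 0, 2, 0], [0, 1, 2, 0, 1]],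
   [[2, 0, 0, 0, 2], [1, 1, 0, 1, 1], [0, 2, 1, 0, 1], [0, 1, 0, 3, 0]],
   [[1, 1, 0, 1, 1], [1, 0, 0, 3, 0], [0, 2, 1, 0, 1], [0, 2, 0, 2, 0]],
   [[2, 0, 0, 0, 2], [1, 1, 0, 1, 1], [1, 0, 2, 0, 1], [0, 2, 1, 0, 1], [0, 0, 0, 4, 0]],
   [[2, 0, 0, 0, 2], [1, 1, 0, 1, 1], [1, 0, 2, 0, 1], [0, 0, 2, 2, 0]],
   [[1, 0, 1, 1, 1], [1, 0, 0, 3, 0], [0, 3, 0, 0, 1], [0, 2, 2, 0, 0]],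
   [[1, 0, 1, 1, 1], [0, 3, 0, 1, 0], [0, 2, 2, 0, 0]]]

def unstable54_tree : Tree :=
  (.br [0, 0, 4, 0, 0]
   (.br [0, 2, 1, 0, 1]
    (.br [2, 0, 0, 1, 1]
     (.br [2, 0, 0, 0, 2]
      (.br [1, 1, 0, 2, 0]
       (.leaf 16 [[4, 0, 0, 0, 0, 1], [2, 0, 1, 0, 2], [2, 0, 2, 0, 0, 1], [2, 2, 1]])
       (.leaf 2 [[1, 1]]))
      (.br [0, 2, 0, 2, 0]
       (.br [1, 0, 2, 0, 1]
        (.leaf 15 [[1, 2, 2], [2, 2, 1], [1, 1, 0, 0, 1, 2], [2, 0, 1, 0, 2], [1, 0, 0, 0, 2, 2]])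
        (.leaf 20 [[1, 0, 0, 1], [4, 0, 0, 0, 0, 0, 1], [1, 1], [1, 0, 0, 0, 2, 2]]))
       (.leaf 6 [[1, 0, 1], [2, 1, 1], [2, 2, 1, 2, 4], [1, 1]])))
     (.leaf 5 [[1, 1], [1, 0, 4, 0, 4]]))
    (.br [2, 0, 0, 0, 2]
     (.br [0, 3, 0, 0, 1]
      (.leaf 18 [[4, 0, 0, 0, 1], [4, 4, 4, 0, 3], [1, 0, 0, 1], [2, 0, 2, 0, 1]])
      (.leaf 11 [[4, 0, 0, 0, 1], [1, 1], [2, 0, 2, 0, 1]]))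
     (.br [1, 0, 2, 0, 1]
      (.br [0, 3, 0, 0, 1]
       (.br [2, 0, 0, 1, 1]
        (.leaf 17 [[1, 0, 0, 0, 1], [4, 0, 0, 2, 1], [1, 0, 0, 0, 0, 1], [1, 1, 1, 2]])
        (.leaf 5 [[1, 1], [1, 0, 4, 4, 0, 4]]))
       (.leaf 10 [[1, 0, 0, 1], [4, 0, 2, 1], [1, 1], [1, 0, 4, 0, 0, 0, 0, 4]]))
      (.br [0, 0, 0, 4, 0]
       (.leaf 8 [[1, 0, 0, 1], [4, 1]])
       (.leaf 19 [[1, 0, 0, 1], [4, 0, 0, 0, 0, 1], [1, 0, 1], [1, 0, 0, 0, 1], [1, 1]])))))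
   (.br [1, 0, 1, 2, 0]
    (.br [1, 0, 2, 0, 1]
     (.br [0, 4, 0, 0, 0]
      (.br [1, 0, 0, 3, 0]
       (.br [1, 1, 0, 0, 2]
        (.leaf 22 [[4, 0, 0, 1], [1, 1, 1, 0, 2], [2, 4, 4, 1, 4]])
        (.leaf 13 [[1, 1], [4, 0, 0, 1], [4, 0, 4, 0, 8, 0, 1], [2, 0, 0, 0, 4, 0, 1], [4, 0, 0,
          0, 4, 0, 3], [1, 0, 0, 0, 0, 0, 1]]))
       (.br [0, 2, 2, 0, 0]
        (.leaf 9 [[2, 1, 0, 0, 0, 2], [4, 0, 0, 1], [1, 0, 1], [2, 0, 0, 0, 2, 2, 1], [2, 0, 0,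
          0, 4, 0, 1], [4, 0, 0, 0, 4, 0, 3], [1, 0, 0, 0, 0, 0, 1]])
        (.leaf 21 [[4, 0, 0, 1], [1, 0, 1], [2, 1, 0, 0, 2, 2], [1, 1]])))
      (.leaf 0 [[1, 1]]))
     (.br [2, 0, 0, 0, 2]
      (.br [0, 2, 2, 0, 0]
       (.leaf 14 [[2, 1, 0, 0, 2], [1, 0, 0, 1], [2, 0, 1, 0, 2], [4, 0, 3, 2], [1, 0, 1, 2]])
       (.leaf 12 [[1, 0, 0, 1], [1, 1]]))
      (.leaf 1 [[1, 1], [1, 0, 1], [1, 0, 0, 0, 1]])))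
    (.br [1, 0, 2, 1, 0]
     (.br [0, 2, 0, 2, 0]
      (.br [2, 0, 0, 0, 2]
       (.leaf 7 [[2, 0, 1, 2], [2, 1, 2], [1, 0, 0, 0, 1], [2, 1, 0, 2], [2, 2, 1], [1, 2, 2]])
       (.leaf 1 [[1, 1], [4, 0, 2, 0, 0, 1], [1, 0, 0, 0, 0, 1]]))
      (.leaf 4 [[1, 0, 0, 1], [1, 1], [2, 1, 0, 0, 1], [1, 0, 0, 0, 1]]))
     (.leaf 3 [[1, 1], [1, 0, 0, 1]]))))

set_option maxRecDepth 100000 in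
theorem unstable54_check :
    checkAll 5 4 true (unstable54.map List.ofFn) unstable54_T unstable54_tree = true := by
  decide +kernel

def nonstable55_T : List (List (List ℤ)) :=
  [[[2, 0, 0, 0, 3], [1, 2, 0, 0, 2], [0, 4, 0, 0, 1]],
   [[2, 0, 0, 1, 2], [1, 1, 1, 0, 2], [1, 1, 0, 2, 1], [1, 0, 2, 1, 1], [1, 0, 1, 3, 0], [0, 3,
     0, 0, 2], [0, 2, 1, 1, 1], [0, 2, 0, 3, 0], [0, 1, 3, 0, 1], [0, 1, 2, 2, 0], [0, 0, 4, 1,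
     0]],
   [[2, 1, 0, 0, 2], [1, 0, 3, 0, 1], [0, 2, 2, 0, 1]],
   [[2, 0, 0, 3, 0]],
   [[1, 2, 0, 0, 2], [1, 1, 0, 2, 1], [1, 0, 0, 4, 0], [0, 4, 0, 1, 0]],
   [[2, 0, 0, 2, 1], [1, 1, 1, 0, 2], [1, 1, 0, 3, 0], [1, 0, 2, 2, 0], [0, 2, 1, 1, 1], [0, 1,
     3, 0, 1], [0, 0, 4, 1, 0]],
   [[1, 0, 4, 0, 0]],
   [[3, 0, 0, 0, 2]],
   [[2, 0, 1, 0, 2], [2, 0, 0, 2, 1], [1, 2, 0, 0, 2], [1, 1, 0, 3, 0], [1, 0, 2, 1, 1], [0, 2,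
     1, 1, 1], [0, 0, 3, 2, 0]],
   [[0, 5, 0, 0, 0]],
   [[2, 0, 0, 1, 2], [1, 2, 0, 0, 2], [1, 1, 0, 2, 1], [1, 0, 2, 1, 1], [0, 3, 1, 0, 1], [0, 2,
     0, 3, 0], [0, 1, 2, 2, 0], [0, 0, 4, 1, 0]],
   [[2, 0, 0, 0, 3], [1, 1, 1, 0, 2], [1, 1, 0, 2, 1], [1, 0, 3, 1, 0], [0, 2, 2, 0, 1], [0, 2,
     1, 2, 0], [0, 1, 4, 0, 0]],
   [[2, 0, 1, 0, 2], [1, 2, 0, 0, 2], [1, 1, 0, 2, 1], [1, 0, 3, 0, 1], [0, 2, 2, 0, 1], [0, 1,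
     1, 3, 0], [0, 0, 4, 1, 0]],
   [[2, 0, 0, 0, 3], [1, 2, 0, 0, 2], [1, 1, 0, 2, 1], [1, 0, 2, 1, 1], [1, 0, 1, 3, 0], [0, 3,
     1, 0, 1], [0, 3, 0, 2, 0], [0, 1, 3, 1, 0]],
   [[2, 0, 1, 0, 2], [1, 0, 3, 0, 1], [0, 0, 5, 0, 0]],
   [[1, 1, 0, 3, 0], [0, 3, 0, 2, 0]],
   [[2, 0, 0, 1, 2], [1, 2, 0, 0, 2], [1, 1, 0, 2, 1], [1, 0, 0, 4, 0], [0, 3, 0, 1, 1], [0, 2,
     0, 3, 0]],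
   [[2, 0, 0, 0, 3], [1, 1, 1, 0, 2], [1, 0, 3, 0, 1], [0, 3, 0, 0, 2], [0, 2, 2, 0, 1], [0, 1,
     4, 0, 0]],
   [[2, 0, 1, 0, 2], [2, 0, 0, 2, 1], [1, 0, 2, 1, 1], [1, 0, 1, 3, 0], [0, 0, 4, 0, 1], [0, 0,
     3, 2, 0]],
   [[1, 1, 0, 3, 0], [1, 0, 2, 2, 0], [0, 2, 1, 2, 0], [0, 1, 3, 1, 0], [0, 0, 5, 0, 0]],
   [[2, 1, 0, 0, 2], [1, 1, 0, 2, 1], [0, 3, 0, 1, 1], [0, 1, 0, 4, 0]],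
   [[1, 1, 1, 0, 2], [1, 0, 3, 0, 1], [0, 3, 1, 0, 1], [0, 2, 3, 0, 0]],
   [[2, 0, 0, 2, 1], [1, 1, 1, 0, 2], [1, 1, 0, 3, 0], [1, 0, 2, 1, 1], [0, 3, 0, 0, 2], [0, 2,
     1, 1, 1], [0, 1, 2, 2, 0], [0, 0, 4, 0, 1]],
   [[2, 0, 0, 1, 2], [1, 1, 1, 0, 2], [1, 1, 0, 2, 1], [1, 0, 3, 0, 1], [1, 0, 2, 2, 0], [0, 2,
     1, 1, 1], [0, 2, 0, 3, 0], [0, 1, 3, 1, 0], [0, 0, 5, 0, 0]],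
   [[2, 0, 1, 0, 2], [1, 2, 0, 0, 2], [1, 1, 0, 2, 1], [1, 0, 2, 1, 1], [1, 0, 0, 4, 0], [0, 2,
     1, 1, 1], [0, 1, 3, 0, 1], [0, 1, 1, 3, 0], [0, 0, 3, 2, 0]],
   [[2, 0, 0, 0, 3], [1, 1, 1, 0, 2], [1, 1, 0, 2, 1], [1, 0, 2, 1, 1], [1, 0, 1, 3, 0], [0, 3,
     0, 1, 1], [0, 2, 2, 0, 1], [0, 2, 1, 2, 0], [0, 1, 3, 1, 0], [0, 0, 5, 0, 0]],
   [[2, 1, 0, 0, 2], [1, 1, 0, 2, 1], [1, 0, 2, 1, 1], [0, 2, 1, 1, 1], [0, 1, 3, 0, 1], [0, 1,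
     0, 4, 0], [0, 0, 2, 3, 0]],
   [[1, 1, 1, 0, 2], [1, 1, 0, 2, 1], [1, 0, 2, 1, 1], [1, 0, 1, 3, 0], [0, 3, 1, 0, 1], [0, 3,
     0, 2, 0], [0, 2, 2, 1, 0], [0, 1, 4, 0, 0]],
   [[2, 0, 1, 0, 2], [1, 2, 0, 0, 2], [1, 1, 0, 2, 1], [1, 0, 2, 1, 1], [0, 3, 0, 1, 1], [0, 2,
     2, 0, 1], [0, 1, 1, 3, 0], [0, 0, 3, 2, 0]],
   [[2, 0, 0, 0, 3], [1, 2, 0, 0, 2], [1, 1, 0, 2, 1], [1, 0, 2, 1, 1], [1, 0, 0, 4, 0], [0, 3,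
     1, 0, 1], [0, 2, 1, 2, 0], [0, 1, 3, 1, 0], [0, 0, 5, 0, 0]],
   [[2, 1, 0, 0, 2], [2, 0, 0, 2, 1], [1, 0, 2, 1, 1], [1, 0, 0, 4, 0], [0, 2, 1, 1, 1], [0, 1,
     1, 3, 0], [0, 0, 4, 0, 1]],
   [[1, 1, 1, 0, 2], [1, 1, 0, 2, 1], [1, 0, 3, 0, 1], [1, 0, 2, 2, 0], [0, 3, 0, 1, 1], [0, 2,
     2, 1, 0], [0, 1, 4, 0, 0]],
   [[2, 1, 0, 0, 2], [2, 0, 0, 2, 1], [1, 0, 2, 1, 1], [1, 0, 1, 3, 0], [0, 2, 1, 1, 1], [0, 2,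
     0, 3, 0]],
   [[1, 1, 1, 0, 2], [1, 1, 0, 2, 1], [1, 0, 3, 1, 0], [0, 3, 0, 0, 2], [0, 2, 2, 1, 0], [0, 1,
     4, 0, 0]],
   [[2, 1, 0, 0, 2], [1, 1, 0, 2, 1], [1, 0, 2, 1, 1], [0, 3, 0, 1, 1], [0, 2, 2, 0, 1], [0, 0,
     1, 4, 0]],
   [[1, 2, 0, 0, 2], [1, 1, 0, 2, 1], [1, 0, 2, 1, 1], [1, 0, 0, 4, 0], [0, 4, 0, 0, 1], [0, 3,
     1, 1, 0], [0, 2, 3, 0, 0]],
   [[2, 1, 0, 0, 2], [1, 1, 0, 2, 1], [1, 0, 2, 1, 1], [0, 3, 1, 0, 1], [0, 0, 0, 5, 0]],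
   [[1, 2, 0, 0, 2], [1, 1, 0, 2, 1], [1, 0, 2, 1, 1], [0, 4, 0, 1, 0], [0, 3, 2, 0, 0]]]

def nonstable55_tree : Tree :=
  (.br [2, 0, 0, 3, 0]
   (.br [3, 0, 0, 0, 2]
    (.br [0, 3, 0, 1, 1]
     (.br [2, 0, 1, 0, 2]
      (.br [1, 0, 4, 0, 0]
       (.br [2, 0, 0, 2, 1]
        (.br [1, 1, 0, 3, 0]
         (.br [0, 3, 0, 0, 2]
          (.br [0, 2, 1, 2, 0]
           (.leaf 23 [[24, 20, 8, 0, 0, 11, 0, 0, 0, 0, 5], [16, 4, 0, 8, 0, 3, 0, 0, 0, 0, 5],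
             [24, 0, 8, 0, 0, 11, 4, 0, 0, 0, 5], [13, 0, 10, 9, 6, 0, 0, 0, 0, 0, 5], [13, 0,
             10, 2, 0, 0, 6, 0, 0, 0, 5], [16, 0, 0, 8, 0, 3, 12, 0, 0, 0, 5], [24, 0, 8, 0, 0,
             11, 28, 0, 0, 0, 5], [13, 0, 10, 0, 15, 0, 4, 0, 0, 0, 5], [13, 0, 20, 5, 25, 0, 0,
             0, 0, 0, 10]])
           (.leaf 11 [[1, 1, 2, 3, 0, 2], [1, 1, 1, 2, 0, 1], [1, 1, 1, 1, 0, 1], [1, 1, 1, 1],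
             [1, 1, 0, 1], [1, 1], [1, 2, 1, 2]]))
          (.br [2, 0, 0, 1, 2]
           (.br [0, 2, 2, 1, 0]
            (.leaf 17 [[1, 1, 0, 1, 0, 0, 0, 0, 1], [1, 0, 0, 1, 0, 0, 0, 0, 1], [1, 0, 1, 1, 0,
              0, 0, 0, 2], [1, 0, 0, 1], [1, 0, 1, 1, 0, 0, 0, 0, 1], [1, 0, 2, 1, 0, 0, 0, 0,
              2]])
            (.leaf 33 [[1, 0, 0, 1, 0, 0, 0, 0, 1], [1, 1, 0, 0, 0, 0, 1, 0, 1], [1, 1, 0, 0, 0,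
              0, 0, 0, 1], [1, 0, 0, 1], [1, 1], [1, 2, 0, 1, 0, 0, 0, 0, 2]]))
           (.leaf 1 [[1, 1], [1, 1, 0, 0, 1], [1, 1, 0, 0, 0, 0, 1], [1, 1, 0, 0, 1, 0, 1, 1],
             [1, 1, 0, 0, 0, 0, 2, 1], [1, 0, 1], [1, 1, 0, 1, 0, 0, 2], [1, 1, 0, 0, 0, 0, 2],
             [1, 1, 0, 0, 2, 0, 1, 1], [1, 1, 0, 1, 0, 0, 3, 1], [1, 1, 0, 0, 2, 0, 2, 2]])))
         (.leaf 19 [[1, 1], [1, 1, 1, 0, 0, 1], [1, 1, 1], [1, 1, 2, 0, 0, 1], [1, 1, 3, 0, 0,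
           2]]))
        (.br [0, 3, 0, 0, 2]
         (.leaf 5 [[1, 0, 1], [1, 0, 1, 0, 0, 0, 0, 1], [1, 0, 1, 0, 1], [1, 1, 1, 0, 1, 0, 0,
           1], [1, 0, 1, 0, 1, 0, 0, 1], [1, 1, 1, 0, 1, 0, 0, 2], [1, 2, 2, 0, 2, 0, 0, 3]])
         (.leaf 22 [[1, 0, 1], [1, 1, 0, 0, 0, 1], [1, 0, 1, 0, 1], [1, 1, 0, 0, 1, 2], [1, 1],
           [1, 1, 0, 0, 1, 1], [1, 1, 0, 0, 2, 2], [1, 1, 0, 0, 2, 3, 0, 1]])))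
       (.leaf 6 [[1, 1]]))
      (.br [0, 0, 5, 0, 0]
       (.br [0, 0, 4, 0, 1]
        (.br [0, 0, 3, 2, 0]
         (.leaf 32 [[2, 1, 0, 0, 1], [1, 0, 1, 0, 1, 1, 1], [2, 0, 0, 0, 1, 1, 1], [2, 0, 2, 0,
           1, 3, 3], [2, 1, 0, 0, 1, 0, 2], [2, 0, 2, 0, 1, 1, 3]])
         (.leaf 8 [[1, 0, 0, 0, 1], [1, 1, 1, 0, 1], [3, 0, 2, 0, 2, 0, 1, 2], [1, 1, 1], [2, 1,
           0, 0, 1], [3, 0, 1, 0, 1, 0, 2, 1], [1, 1]]))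
        (.br [2, 1, 0, 0, 2]
         (.br [2, 0, 0, 2, 1]
          (.br [0, 2, 2, 0, 1]
           (.leaf 24 [[1, 0, 0, 0, 0, 0, 1], [2, 0, 2, 0, 0, 1, 1], [4, 1, 0, 2, 1, 2], [2, 1, 0,
             0, 1], [4, 5, 0, 6, 1, 2], [4, 0, 3, 2, 1, 2], [2, 0, 1, 0, 1], [4, 1, 0, 6, 1, 2],
             [2, 1, 0, 2, 1]])
           (.leaf 12 [[1, 0, 0, 0, 0, 0, 1], [2, 2, 0, 0, 0, 1, 1], [2, 0, 0, 2, 0, 1, 1], [1, 1,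
             0, 0, 0, 0, 0, 1], [1, 1], [2, 0, 0, 4, 0, 1, 1], [1, 1, 0, 1, 0, 0, 0, 1]]))
          (.leaf 18 [[1, 0, 0, 0, 0, 1], [1, 1], [2, 1, 0, 1], [1, 1, 1], [1, 0, 0, 1], [2, 1, 2,
            1]]))
         (.br [2, 0, 0, 2, 1]
          (.br [0, 2, 2, 0, 1]
           (.leaf 26 [[1, 0, 0, 1], [1, 1, 0, 1, 0, 0, 0, 0, 1], [2, 1, 0, 0, 1], [1, 0, 0, 1, 0,
             0, 0, 0, 1], [2, 0, 1, 0, 1], [1, 2, 0, 1, 0, 0, 0, 0, 2], [1, 1, 0, 1, 0, 0, 0, 1,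
             2]])
           (.leaf 2 [[1, 0, 0, 1], [1, 1, 0, 0, 0, 0, 0, 1], [1, 1]]))
          (.leaf 30 [[1, 0, 1], [1, 1], [2, 1, 0, 1], [1, 2, 0, 0, 0, 0, 0, 1], [1, 0, 1, 0, 0,
            0, 0, 1], [1, 1, 0, 0, 0, 0, 0, 1], [1, 0, 0, 1]]))))
       (.leaf 14 [[1, 0, 1], [2, 1, 1], [1, 1]])))
     (.br [0, 4, 0, 0, 1]
      (.br [2, 0, 0, 1, 2]
       (.br [1, 1, 0, 3, 0]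
        (.br [2, 0, 0, 0, 3]
         (.br [0, 3, 1, 0, 1]
          (.leaf 31 [[1, 1, 0, 1, 0, 0, 1], [1, 1, 0, 0, 0, 0, 1], [1, 2, 1, 2, 0, 0, 1], [1, 2,
            1, 1, 0, 0, 1], [1, 0, 0, 0, 0, 0, 1], [1, 1, 1, 1, 0, 0, 1], [1, 3, 2, 3, 0, 0, 2]])
          (.br [0, 2, 3, 0, 0]
           (.leaf 27 [[2, 1, 2, 0, 1, 0, 1], [2, 2, 2, 1, 0, 0, 1], [1, 0, 1, 0, 0, 0, 1], [1, 1,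
             1, 1, 0, 0, 1], [1, 0, 1], [1, 1, 1, 1], [2, 0, 2, 1, 0, 0, 1], [1, 0, 1, 1, 1, 0,
             1]])
           (.br [1, 0, 4, 0, 0]
            (.leaf 21 [[3, 1, 0, 1, 0, 2, 0, 1], [2, 0, 1, 0, 0, 1, 0, 1], [1, 0, 0, 1], [1, 0,
              1]])
            (.leaf 6 [[1, 1]]))))
         (.br [1, 0, 3, 0, 1]
          (.br [1, 2, 0, 0, 2]
           (.leaf 25 [[1, 0, 0, 1], [1, 0, 0, 1, 0, 1], [1, 1, 1, 1, 0, 1], [1, 1, 0, 1, 0, 1],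
             [1, 2, 1, 1, 0, 1], [1, 0, 1, 1, 0, 2], [1, 0, 0, 1, 0, 2], [1, 1, 1, 1, 0, 2], [1,
             1, 0, 1, 0, 2], [1, 2, 0, 1, 1, 2]])
           (.br [0, 3, 0, 2, 0]
            (.leaf 29 [[1, 0, 0, 0, 1], [1, 0, 1], [1, 0, 1, 1, 0, 0, 1, 1], [1, 0, 1, 0, 0, 0,
              1, 1], [1, 0, 1, 2, 0, 0, 2, 2], [1, 0, 1, 0, 0, 0, 1], [1, 0, 1, 1, 0, 0, 2, 1],
              [1, 0, 1, 0, 0, 0, 2, 1], [1, 1, 1, 0, 0, 0, 3, 1]])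
            (.leaf 13 [[1, 0, 0, 0, 1], [1, 0, 1], [2, 2, 0, 0, 1, 0, 0, 1], [1, 1, 0, 0, 0, 1,
              0, 1], [1, 1, 0, 0, 0, 0, 0, 1], [1, 1, 0, 0, 0, 1], [1, 1], [1, 1, 0, 0, 0, 1, 1,
              1]])))
          (.leaf 17 [[1, 0, 1], [1, 0, 1, 0, 1], [1, 1], [2, 1, 1, 0, 0, 0, 3], [1, 0, 1, 0, 2],
            [1, 1, 0, 0, 1]])))
        (.br [1, 0, 3, 0, 1]
         (.br [0, 3, 0, 2, 0]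
          (.leaf 19 [[1, 0, 0, 1], [1, 1, 0, 1, 1], [1, 1, 0, 1, 1, 0, 1], [1, 2, 0, 1, 2, 0, 1],
            [1, 3, 0, 1, 3, 0, 1]])
          (.leaf 15 [[1, 0, 0, 1], [1, 1]]))
         (.leaf 19 [[1, 0, 1], [1, 1, 1], [1, 1, 1, 0, 0, 1], [1, 2, 1, 0, 0, 1], [1, 3, 1, 0, 0,
           1]])))
       (.br [2, 1, 0, 0, 2]
        (.br [1, 0, 0, 4, 0]
         (.br [0, 1, 4, 0, 0]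
          (.br [0, 2, 1, 2, 0]
           (.br [2, 0, 1, 0, 2]
            (.leaf 10 [[1, 0, 0, 0, 0, 0, 1], [1, 2, 0, 0, 1, 0, 2], [1, 1, 0, 0, 0, 0, 1], [1,
              2, 0, 0, 1, 0, 1, 1], [1, 2, 0, 0, 1, 0, 1], [1, 2, 0, 0, 0, 0, 1], [1, 3, 0, 0, 1,
              0, 1, 1], [1, 4, 0, 0, 2, 0, 1, 2]])
            (.br [0, 0, 5, 0, 0]
             (.leaf 28 [[1, 0, 1], [1, 1, 1, 0, 0, 1, 2], [2, 1, 1, 0, 0, 0, 2], [1, 0, 1, 0, 0,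
               0, 1], [1, 0, 0, 0, 0, 0, 0, 0, 0, 1], [2, 1, 1, 0, 0, 2, 4], [2, 1, 1, 0, 0, 0,
               4], [1, 0, 1, 0, 0, 0, 2]])
             (.leaf 14 [[1, 0, 1], [2, 1, 1], [1, 1]])))
           (.leaf 10 [[1, 0, 0, 0, 0, 1], [1, 2, 0, 1, 0, 2], [1, 1, 0, 0, 0, 1], [1, 2, 0, 1, 0,
             1, 1], [2, 2, 1, 2, 1], [2, 2, 1, 0, 1], [1, 4, 1, 2, 0, 0, 2], [1, 5, 1, 3, 0, 0,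
             3]]))
          (.leaf 17 [[3, 0, 2, 3, 7, 0, 1], [1, 1, 0, 0, 2, 0, 1], [1, 1, 0, 0, 1], [1, 1, 0, 0,
            2, 0, 2], [1, 1, 0, 0, 1, 0, 1], [1, 1]]))
         (.br [1, 0, 2, 2, 0]
          (.br [1, 2, 0, 0, 2]
           (.br [2, 0, 0, 2, 1]
            (.leaf 1 [[1, 0, 0, 0, 0, 0, 1], [1, 1, 0, 0, 0, 0, 1], [2, 0, 0, 1, 1], [1, 1, 1, 0,
              0, 0, 1], [2, 0, 1, 0, 1], [2, 2, 0, 3, 1], [2, 2, 0, 1, 1], [2, 0, 1, 0, 1, 0, 0,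
              0, 2], [1, 2, 1, 0, 0, 0, 1], [2, 2, 1, 0, 1], [1, 2, 2, 0, 0, 0, 1]])
            (.leaf 22 [[1, 1], [2, 0, 0, 0, 0, 0, 1, 0, 0, 0, 1], [1, 1, 1, 0, 0, 0, 0, 0, 1],
              [1, 1, 1, 0, 0, 0, 0, 0, 0, 0, 1], [1, 1, 0, 0, 0, 0, 0, 0, 1, 0, 1], [2, 1, 0, 0,
              0, 1, 0, 0, 1, 0, 1], [1, 1, 2, 0, 0, 0, 0, 0, 1, 0, 1], [1, 1, 2, 0, 0, 0, 0, 0,
              0, 0, 2]]))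
           (.br [0, 2, 0, 3, 0]
            (.leaf 24 [[2, 2, 1, 0, 1], [1, 0, 1], [2, 0, 1, 0, 1], [2, 2, 1, 0, 1, 2], [1, 0, 0,
              0, 1], [1, 0, 1, 0, 0, 1], [1, 1, 1, 0, 0, 2], [2, 0, 1, 0, 1, 2], [2, 2, 1, 0, 1,
              4]])
            (.leaf 16 [[1, 0, 0, 0, 0, 0, 1], [1, 0, 1], [2, 0, 1, 0, 1], [1, 0, 0, 0, 1], [1, 0,
              0, 0, 0, 0, 0, 0, 1], [1, 1]])))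
          (.leaf 1 [[1, 0, 0, 0, 1], [2, 0, 0, 0, 1, 0, 0, 0, 1], [1, 1, 0, 0, 1, 0, 1], [2, 2,
            0, 0, 1, 0, 0, 0, 1], [2, 1, 1], [2, 0, 0, 0, 1, 0, 2, 0, 1], [2, 2, 0, 0, 1, 0, 2,
            0, 1], [1, 2, 0, 0, 1, 0, 2], [1, 1, 0, 0, 0, 0, 0, 0, 1], [2, 1, 0, 0, 0, 0, 0, 1],
            [1, 2, 0, 0, 0, 0, 0, 0, 1]])))
        (.br [1, 0, 3, 0, 1]
         (.br [0, 3, 1, 0, 1]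
          (.br [0, 2, 2, 0, 1]
           (.leaf 20 [[1, 0, 0, 0, 1], [1, 0, 1, 0, 0, 0, 0, 1], [1, 0, 0, 0, 0, 0, 0, 1], [1, 1,
             1, 0, 0, 0, 0, 1, 1]])
           (.leaf 34 [[1, 0, 0, 0, 1], [1, 1, 1, 1], [1, 1, 1], [1, 1, 0, 1], [1, 1], [1, 1, 2,
             1, 0, 0, 0, 0, 1]]))
          (.leaf 36 [[1, 0, 0, 1], [1, 1, 1, 0, 0, 1], [1, 1, 0, 0, 0, 1], [1, 1], [1, 1, 2, 0,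
            0, 2, 0, 1]]))
         (.leaf 2 [[1, 0, 1], [1, 1], [1, 1, 0, 0, 0, 1]]))))
      (.br [2, 0, 0, 0, 3]
       (.br [0, 5, 0, 0, 0]
        (.br [1, 1, 0, 3, 0]
         (.br [1, 0, 4, 0, 0]
          (.br [1, 0, 3, 0, 1]
           (.br [1, 0, 1, 3, 0]
            (.br [0, 3, 2, 0, 0]
             (.br [0, 4, 0, 1, 0]
              (.leaf 35 [[2, 0, 1, 1, 0, 0, 0, 0, 0, 1], [2, 0, 2, 0, 0, 0, 0, 0, 1, 1], [2, 2,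
                0, 0, 0, 0, 0, 0, 1, 1], [2, 0, 4, 0, 0, 0, 0, 0, 3, 1], [1, 0, 0, 0, 0, 0, 0, 0,
                0, 1], [2, 0, 0, 0, 0, 0, 0, 0, 1, 1], [2, 2, 0, 2, 0, 0, 0, 0, 3, 1]])
              (.leaf 4 [[1, 1, 1, 0, 0, 0, 1], [2, 2, 1, 0, 0, 0, 0, 1], [1, 1, 3, 0, 0, 0, 1, 0,
                2], [1, 1]]))
             (.leaf 37 [[2, 1, 2, 2, 0, 0, 1], [2, 1, 0, 2, 0, 0, 1], [2, 1, 0, 0, 0, 0, 1], [1,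
               1, 0, 1], [1, 1]]))
            (.leaf 27 [[3, 1, 0, 1, 3], [3, 1, 0, 1], [1, 1, 0, 0, 1], [1, 1], [1, 1, 2, 0, 3, 0,
              1], [1, 1, 2, 0, 2, 0, 1], [1, 1, 1, 0, 2, 0, 1], [1, 1, 0, 0, 2, 0, 1]]))
           (.leaf 21 [[2, 1, 1, 1], [1, 1], [6, 2, 0, 0, 2, 1, 7], [2, 2, 0, 0, 0, 1, 1]]))
          (.leaf 6 [[1, 1]]))
         (.leaf 15 [[1, 1], [3, 2, 1, 1, 3]]))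
        (.leaf 9 [[1, 1]]))
       (.leaf 0 [[1, 1], [2, 1, 1], [1, 0, 1]]))))
    (.leaf 7 [[1, 1]]))
   (.leaf 3 [[1, 1]]))

set_option maxRecDepth 100000 in
theorem nonstable55_check :
    checkAll 5 5 false (nonstable55.map List.ofFn) nonstable55_T nonstable55_tree = true := by
  decide +kernel

def unstable55_T : List (List (List ℤ)) :=
  [[[2, 0, 1, 0, 2], [2, 0, 0, 3, 0], [1, 1, 1, 1, 1], [1, 0, 2, 2, 0]],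
   [[2, 0, 0, 3, 0], [1, 1, 1, 1, 1], [1, 0, 2, 2, 0], [0, 2, 1, 2, 0]],
   [[1, 1, 1, 1, 1], [1, 0, 4, 0, 0], [0, 2, 3, 0, 0]],
   [[2, 0, 0, 0, 3], [1, 1, 1, 1, 1], [1, 0, 3, 0, 1], [1, 0, 2, 2, 0], [0, 3, 0, 1, 1], [0, 2,
     2, 1, 0], [0, 1, 4, 0, 0]],
   [[3, 0, 0, 0, 2], [1, 1, 1, 1, 1], [1, 0, 3, 0, 1], [0, 2, 2, 0, 1]],
   [[2, 1, 0, 0, 2], [1, 1, 1, 1, 1], [0, 3, 0, 1, 1], [0, 2, 2, 0, 1], [0, 1, 0, 4, 0], [0, 0,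
     2, 3, 0]],
   [[2, 1, 0, 0, 2], [2, 0, 0, 2, 1], [1, 1, 1, 1, 1], [1, 0, 0, 4, 0], [0, 1, 3, 0, 1], [0, 1,
     1, 3, 0], [0, 0, 3, 2, 0]],
   [[2, 1, 0, 0, 2], [2, 0, 0, 2, 1], [1, 1, 1, 1, 1], [1, 0, 1, 3, 0], [0, 2, 0, 3, 0], [0, 0,
     4, 0, 1], [0, 0, 3, 2, 0]],
   [[2, 0, 1, 0, 2], [1, 1, 1, 1, 1], [1, 0, 3, 0, 1], [1, 0, 2, 2, 0], [0, 3, 0, 0, 2], [0, 2,
     2, 0, 1], [0, 1, 3, 1, 0], [0, 0, 5, 0, 0]],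
   [[1, 1, 1, 1, 1], [1, 1, 0, 3, 0], [1, 0, 3, 1, 0], [0, 2, 2, 1, 0], [0, 1, 4, 0, 0]],
   [[2, 0, 1, 0, 2], [2, 0, 0, 2, 1], [1, 2, 0, 0, 2], [1, 1, 1, 1, 1], [1, 0, 3, 0, 1], [1, 0,
     1, 3, 0], [0, 1, 2, 2, 0], [0, 0, 4, 1, 0]],
   [[2, 0, 1, 0, 2], [2, 0, 0, 2, 1], [1, 2, 0, 0, 2], [1, 1, 1, 1, 1], [1, 0, 1, 3, 0], [0, 2,
     0, 3, 0], [0, 1, 3, 0, 1], [0, 1, 2, 2, 0]],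
   [[2, 0, 0, 2, 1], [1, 2, 0, 0, 2], [1, 1, 1, 1, 1], [1, 1, 0, 3, 0], [0, 3, 0, 1, 1], [0, 2,
     1, 2, 0]],
   [[2, 1, 0, 0, 2], [2, 0, 0, 2, 1], [1, 1, 1, 1, 1], [1, 0, 0, 4, 0], [0, 3, 0, 1, 1], [0, 1,
     3, 0, 1], [0, 1, 1, 3, 0]],
   [[2, 0, 1, 0, 2], [1, 2, 0, 0, 2], [1, 1, 1, 1, 1], [1, 0, 0, 4, 0], [0, 3, 0, 1, 1], [0, 2,
     2, 0, 1], [0, 2, 0, 3, 0], [0, 1, 2, 2, 0]],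
   [[1, 2, 0, 0, 2], [1, 1, 1, 1, 1], [1, 0, 1, 3, 0], [0, 4, 0, 0, 1], [0, 3, 1, 1, 0], [0, 2,
     3, 0, 0]],
   [[3, 0, 0, 0, 2], [1, 1, 1, 1, 1], [0, 3, 0, 1, 1], [0, 2, 2, 0, 1]],
   [[2, 0, 0, 0, 3], [1, 2, 0, 0, 2], [1, 1, 1, 1, 1], [1, 1, 0, 3, 0], [0, 3, 1, 0, 1], [0, 3,
     0, 2, 0], [0, 2, 2, 1, 0]],
   [[2, 0, 0, 0, 3], [1, 2, 0, 0, 2], [1, 1, 1, 1, 1], [1, 0, 3, 0, 1], [0, 3, 1, 0, 1], [0, 2,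
     2, 1, 0], [0, 1, 4, 0, 0]],
   [[1, 1, 1, 1, 1], [1, 1, 0, 3, 0], [1, 0, 2, 2, 0], [0, 3, 0, 2, 0], [0, 2, 2, 1, 0]],
   [[2, 1, 0, 0, 2], [1, 1, 1, 1, 1], [0, 4, 0, 0, 1]],
   [[2, 0, 1, 0, 2], [2, 0, 0, 2, 1], [1, 1, 1, 1, 1], [1, 0, 3, 0, 1], [1, 0, 2, 2, 0], [0, 0,
     4, 1, 0]],
   [[2, 0, 0, 1, 2], [1, 2, 0, 0, 2], [1, 1, 1, 1, 1], [1, 0, 1, 3, 0], [0, 3, 0, 1, 1], [0, 2,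
     2, 0, 1], [0, 2, 1, 2, 0]],
   [[1, 2, 0, 0, 2], [1, 1, 1, 1, 1], [1, 0, 3, 0, 1], [0, 4, 0, 0, 1], [0, 3, 2, 0, 0]],
   [[1, 1, 1, 1, 1], [1, 0, 3, 1, 0], [0, 3, 0, 1, 1], [0, 2, 3, 0, 0]],
   [[3, 0, 0, 0, 2], [2, 0, 0, 2, 1], [1, 1, 1, 1, 1]],
   [[2, 0, 1, 0, 2], [2, 0, 0, 2, 1], [1, 1, 1, 1, 1], [1, 1, 0, 3, 0], [1, 0, 2, 2, 0], [0, 3,
     0, 0, 2], [0, 1, 3, 0, 1], [0, 0, 4, 1, 0]],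
   [[1, 2, 0, 0, 2], [1, 1, 1, 1, 1], [1, 1, 0, 3, 0], [0, 4, 0, 0, 1], [0, 3, 1, 1, 0]],
   [[2, 0, 0, 1, 2], [1, 1, 1, 1, 1], [1, 1, 0, 3, 0], [1, 0, 2, 2, 0], [0, 3, 0, 1, 1], [0, 2,
     2, 0, 1], [0, 2, 1, 2, 0], [0, 1, 3, 1, 0]],
   [[2, 0, 1, 0, 2], [1, 2, 0, 0, 2], [1, 1, 1, 1, 1], [1, 0, 3, 0, 1], [1, 0, 0, 4, 0], [0, 2,
     2, 0, 1], [0, 1, 2, 2, 0], [0, 0, 4, 1, 0]],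
   [[2, 0, 0, 1, 2], [1, 2, 0, 0, 2], [1, 1, 1, 1, 1], [1, 0, 0, 4, 0], [0, 3, 1, 0, 1], [0, 2,
     1, 2, 0]],
   [[2, 1, 0, 0, 2], [1, 1, 1, 1, 1], [0, 3, 1, 0, 1], [0, 0, 1, 4, 0]],
   [[2, 0, 1, 0, 2], [1, 2, 0, 0, 2], [1, 1, 1, 1, 1], [0, 3, 1, 0, 1], [0, 2, 0, 3, 0], [0, 1,
     2, 2, 0]],
   [[2, 0, 1, 0, 2], [2, 0, 0, 3, 0], [1, 2, 0, 0, 2], [1, 1, 1, 1, 1], [0, 1, 2, 2, 0]],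
   [[2, 0, 0, 0, 3], [1, 2, 0, 0, 2], [1, 1, 1, 1, 1], [0, 4, 0, 0, 1], [0, 3, 0, 2, 0], [0, 2,
     2, 1, 0]],
   [[2, 0, 0, 2, 1], [1, 1, 1, 1, 1], [1, 1, 0, 3, 0], [1, 0, 2, 2, 0], [0, 3, 0, 0, 2], [0, 2,
     1, 2, 0], [0, 1, 3, 0, 1], [0, 0, 4, 1, 0]],
   [[2, 0, 1, 0, 2], [1, 2, 0, 0, 2], [1, 1, 1, 1, 1], [1, 0, 3, 0, 1], [0, 3, 0, 1, 1], [0, 2,
     2, 0, 1], [0, 1, 2, 2, 0], [0, 0, 4, 1, 0]],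
   [[2, 1, 0, 0, 2], [1, 1, 1, 1, 1], [1, 0, 3, 0, 1], [0, 3, 1, 0, 1]],
   [[2, 0, 1, 0, 2], [2, 0, 0, 2, 1], [1, 2, 0, 0, 2], [1, 1, 1, 1, 1], [1, 1, 0, 3, 0], [0, 1,
     2, 2, 0], [0, 0, 4, 0, 1]],
   [[2, 0, 0, 2, 1], [1, 1, 1, 1, 1], [1, 1, 0, 3, 0], [1, 0, 3, 0, 1], [1, 0, 2, 2, 0], [0, 2,
     1, 2, 0], [0, 1, 3, 1, 0], [0, 0, 5, 0, 0]],
   [[2, 0, 0, 0, 3], [1, 1, 1, 1, 1], [1, 0, 4, 0, 0], [0, 2, 2, 1, 0]],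
   [[2, 0, 1, 0, 2], [2, 0, 0, 2, 1], [1, 2, 0, 0, 2], [1, 1, 1, 1, 1], [1, 1, 0, 3, 0], [0, 3,
     0, 1, 1], [0, 1, 2, 2, 0]],
   [[2, 0, 0, 0, 3], [1, 1, 1, 1, 1], [1, 0, 3, 1, 0], [0, 3, 0, 0, 2], [0, 2, 2, 1, 0], [0, 1,
     4, 0, 0]],
   [[2, 0, 1, 0, 2], [1, 2, 0, 0, 2], [1, 1, 1, 1, 1], [1, 0, 3, 0, 1], [0, 2, 2, 0, 1], [0, 1,
     2, 2, 0], [0, 0, 5, 0, 0]],
   [[2, 0, 1, 0, 2], [1, 1, 1, 1, 1], [1, 0, 3, 1, 0], [0, 2, 2, 0, 1], [0, 1, 4, 0, 0]],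
   [[1, 1, 1, 1, 1], [1, 0, 3, 0, 1], [1, 0, 2, 2, 0], [0, 3, 1, 0, 1], [0, 3, 0, 2, 0], [0, 2,
     3, 0, 0]],
   [[2, 0, 0, 1, 2], [1, 1, 1, 1, 1], [1, 0, 3, 1, 0], [0, 2, 2, 0, 1], [0, 2, 1, 2, 0], [0, 1,
     4, 0, 0]],
   [[2, 1, 0, 0, 2], [2, 0, 0, 2, 1], [1, 1, 1, 1, 1], [1, 0, 0, 4, 0], [0, 3, 0, 1, 1], [0, 2,
     0, 3, 0]],
   [[2, 0, 0, 1, 2], [1, 1, 1, 1, 1], [1, 0, 3, 0, 1], [1, 0, 2, 2, 0], [0, 3, 0, 0, 2], [0, 2,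
     2, 0, 1], [0, 2, 1, 2, 0], [0, 1, 3, 1, 0], [0, 0, 5, 0, 0]],
   [[1, 2, 0, 0, 2], [1, 1, 1, 1, 1], [0, 4, 1, 0, 0]],
   [[2, 0, 0, 0, 3], [1, 2, 0, 0, 2], [1, 1, 1, 1, 1], [1, 0, 1, 3, 0], [0, 3, 1, 0, 1], [0, 3,
     0, 2, 0], [0, 2, 2, 1, 0], [0, 0, 5, 0, 0]],
   [[2, 1, 0, 0, 2], [2, 0, 0, 2, 1], [1, 1, 1, 1, 1], [1, 1, 0, 3, 0], [0, 0, 3, 2, 0]],
   [[2, 0, 0, 1, 2], [1, 2, 0, 0, 2], [1, 1, 1, 1, 1], [0, 4, 0, 0, 1], [0, 2, 1, 2, 0]],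
   [[1, 2, 0, 0, 2], [1, 1, 1, 1, 1], [1, 0, 0, 4, 0], [0, 4, 0, 1, 0], [0, 3, 2, 0, 0]],
   [[2, 1, 0, 0, 2], [1, 1, 1, 1, 1], [1, 0, 3, 0, 1], [0, 3, 0, 1, 1], [0, 2, 2, 0, 1], [0, 0,
     2, 3, 0]],
   [[2, 0, 0, 1, 2], [1, 2, 0, 0, 2], [1, 1, 1, 1, 1], [1, 0, 3, 0, 1], [0, 3, 1, 0, 1], [0, 2,
     1, 2, 0], [0, 1, 3, 1, 0], [0, 0, 5, 0, 0]],
   [[2, 1, 0, 0, 2], [1, 1, 1, 1, 1], [1, 0, 3, 0, 1], [0, 2, 2, 0, 1], [0, 0, 3, 2, 0]]]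

def unstable55_tree : Tree :=
  (.br [0, 2, 1, 2, 0]
   (.br [0, 1, 2, 2, 0]
    (.br [3, 0, 0, 0, 2]
     (.br [0, 2, 2, 0, 1]
      (.br [0, 3, 0, 1, 1]
       (.br [0, 1, 3, 0, 1]
        (.br [0, 0, 4, 0, 1]
         (.leaf 51 [[1, 0, 0, 0, 0, 0, 1], [1, 0, 0, 0, 1], [1], [1, 1, 0, 1, 0, 1], [1, 0, 0, 1,
           0, 1]])
         (.leaf 7 [[1, 0, 0, 0, 0, 0, 1], [1, 1, 2], [1], [1, 0, 1, 1, 0, 1], [1, 0, 1, 0, 0, 1],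
           [1, 1], [1, 0, 0, 1, 0, 1]]))
        (.leaf 6 [[1, 0, 0, 0, 0, 1], [1, 0, 0, 1], [1], [1, 0, 0, 2, 1], [1, 1], [1, 0, 0, 1,
          1], [1, 0, 1, 0, 1]]))
       (.br [0, 1, 3, 0, 1]
        (.leaf 47 [[1, 0, 0, 0, 0, 1], [1, 0, 0, 1], [1], [1, 0, 0, 2, 1], [1, 0, 1], [1, 1, 0,
          0, 1]])
        (.leaf 13 [[1, 0, 0, 0, 0, 1], [1, 0, 0, 1], [1], [1, 0, 0, 2, 1], [1, 0, 1], [1, 1], [1,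
          0, 0, 1, 1]])))
      (.br [0, 3, 1, 0, 1]
       (.br [0, 3, 0, 1, 1]
        (.leaf 56 [[1, 0, 0, 0, 0, 1], [1], [1, 1, 0, 1], [1, 0, 0, 1], [1, 1, 0, 0, 1]])
        (.br [1, 0, 3, 0, 1]
         (.leaf 5 [[1, 0, 0, 0, 0, 0, 1], [1], [1, 0, 1], [1, 0, 0, 0, 1], [1, 1, 0, 1, 0, 1],
           [1, 0, 0, 1, 0, 1]])
         (.leaf 54 [[1, 0, 0, 0, 0, 0, 1], [1], [1, 1], [1, 0, 1], [1, 1, 1], [1, 0, 0, 1, 0,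
           1]])))
       (.br [0, 4, 0, 0, 1]
        (.br [1, 0, 3, 0, 1]
         (.leaf 31 [[1, 0, 0, 0, 0, 0, 1], [1], [1, 0, 0, 1], [1, 1, 1, 0, 0, 1]])
         (.leaf 37 [[1, 0, 0, 0, 0, 0, 1], [1], [1, 1], [1, 0, 0, 1]]))
        (.leaf 20 [[1, 0, 0, 0, 0, 1], [1], [1, 1]]))))
     (.br [0, 2, 2, 0, 1]
      (.leaf 25 [[1, 0, 1], [1, 1], [1]])
      (.br [0, 3, 0, 1, 1]
       (.leaf 4 [[1, 0, 0, 1], [1], [1, 1, 1], [1, 0, 1]])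
       (.leaf 16 [[1, 0, 0, 1], [1], [1, 1], [1, 0, 1]]))))
    (.br [1, 0, 2, 2, 0]
     (.br [1, 0, 3, 0, 1]
      (.br [2, 0, 0, 3, 0]
       (.br [0, 2, 2, 0, 1]
        (.br [0, 1, 3, 0, 1]
         (.br [0, 3, 0, 1, 1]
          (.leaf 38 [[1, 1, 1, 0, 1], [1, 0, 0, 1], [1, 0, 1, 0, 1], [1], [1, 0, 1, 0, 0, 0, 0,
            1], [1, 0, 0, 0, 0, 0, 0, 1], [1, 1, 0, 0, 1, 0, 0, 1]])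
          (.leaf 41 [[1, 0, 0, 0, 0, 0, 0, 0, 1], [1, 0, 0, 1], [1, 0, 1, 0, 1], [1], [1, 0, 1,
            0, 0, 0, 0, 1], [1, 1], [1, 0, 0, 0, 0, 0, 0, 1]]))
         (.leaf 11 [[1, 0, 0, 0, 0, 0, 0, 1], [1, 0, 1], [1, 0, 0, 0, 0, 1], [1], [1, 0, 1, 0, 0,
           0, 1], [1, 0, 0, 0, 1, 0, 1], [1, 1], [1, 0, 0, 0, 0, 0, 1]]))
        (.br [0, 3, 1, 0, 1]
         (.leaf 14 [[1, 0, 0, 0, 0, 0, 0, 1], [1, 0, 0, 0, 0, 1], [1], [1, 1, 0, 0, 1, 0, 1], [1,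
           0, 1, 0, 1], [1, 0, 1], [1, 0, 0, 0, 1, 0, 1], [1, 0, 0, 0, 0, 0, 1]])
         (.leaf 32 [[1, 0, 0, 0, 0, 0, 0, 1], [1, 0, 0, 0, 0, 1], [1], [1, 1], [1, 0, 0, 0, 1, 0,
           1], [1, 0, 0, 0, 0, 0, 1]])))
       (.leaf 33 [[1, 0, 0, 0, 0, 1], [1, 1], [1, 0, 0, 1], [1], [1, 0, 0, 0, 1]]))
      (.br [0, 2, 2, 0, 1]
       (.leaf 10 [[1, 1, 1, 1], [1, 1], [1, 0, 0, 1], [1], [1, 0, 1], [1, 1, 0, 0, 1], [1, 0, 0,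
         0, 1], [1, 0, 1, 0, 1]])
       (.br [0, 3, 0, 1, 1]
        (.br [1, 0, 0, 4, 0]
         (.leaf 43 [[1, 0, 1, 0, 0, 1], [1, 0, 0, 0, 0, 1], [1], [1, 0, 1, 1], [1, 0, 0, 1], [1,
           0, 0, 0, 0, 0, 1], [1, 1, 1, 0, 0, 0, 2]])
         (.leaf 29 [[1, 0, 1, 0, 0, 1], [1, 0, 0, 0, 0, 1], [1], [1, 0, 1, 1], [1, 1], [1, 0, 0,
           1], [1, 0, 0, 0, 0, 0, 1], [1, 0, 1, 1, 0, 0, 1]]))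
        (.leaf 36 [[1, 0, 0, 0, 0, 0, 1], [1, 0, 0, 0, 1], [1], [1, 0, 0, 1], [1, 1], [1, 0, 1],
          [1, 0, 0, 0, 0, 1], [1, 0, 0, 1, 0, 1]]))))
     (.br [2, 0, 0, 3, 0]
      (.br [0, 2, 2, 0, 1]
       (.br [1, 0, 3, 0, 1]
        (.leaf 26 [[1, 0, 0, 0, 0, 0, 1], [1, 0, 1], [1], [1, 1, 0, 0, 1], [1, 0, 0, 0, 1], [1,
          1, 0, 1], [1, 0, 0, 1, 1], [1, 0, 0, 1, 2]])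
        (.leaf 21 [[1, 0, 0, 0, 0, 0, 1], [1, 0, 1], [1], [1, 1], [1, 0, 0, 0, 1], [1, 0, 0, 1,
          2]]))
       (.br [0, 3, 0, 0, 2]
        (.leaf 44 [[1, 0, 0, 0, 0, 0, 1], [1], [1, 1, 1], [1, 0, 1], [1, 1, 2]])
        (.leaf 8 [[1, 0, 0, 0, 0, 0, 1], [1], [1, 0, 1, 0, 1, 0, 1], [1, 0, 0, 0, 1], [1, 1], [1,
          0, 1], [1, 0, 1, 0, 1], [1, 0, 2, 0, 2, 0, 1]])))
      (.leaf 0 [[1, 0, 0, 0, 1], [1, 1], [1], [1, 0, 1]]))))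
   (.br [0, 2, 2, 1, 0]
    (.br [1, 0, 2, 2, 0]
     (.br [0, 2, 2, 0, 1]
      (.leaf 12 [[1, 1], [1, 0, 1], [1], [1, 1, 0, 0, 1], [1, 0, 1, 0, 1], [1, 0, 0, 0, 1]])
      (.br [1, 0, 1, 3, 0]
       (.br [1, 0, 0, 4, 0]
        (.br [1, 0, 3, 0, 1]
         (.leaf 52 [[1, 0, 0, 0, 0, 0, 1], [1, 0, 0, 0, 0, 1], [1], [1, 1, 1, 0, 0, 0, 0, 1], [1,
           0, 0, 0, 0, 0, 0, 1]])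
         (.leaf 55 [[1, 0, 0, 0, 0, 0, 1], [1, 0, 0, 0, 0, 1], [1], [1, 1], [1, 0, 0, 1, 0, 0, 0,
           1], [1, 0, 0, 0, 0, 0, 0, 1], [1, 1, 0, 0, 0, 0, 0, 1], [1, 2, 0, 0, 0, 0, 0, 1]]))
        (.leaf 30 [[1, 0, 0, 0, 0, 1], [1, 1, 2], [1], [1, 1], [1, 0, 1, 0, 0, 0, 1], [1, 0, 0,
          0, 0, 0, 1]]))
       (.leaf 22 [[1, 0, 0, 0, 1], [1, 0, 0, 1], [1], [1, 1], [1, 0, 0, 1, 0, 1], [1, 0, 1], [1,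
         0, 0, 0, 0, 1]])))
     (.br [2, 0, 0, 3, 0]
      (.br [0, 2, 2, 0, 1]
       (.br [1, 0, 3, 0, 1]
        (.leaf 35 [[1, 0, 1], [1], [1, 1, 0, 0, 1], [1, 0, 0, 0, 1], [1, 1, 0, 1], [1, 0, 0, 0,
          0, 0, 1], [1, 0, 0, 1, 1], [1, 0, 0, 1, 2]])
        (.leaf 39 [[1, 0, 1], [1], [1, 0, 1, 0, 0, 0, 1], [1, 1], [1, 0, 0, 0, 1], [1, 0, 0, 0,
          0, 0, 1], [1, 1, 0, 0, 0, 0, 1], [1, 2, 0, 0, 0, 0, 1]]))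
       (.br [1, 0, 3, 1, 0]
        (.br [1, 0, 3, 0, 1]
         (.leaf 28 [[1, 0, 0, 0, 0, 0, 1], [1], [1, 1, 0, 0, 0, 1], [1, 0, 0, 0, 0, 1], [1, 1, 0,
           1], [1, 0, 0, 1], [1, 1, 0, 1, 0, 1], [1, 0, 0, 1, 0, 1]])
         (.leaf 48 [[1, 0, 0, 0, 0, 0, 1], [1], [1, 1], [1, 0, 0, 0, 0, 1], [1, 0, 1, 1], [1, 0,
           0, 1], [1, 0, 0, 0, 0, 0, 0, 1], [1, 0, 0, 1, 0, 1], [1, 1, 0, 1, 0, 1]]))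
        (.leaf 46 [[1, 0, 0, 0, 0, 1], [1], [1, 1], [1, 0, 1], [1, 0, 0, 0, 0, 0, 1], [1, 1,
          1]])))
      (.leaf 1 [[1, 1], [1], [1, 0, 1], [1, 0, 0, 0, 1]])))
    (.br [1, 0, 4, 0, 0]
     (.br [1, 0, 2, 2, 0]
      (.br [2, 0, 0, 0, 3]
       (.br [0, 4, 1, 0, 0]
        (.br [1, 1, 0, 3, 0]
         (.br [1, 0, 1, 3, 0]
          (.br [1, 0, 3, 0, 1]
           (.leaf 53 [[1, 1, 0, 1], [1], [1, 1, 0, 0, 1, 1], [1, 1, 1, 0, 0, 1], [1, 0, 1, 0, 0,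
             1]])
           (.leaf 23 [[1, 0, 0, 0, 0, 0, 1], [1], [1, 1], [1, 0, 0, 0, 0, 1, 2], [1, 0, 1, 0, 0,
             1]]))
          (.leaf 15 [[1, 0, 0, 0, 0, 1], [1], [1, 1], [1, 0, 0, 0, 1, 2], [1, 0, 0, 0, 1, 1], [1,
            0, 1, 0, 1]]))
         (.leaf 27 [[1, 0, 0, 0, 1], [1], [1, 1], [1, 0, 0, 1, 2], [1, 0, 0, 1, 1]]))
        (.leaf 49 [[1, 0, 0, 1], [1], [1, 1]]))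
       (.br [1, 0, 3, 0, 1]
        (.br [0, 4, 0, 0, 1]
         (.br [0, 0, 5, 0, 0]
          (.leaf 17 [[1, 0, 0, 0, 1], [1, 0, 0, 0, 0, 1], [1], [1, 1, 1, 0, 0, 0, 0, 2], [1, 0,
            0, 0, 0, 1, 0, 1], [1, 1, 1, 0, 0, 1, 0, 3], [1, 0, 0, 0, 0, 0, 0, 1]])
          (.leaf 50 [[1, 0, 0, 0, 1], [1, 0, 0, 0, 0, 1], [1], [1, 0, 1, 1, 0, 0, 0, 1], [1, 0,
            0, 0, 0, 1, 0, 1], [1, 0, 0, 1, 0, 0, 0, 1], [1, 0, 0, 0, 0, 0, 0, 1], [1, 1]]))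
         (.leaf 34 [[1, 0, 0, 1], [2, 1, 0, 1], [1], [1, 1], [1, 0, 1, 0, 0, 0, 1], [1, 0, 0, 0,
           0, 0, 1]]))
        (.leaf 18 [[1, 0, 1], [1, 0, 0, 1], [1], [1, 1], [1, 0, 0, 1, 0, 1], [1, 0, 0, 0, 0, 1],
          [1, 1, 0, 0, 0, 1]])))
      (.br [0, 3, 0, 2, 0]
       (.br [0, 3, 0, 1, 1]
        (.br [1, 1, 0, 3, 0]
         (.leaf 42 [[1, 1, 1, 0, 0, 1], [1], [1, 0, 1, 0, 0, 0, 1], [1, 1, 0, 0, 0, 1, 1], [1, 0,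
           0, 0, 0, 0, 1], [1, 0, 0, 1, 0, 0, 2]])
         (.leaf 9 [[1], [1, 1], [1, 0, 1, 0, 0, 0, 1], [1, 0, 0, 0, 0, 0, 1], [1, 0, 0, 1, 0, 0,
           2]]))
        (.br [2, 0, 0, 0, 3]
         (.br [0, 2, 3, 0, 0]
          (.leaf 9 [[1], [1, 1, 1], [1, 0, 1, 0, 1], [1, 0, 1, 1, 1], [1, 0, 2, 2, 3]])
          (.leaf 24 [[1], [1, 0, 1, 0, 1], [1, 0, 0, 1], [1, 1]]))
         (.leaf 3 [[1, 1], [1], [1, 0, 0, 1, 0, 0, 1], [1, 0, 0, 0, 1], [1, 0, 1], [1, 0, 0, 0,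
           0, 0, 1], [1, 0, 0, 1, 0, 0, 2]])))
       (.br [1, 1, 0, 3, 0]
        (.br [2, 0, 0, 0, 3]
         (.leaf 45 [[1], [1, 0, 1, 0, 1], [1, 0, 0, 0, 1], [1, 0, 1, 1], [1, 0, 0, 1], [1, 1, 1]])
         (.leaf 3 [[1, 1], [1], [1, 0, 1, 0, 1], [1, 0, 0, 0, 1], [1, 1, 1, 2, 1], [1, 0, 1, 1,
           1], [1, 0, 2, 1, 2]]))
        (.leaf 19 [[1], [1, 1], [1, 0, 0, 1], [1, 0, 1], [1, 0, 0, 0, 0, 1]]))))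
     (.br [2, 0, 0, 0, 3]
      (.br [1, 1, 0, 3, 0]
       (.leaf 2 [[1], [1, 0, 0, 1], [1, 1, 1]])
       (.leaf 9 [[1], [1, 1], [3, 1, 0, 2, 0, 0, 0, 1], [1, 0, 0, 0, 1], [1, 0, 0, 1, 0, 0, 1]]))
      (.leaf 40 [[1, 1], [1], [1, 0, 1], [1, 0, 0, 1]])))))

set_option maxRecDepth 100000 in
theorem unstable55_check :
    checkAll 5 5 true (unstable55.map List.ofFn) unstable55_T unstable55_tree = true := by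
  decide +kernel

end Pool.Agent.Lib.MP_965dfe_ag
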