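import Mathlib
import Pool.Agent.Lib.MP_965dfe_ag.Subst

/-!
Coordinate-free form of the families: membership in sums of powers of the ideals of the members
of a complete flag of linear subspaces.
-/

open MvPolynomial

namespace Pool.Agent.Lib.MP_965dfe_ag

variable {n : ℕ}

/-- The ideal of polynomials all of whose monomials satisfy an upward closed condition. -/
noncomputable def monIdeal (P : (Fin n →₀ ℕ) → Prop) (hP : ∀ α β, P α → P (α + β)) :
    Ideal (MvPolynomial (Fin n) ℂ) where
  carrier := {p | ∀ α ∈ p.support, P α}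
  add_mem' := by
    classical
    intro p q hp hq α hα
    rcases Finset.mem_union.mp (support_add hα) with h | h
    · exact hp α h
    · exact hq α h
  zero_mem' := by
    intro α hα
    simp at hα
  smul_mem' := by
    classical
    intro c p hp α hα
    rw [smul_eq_mul] at hα
    obtain ⟨β, hβ, γ, hγ, rfl⟩ := Finset.mem_add.mp (support_mul _ _ hα)
    rw [add_comm]
    exact hP _ _ (hp γ hγ)

lemma mem_monIdeal {P : (Fin n →₀ ℕ) → Prop} {hP : ∀ α β, P α → P (α + β)}
    {p : MvPolynomial (Fin n) ℂ} : p ∈ monIdeal P hP ↔ ∀ α ∈ p.support, P α := Iff.rfl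

/-- Sum of the first `k` exponents. -/
def psum (k : ℕ) (α : Fin n →₀ ℕ) : ℕ := ∑ i ∈ Finset.univ.filter (fun i : Fin n => (i : ℕ) < k), α i

lemma psum_add (k : ℕ) (α β : Fin n →₀ ℕ) : psum k (α + β) = psum k α + psum k β := by
  simp [psum, Finset.sum_add_distrib]

lemma flagIdeal_pow_le (k m : ℕ) : (flagIdeal (X : Fin n → MvPolynomial (Fin n) ℂ) k) ^ m ≤
    monIdeal (fun α => m ≤ psum k α) (fun α β h => by rw [psum_add]; omega) := by
  classical
  induction m with
  | zero =>
    intro p _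
    rw [mem_monIdeal]
    intro α _
    exact Nat.zero_le _
  | succ m ih =>
    rw [pow_succ, Ideal.mul_le]
    intro r hr s hs
    have h1 : s ∈ monIdeal (fun α : Fin n →₀ ℕ => 1 ≤ psum k α)
        (fun α β h => by rw [psum_add]; omega) := by
      refine (Ideal.span_le.mpr ?_ : flagIdeal (X : Fin n → MvPolynomial (Fin n) ℂ) k ≤ _) hs
      rintro _ ⟨i, hi, rfl⟩
      show _ ∈ monIdeal _ _
      rw [mem_monIdeal]
      intro α hα
      rw [support_X, Finset.mem_singleton] at hα
      subst hα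
      rw [psum]
      have : i ∈ Finset.univ.filter (fun i : Fin n => (i : ℕ) < k) := by simpa using hi
      calc 1 = (Finsupp.single i 1 : Fin n →₀ ℕ) i := by simp
        _ ≤ _ := Finset.single_le_sum (f := fun j => (Finsupp.single i 1 : Fin n →₀ ℕ) j)
          (fun _ _ => Nat.zero_le _) this
    have h2 := ih hr
    rw [mem_monIdeal] at h1 h2 ⊢
    intro α hα
    obtain ⟨β, hβ, γ, hγ, rfl⟩ := Finset.mem_add.mp (support_mul _ _ hα)
    rw [psum_add]
    have := h1 γ hγ
    have := h2 β hβ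
    omega

lemma prod_mem_pow {R ι : Type*} [CommRing R] (I : Ideal R) (s : Finset ι) (x : ι → R)
    (a : ι → ℕ) (hx : ∀ i ∈ s, x i ∈ I) : ∏ i ∈ s, x i ^ a i ∈ I ^ (∑ i ∈ s, a i) := by
  classical
  induction s using Finset.induction_on with
  | empty => simp
  | insert i s hi ih =>
    rw [Finset.prod_insert hi, Finset.sum_insert hi, pow_add]
    exact Ideal.mul_mem_mul (Ideal.pow_mem_pow (hx i (Finset.mem_insert_self _ _)) _)
      (ih fun j hj => hx j (Finset.mem_insert_of_mem hj))

lemma monomial_mem_flagIdeal {k m : ℕ} {α : Fin n →₀ ℕ} (h : m ≤ psum k α) (c : ℂ) :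
    monomial α c ∈ (flagIdeal (X : Fin n → MvPolynomial (Fin n) ℂ) k) ^ m := by
  classical
  have h1 : monomial α c = C c * ((∏ i ∈ Finset.univ.filter (fun i : Fin n => (i : ℕ) < k),
      X i ^ α i) * ∏ i ∈ Finset.univ.filter (fun i : Fin n => ¬ (i : ℕ) < k), X i ^ α i) := by
    rw [Finset.prod_filter_mul_prod_filter_not, monomial_eq, Finsupp.prod_fintype]
    intro i
    simp
  rw [h1]
  apply Ideal.mul_mem_left
  apply Ideal.mul_mem_right
  have h2 := prod_mem_pow (flagIdeal (X : Fin n → MvPolynomial (Fin n) ℂ) k)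
    (Finset.univ.filter (fun i : Fin n => (i : ℕ) < k)) X α (fun i hi => by
      apply Ideal.subset_span
      exact ⟨i, by simpa using hi, rfl⟩)
  exact Ideal.pow_le_pow_right h h2

lemma mem_iSup_flagIdeal_iff (c : List (ℕ × ℕ)) (f : MvPolynomial (Fin n) ℂ) :
    f ∈ ⨆ q ∈ c, (flagIdeal (X : Fin n → MvPolynomial (Fin n) ℂ) q.1) ^ q.2 ↔
      ∀ α ∈ f.support, ∃ q ∈ c, q.2 ≤ psum q.1 α := by
  classical
  constructor
  · intro hf
    have hle : (⨆ q ∈ c, (flagIdeal (X : Fin n → MvPolynomial (Fin n) ℂ) q.1) ^ q.2) ≤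
        monIdeal (fun α => ∃ q ∈ c, q.2 ≤ psum q.1 α) (fun α β ⟨q, hq, h⟩ =>
          ⟨q, hq, by rw [psum_add]; omega⟩) := by
      refine iSup₂_le fun q hq => ?_
      refine (flagIdeal_pow_le q.1 q.2).trans ?_
      intro p hp
      rw [mem_monIdeal] at hp ⊢
      intro α hα
      exact ⟨q, hq, hp α hα⟩
    exact mem_monIdeal.mp (hle hf)
  · intro h
    rw [f.as_sum]
    refine Ideal.sum_mem _ fun α hα => ?_
    obtain ⟨q, hq, h1⟩ := h α hα
    exact (le_iSup₂_of_le q hq le_rfl :
      (flagIdeal (X : Fin n → MvPolynomial (Fin n) ℂ) q.1) ^ q.2 ≤ _)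
        (monomial_mem_flagIdeal h1 _)

/-- The substitution by an invertible matrix as an algebra equivalence. -/
noncomputable def substEquiv (g h : Matrix (Fin n) (Fin n) ℂ) (h1 : g * h = 1) (h2 : h * g = 1) :
    MvPolynomial (Fin n) ℂ ≃ₐ[ℂ] MvPolynomial (Fin n) ℂ :=
  AlgEquiv.ofAlgHom (subst g) (subst h)
    (by ext1 i; simp only [AlgHom.comp_apply, AlgHom.id_apply, subst_subst, h2, subst_one])
    (by ext1 i; simp only [AlgHom.comp_apply, AlgHom.id_apply, subst_subst, h1, subst_one])

lemma substEquiv_apply {g h : Matrix (Fin n) (Fin n) ℂ} {h1 : g * h = 1} {h2 : h * g = 1}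
    (f : MvPolynomial (Fin n) ℂ) : substEquiv g h h1 h2 f = subst g f := rfl

lemma map_flagIdeal (e : MvPolynomial (Fin n) ℂ ≃ₐ[ℂ] MvPolynomial (Fin n) ℂ)
    (l : Fin n → MvPolynomial (Fin n) ℂ) (k : ℕ) :
    Ideal.map e (flagIdeal l k) = flagIdeal (fun i => e (l i)) k := by
  rw [flagIdeal, flagIdeal, Ideal.map_span, ← Set.image_comp]
  rfl

lemma mem_iSup_map_iff (e : MvPolynomial (Fin n) ℂ ≃ₐ[ℂ] MvPolynomial (Fin n) ℂ)
    (l : Fin n → MvPolynomial (Fin n) ℂ) (c : List (ℕ × ℕ)) (f : MvPolynomial (Fin n) ℂ) :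
    f ∈ ⨆ q ∈ c, flagIdeal l q.1 ^ q.2 ↔
      e f ∈ ⨆ q ∈ c, flagIdeal (fun i => e (l i)) q.1 ^ q.2 := by
  have h : (⨆ q ∈ c, flagIdeal (fun i => e (l i)) q.1 ^ q.2) =
      Ideal.map e (⨆ q ∈ c, flagIdeal l q.1 ^ q.2) := by
    rw [Ideal.map_iSup]
    refine iSup_congr fun q => ?_
    rw [Ideal.map_iSup]
    refine iSup_congr fun _ => ?_
    rw [Ideal.map_pow, map_flagIdeal]
  rw [h]
  constructor
  · exact fun hf => Ideal.mem_map_of_mem e hf
  · intro hf
    rw [Ideal.mem_map_iff_of_surjective e e.surjective] at hf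
    obtain ⟨x, hx, hxe⟩ := hf
    rwa [← e.injective hxe]

lemma linearForm_eq {p : MvPolynomial (Fin n) ℂ} (hp : p.IsHomogeneous 1) :
    p = ∑ j, C (p.coeff (Finsupp.single j 1)) * X j := by
  classical
  ext α
  rw [coeff_sum]
  simp only [coeff_C_mul, coeff_X]
  by_cases hα : p.coeff α = 0
  · rw [hα]
    symm
    apply Finset.sum_eq_zero
    intro j _
    split_ifs with h
    · rw [h, hα, zero_mul]
    · rw [mul_zero]
  · have h1 : ∑ i, α i = 1 := sum_of_homogeneous hp hα
    obtain ⟨j, hj⟩ : ∃ j, α = Finsupp.single j 1 := by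
      have : ∃ j, α j ≠ 0 := by
        by_contra hcon
        push Not at hcon
        simp [hcon] at h1
      obtain ⟨j, hj⟩ := this
      refine ⟨j, ?_⟩
      rw [← Finset.add_sum_erase _ _ (Finset.mem_univ j)] at h1
      have h2 : α j = 1 := by omega
      have h3 : ∑ i ∈ Finset.univ.erase j, α i = 0 := by omega
      rw [Finset.sum_eq_zero_iff] at h3
      ext i
      by_cases hij : i = j
      · subst hij; simp [h2]
      · rw [h3 i (by simp [hij]), Finsupp.single_eq_of_ne hij]
    subst hj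
    rw [Finset.sum_eq_single j]
    · rw [if_pos rfl, mul_one]
    · intro i _ hij
      rw [if_neg, mul_zero]
      intro h
      exact hij (Finsupp.single_left_injective one_ne_zero h)
    · simp

/-- The linear forms `∑ j, v j X j`. -/
noncomputable def linForm : (Fin n → ℂ) →ₗ[ℂ] MvPolynomial (Fin n) ℂ :=
  Fintype.linearCombination ℂ (X : Fin n → MvPolynomial (Fin n) ℂ)

lemma linForm_apply (v : Fin n → ℂ) : linForm v = ∑ j, C (v j) * X j := by
  rw [linForm, Fintype.linearCombination_apply]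
  simp only [smul_eq_C_mul]

lemma coeff_linForm (v : Fin n → ℂ) (j : Fin n) :
    (linForm v).coeff (Finsupp.single j 1) = v j := by
  classical
  rw [linForm_apply, coeff_sum, Finset.sum_eq_single j]
  · rw [coeff_C_mul, coeff_X, if_pos rfl, mul_one]
  · intro i _ hij
    rw [coeff_C_mul, coeff_X, if_neg, mul_zero]
    intro h
    exact hij (Finsupp.single_left_injective one_ne_zero h)
  · simp

lemma ker_linForm : LinearMap.ker (linForm (n := n)) = ⊥ := by
  rw [LinearMap.ker_eq_bot']
  intro v hv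
  funext j
  rw [← coeff_linForm v j, hv]
  simp

/-- Equivalence of the coordinate form and the flag form. -/
theorem hasFlagType_iff (f : MvPolynomial (Fin n) ℂ) (t : List (List (ℕ × ℕ))) :
    HasFlagType f t ↔ ∃ g : Matrix (Fin n) (Fin n) ℂ, g.det ≠ 0 ∧
      ∀ α ∈ (subst g f).support, ∀ c ∈ t, ∃ q ∈ c, q.2 ≤ psum q.1 α := by
  constructor
  · rintro ⟨l, hl, hli, hf⟩
    set A : Matrix (Fin n) (Fin n) ℂ := Matrix.of fun i j => (l i).coeff (Finsupp.single j 1)
      with hA
    have hlA : ∀ i, l i = subst A (X i) := by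
      intro i
      rw [subst_X]
      exact linearForm_eq (hl i)
    have hAli : LinearIndependent ℂ A.row := by
      have h1 : LinearIndependent ℂ (linForm ∘ A.row) := by
        convert hli using 1
        funext i
        rw [Function.comp_apply, linForm_apply, hlA, subst_X]
        rfl
      exact h1.of_comp
    have hAu : IsUnit A := Matrix.linearIndependent_rows_iff_isUnit.mp hAli
    have hdet : A.det ≠ 0 := by
      rw [Matrix.isUnit_iff_isUnit_det] at hAu
      exact hAu.ne_zero
    have hdu : IsUnit A.det := isUnit_iff_ne_zero.mpr hdet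
    have h1 : A * A⁻¹ = 1 := Matrix.mul_nonsing_inv A hdu
    have h2 : A⁻¹ * A = 1 := Matrix.nonsing_inv_mul A hdu
    refine ⟨A⁻¹, ?_, ?_⟩
    · intro h0
      have := congrArg Matrix.det h1
      rw [Matrix.det_mul, h0, mul_zero, Matrix.det_one] at this
      exact zero_ne_one this
    · intro α hα c hc
      have h3 := (mem_iSup_map_iff (substEquiv A⁻¹ A h2 h1) l c f).mp (hf c hc)
      have h4 : (fun i => substEquiv A⁻¹ A h2 h1 (l i)) = X := by
        funext i
        rw [substEquiv_apply, hlA, subst_subst, h1, subst_one]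
      rw [h4, substEquiv_apply, mem_iSup_flagIdeal_iff] at h3
      exact h3 α hα
  · rintro ⟨g, hg, h⟩
    have hdu : IsUnit g.det := isUnit_iff_ne_zero.mpr hg
    have h1 : g * g⁻¹ = 1 := Matrix.mul_nonsing_inv g hdu
    have h2 : g⁻¹ * g = 1 := Matrix.nonsing_inv_mul g hdu
    refine ⟨fun i => subst g⁻¹ (X i), ?_, ?_, ?_⟩
    · intro i
      exact isHomogeneous_subst (isHomogeneous_X ℂ i) _
    · have h3 : LinearIndependent ℂ (g⁻¹).row := by
        rw [Matrix.linearIndependent_rows_iff_isUnit]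
        exact ⟨⟨g⁻¹, g, h2, h1⟩, rfl⟩
      have h4 := h3.map' linForm ker_linForm
      have h5 : (fun i => subst g⁻¹ (X i)) = linForm ∘ (g⁻¹).row := by
        funext i
        rw [Function.comp_apply, linForm_apply, subst_X]
        rfl
      rw [h5]
      exact h4
    · intro c hc
      rw [mem_iSup_map_iff (substEquiv g g⁻¹ h1 h2)]
      have h4 : (fun i => substEquiv g g⁻¹ h1 h2 (subst g⁻¹ (X i))) = X := by
        funext i
        rw [substEquiv_apply, subst_subst, h2, subst_one]
      rw [h4, substEquiv_apply, mem_iSup_flagIdeal_iff]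
      intro α hα
      exact h α hα c hc

end Pool.Agent.Lib.MP_965dfe_ag
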