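import Mathlib
import Pool.Agent.Lib.MP_965dfe_ag.Defs

/-!
The lists of flag types. Let `L_k` be the member of codimension `k` of a complete flag of linear
subspaces of projective space and `I_k` its ideal. A pair `(k, m)` stands for `I_k ^ m`; a list of
pairs stands for the sum of these ideals and is read as the condition that the form `f` lies in
this sum; a flag type is a list of such conditions, all of which have to hold.

On a surface (four variables) `H m`, `L m`, `p m` stand for the `m`-th powers of the ideals of the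
plane, the line and the point of the flag; on a threefold (five variables) `H m`, `P m`, `L m`,
`p m` stand for the `m`-th powers of the ideals of the hyperplane, the plane, the line and the point
of the flag. Choose coordinates `x_0, …, x_N` such that `L_k` is given by `x_0 = ⋯ = x_(k-1) = 0`,
and write `f = x_N ^ (d - 1) f_1 + ⋯ + f_d` for a form `f` of degree `d` vanishing at the point `p`,
where `f_m` is a form of degree `m` in `x_0, …, x_(N-1)`. Then
`[L 2]` says that the hypersurface is singular along the line `L`;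
`[p m]` says that it has multiplicity at least `m` at `p`;
`[H 1, p m]` says that its section by `H` has multiplicity at least `m` at `p`, that is, `f_1`, …,
`f_(m-1)` are divisible by `x_0`;
`[H 1, P m]` says that this section contains the plane `P` at least `m` times;
`[H 2, p 3]` says `f_1 = 0` and `f_2 = c x_0 ^ 2`;
`[P 2, p 4]`, together with `[p 3]`, says that `f_3` lies in `(x_0, x_1) ^ 2`, so the tangent cone at
the triple point is a cubic surface which is singular along a line;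
`[L 3, p 4]` says that `f_1 = f_2 = 0` and that `f_3` only involves `x_0, x_1, x_2`, so the
tangent cone is a cone over a plane cubic;
`[H 2, L 3, p 4]` says that `f_3` is `x_0 ^ 2 x_3` times a constant plus a form in `x_0, x_1, x_2`
if moreover `f_1 = f_2 = 0`, and so on.
-/

namespace Pool.Agent.Lib.MP_965dfe_ag

namespace Surface

/-- `m`-th power of the ideal of the plane of the flag. -/
def H (m : ℕ) : Power := (1, m)
/-- `m`-th power of the ideal of the line of the flag. -/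
def L (m : ℕ) : Power := (2, m)
/-- `m`-th power of the ideal of the point of the flag. -/
def p (m : ℕ) : Power := (3, m)

end Surface

namespace Threefold

/-- `m`-th power of the ideal of the hyperplane of the flag. -/
def H (m : ℕ) : Power := (1, m)
/-- `m`-th power of the ideal of the plane of the flag. -/
def P (m : ℕ) : Power := (2, m)
/-- `m`-th power of the ideal of the line of the flag. -/
def L (m : ℕ) : Power := (3, m)
/-- `m`-th power of the ideal of the point of the flag. -/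
def p (m : ℕ) : Power := (4, m)

end Threefold

open Surface in
/-- The flag types of the non-stable quintic surfaces, in the order of the weights. -/
def nonstable45Types : List FlagType :=
  [[[p 3], [H 2, p 4], [H 1, p 5]],
    [[L 3, p 4], [H 2, L 3, p 5], [L 2], [H 1, p 4], [H 1, L 3]],
    [[p 4]],
    [[H 3, p 4], [L 2, p 5], [H 1, L 3, p 5]],
    [[L 3, p 5], [L 2]],
    [[H 2, p 4], [H 2, L 3, p 5], [L 2], [H 1, L 5]],
    [[H 2, L 3], [H 1, L 4]],
    [[L 3, p 4], [H 2, p 4], [H 2, L 3, p 5], [H 1, L 2]],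
    [[p 3], [H 2, p 4], [H 2, L 3, p 5], [L 2], [H 1, L 4]],
    [[H 2, L 4, p 5], [H 1]]]

open Surface in
/-- The flag types of the non-stable quintic surfaces with isolated singularities. -/
def nonstable45IsoTypes : List FlagType :=
  [[[p 3], [H 2, p 4], [H 1, p 5]],
    [[p 4]],
    [[H 3, p 4], [L 2, p 5], [H 1, L 3, p 5]],
    [[L 3, p 4], [H 2, p 4], [H 2, L 3, p 5], [H 1, L 2]]]

open Surface in
/-- The flag types of the unstable quintic surfaces, in the order of the weights. -/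
def unstable45Types : List FlagType :=
  [[[p 4]],
    [[H 2, L 3], [H 1, L 4]],
    [[H 3, p 4], [H 1, p 5]],
    [[L 3, p 5], [L 2]],
    [[L 3, p 4], [H 2, p 4], [H 2, L 3, p 5], [L 2]],
    [[H 3, p 4], [H 2, L 3, p 5], [L 1]],
    [[p 3], [H 2, p 4], [H 2, L 3, p 5], [H 1, p 5], [H 1, L 4]],
    [[L 3, p 4], [H 2, L 3], [H 1, L 4, p 5]],
    [[L 3, p 4], [H 2, p 4], [H 2, L 3, p 5], [H 1, L 4, p 5], [H 1, L 2]],
    [[H 3, p 4], [L 2, p 5], [H 1, L 4, p 5]],
    [[H 2, L 4, p 5], [H 1]]]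

open Surface in
/-- The flag types of the unstable quintic surfaces with isolated singularities. -/
def unstable45IsoTypes : List FlagType :=
  [[[p 4]],
    [[H 3, p 4], [H 1, p 5]],
    [[H 3, p 4], [H 2, L 3, p 5], [L 1]],
    [[p 3], [H 2, p 4], [H 2, L 3, p 5], [H 1, p 5], [H 1, L 4]],
    [[L 3, p 4], [H 2, p 4], [H 2, L 3, p 5], [H 1, L 4, p 5], [H 1, L 2]],
    [[H 3, p 4], [L 2, p 5], [H 1, L 4, p 5]]]

open Threefold in
/-- The flag types of the non-stable quartic threefolds, in the order of the weights, part 1. -/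
def nonstable54Types_1 : List FlagType :=
  [[[H 2, p 3], [H 1, p 4]],
    [[P 2, L 3], [P 1, L 4]],
    [[p 3], [P 2, p 4]],
    [[L 2], [H 1, L 4]],
    [[H 2, p 3], [P 2, L 3, p 4], [L 2], [H 1, L 3, p 4], [H 1, P 2, p 4], [H 1, P 2, L 3],
      [P 1, L 4]],
    [[L 3, p 4]],
    [[p 3], [H 2, L 3, p 4], [L 2]],
    [[H 1, P 4]],
    [[P 2, p 4], [H 1, P 3, p 4], [H 1, P 2]],
    [[H 2, p 3], [P 2, L 3, p 4], [H 1, P 3, p 4], [H 1, P 2, L 3], [P 1, L 4]],
    [[H 2, L 3, p 4], [L 2], [H 1, L 3]],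
    [[H 2, p 3], [P 2, p 4], [H 1, P 2]],
    [[p 3], [H 2, L 3, p 4], [H 1, P 2, p 4], [H 1, L 2]],
    [[P 2, L 3, p 4], [L 2], [H 1, P 3, L 4], [H 1, P 2]]]

open Threefold in
/-- The flag types of the non-stable quartic threefolds, in the order of the weights, part 2. -/
def nonstable54Types_2 : List FlagType :=
  [[[p 3], [H 2, L 3, p 4], [H 1, P 3, p 4], [P 1, L 2]],
    [[P 2, L 3, p 4], [H 1, p 4], [H 1, P 3]]]

/-- The flag types of the non-stable quartic threefolds, in the order of the weights. -/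
def nonstable54Types : List FlagType :=
  nonstable54Types_1 ++ nonstable54Types_2

open Threefold in
/-- The flag types of the non-stable quartic threefolds with isolated singularities. -/
def nonstable54IsoTypes : List FlagType :=
  [[[H 2, p 3], [H 1, p 4]],
    [[p 3], [P 2, p 4]],
    [[L 3, p 4]],
    [[H 2, p 3], [P 2, L 3, p 4], [H 1, P 3, p 4], [H 1, P 2, L 3], [P 1, L 4]],
    [[p 3], [H 2, L 3, p 4], [H 1, P 2, p 4], [H 1, L 2]],
    [[p 3], [H 2, L 3, p 4], [H 1, P 3, p 4], [P 1, L 2]]]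

open Threefold in
/-- The flag types of the unstable quartic threefolds, in the order of the weights, part 1. -/
def unstable54Types_1 : List FlagType :=
  [[[H 1]],
    [[p 3], [P 2, p 4], [P 1]],
    [[H 2, L 3]],
    [[P 2, L 4], [P 1]],
    [[P 2, L 3], [H 1, L 3], [H 1, P 2, L 4], [P 1]],
    [[L 3, p 4], [L 1]],
    [[p 3], [H 2, L 3, p 4], [L 2], [H 1, L 3]],
    [[H 2, p 3], [P 2, p 4], [P 2, L 3], [H 1, L 3, p 4], [H 1, P 2, L 4], [P 1]],
    [[p 3], [H 2, P 3, p 4]],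
    [[H 2, p 3], [P 2, L 3, p 4], [L 2], [H 1, P 3, p 4], [H 1, L 3], [H 1, P 2, L 4], [P 1]],
    [[p 3], [H 2, L 3, p 4], [H 1, p 4], [L 1]],
    [[H 2, L 3, p 4], [H 1, p 4], [H 1, L 3]],
    [[P 2, p 4], [H 1, P 3]],
    [[H 2, p 3], [P 2, L 3, p 4], [H 1, p 4], [H 1, L 3], [H 1, P 2, L 4], [P 1]]]

open Threefold in
/-- The flag types of the unstable quartic threefolds, in the order of the weights, part 2. -/
def unstable54Types_2 : List FlagType :=
  [[[H 2, p 3], [P 2, p 4], [H 1, P 3, p 4], [H 1, P 2, L 4], [P 1]],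
    [[p 3], [H 2, L 3, p 4], [L 2], [H 1, P 2, p 4], [P 1, L 3]],
    [[H 2, L 3, p 4], [P 2, L 3], [H 1, L 3], [H 1, P 2, p 4]],
    [[p 3], [H 2, L 3, p 4], [H 1, P 3, p 4], [H 1, L 2]],
    [[H 2, L 3, p 4], [L 2], [H 1, P 3, p 4], [H 1, L 3]],
    [[p 3], [H 2, L 3, p 4], [P 2, p 4], [H 1, P 3, p 4], [L 1]],
    [[p 3], [H 2, L 3, p 4], [P 2, p 4], [P 1, L 3]],
    [[P 2, L 3, p 4], [L 2], [H 1, p 4], [H 1, P 3]],
    [[P 2, L 3, p 4], [H 1, L 4], [H 1, P 3]]]

/-- The flag types of the unstable quartic threefolds, in the order of the weights. -/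
def unstable54Types : List FlagType :=
  unstable54Types_1 ++ unstable54Types_2

open Threefold in
/-- The flag types of the unstable quartic threefolds with isolated singularities. -/
def unstable54IsoTypes : List FlagType :=
  [[[p 3], [P 2, p 4], [P 1]],
    [[L 3, p 4], [L 1]],
    [[p 3], [H 2, P 3, p 4]],
    [[p 3], [H 2, L 3, p 4], [H 1, p 4], [L 1]],
    [[H 2, L 3, p 4], [H 1, p 4], [H 1, L 3]],
    [[H 2, p 3], [P 2, L 3, p 4], [H 1, p 4], [H 1, L 3], [H 1, P 2, L 4], [P 1]],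
    [[H 2, p 3], [P 2, p 4], [H 1, P 3, p 4], [H 1, P 2, L 4], [P 1]],
    [[p 3], [H 2, L 3, p 4], [H 1, P 3, p 4], [H 1, L 2]],
    [[p 3], [H 2, L 3, p 4], [P 2, p 4], [H 1, P 3, p 4], [L 1]],
    [[p 3], [H 2, L 3, p 4], [P 2, p 4], [P 1, L 3]]]

open Threefold in
/-- The flag types of the non-stable quintic threefolds, in the order of the weights, part 1. -/
def nonstable55Types_1 : List FlagType :=
  [[[p 3], [H 2, p 4], [H 1, p 5]],
    [[L 3, p 4], [H 2, P 3, p 4], [H 2, L 3, p 5], [P 2, L 4, p 5], [P 2, L 3], [H 1, p 4],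
      [H 1, P 3, L 4, p 5], [H 1, L 3], [H 1, P 2, p 5], [H 1, P 2, L 4], [P 1, L 5]],
    [[H 3, p 4], [P 2, p 5], [H 1, P 3, p 5]],
    [[L 3]],
    [[H 2, p 4], [H 2, L 3, p 5], [L 2], [H 1, L 5]],
    [[L 3, p 5], [H 2, P 3, p 4], [H 2, L 3], [P 2, L 4], [H 1, P 3, L 4, p 5], [H 1, P 2, p 5],
      [P 1, L 5]],
    [[P 2]],
    [[p 4]],
    [[P 3, p 4], [L 3, p 5], [H 2, p 4], [H 2, L 3], [P 2, L 4, p 5], [H 1, P 3, L 4, p 5],
      [P 1, L 4]],
    [[H 1]]]

open Threefold in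
/-- The flag types of the non-stable quintic threefolds, in the order of the weights, part 2. -/
def nonstable55Types_2 : List FlagType :=
  [[[L 3, p 4], [H 2, p 4], [H 2, L 3, p 5], [P 2, L 4, p 5], [H 1, P 4, p 5], [H 1, L 3],
      [H 1, P 2, L 4], [P 1, L 5]],
    [[p 3], [H 2, P 3, p 4], [H 2, L 3, p 5], [P 2, L 5], [H 1, P 3, p 5], [H 1, P 3, L 4],
      [H 1, P 2]],
    [[P 3, p 4], [H 2, p 4], [H 2, L 3, p 5], [P 2, p 5], [H 1, P 3, p 5], [H 1, P 2, L 3],
      [P 1, L 5]],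
    [[p 3], [H 2, p 4], [H 2, L 3, p 5], [P 2, L 4, p 5], [P 2, L 3], [H 1, P 4, p 5],
      [H 1, L 4], [H 1, P 2, L 5]],
    [[P 3, p 4], [P 2, p 5], [P 1]],
    [[H 2, L 3], [H 1, L 4]],
    [[L 3, p 4], [H 2, p 4], [H 2, L 3, p 5], [L 2], [H 1, L 4, p 5], [H 1, L 3]]]

open Threefold in
/-- The flag types of the non-stable quintic threefolds, in the order of the weights, part 3. -/
def nonstable55Types_3 : List FlagType :=
  [[[p 3], [H 2, P 3, p 4], [P 2, p 5], [H 1, p 4], [H 1, P 3, p 5], [H 1, P 2]],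
    [[P 3, p 4], [L 3, p 5], [P 2, L 4, p 5], [P 2, L 3], [P 1, p 5], [P 1, L 4]],
    [[H 2, L 3], [P 2, L 4], [H 1, P 3, L 4], [H 1, P 2, L 5], [P 1]],
    [[H 3, p 4], [H 2, L 3, p 5], [H 1, L 4, p 5], [H 1, L 2]],
    [[H 2, P 3, p 4], [P 2, p 5], [H 1, P 4, p 5], [H 1, P 3]],
    [[L 3, p 5], [H 2, P 3, p 4], [H 2, L 3], [P 2, L 4, p 5], [H 1, p 4], [H 1, P 3, L 4, p 5],
      [H 1, P 2, L 4], [P 1, p 5]]]

open Threefold in
/-- The flag types of the non-stable quintic threefolds, in the order of the weights, part 4. -/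
def nonstable55Types_4 : List FlagType :=
  [[[L 3, p 4], [H 2, P 3, p 4], [H 2, L 3, p 5], [P 2, p 5], [P 2, L 4], [H 1, P 3, L 4, p 5],
      [H 1, L 3], [H 1, P 2, L 5], [P 1]],
    [[P 3, p 4], [H 2, p 4], [H 2, L 3, p 5], [P 2, L 4, p 5], [L 2], [H 1, P 3, L 4, p 5],
      [H 1, P 2, p 5], [H 1, P 2, L 3], [P 1, L 4]],
    [[p 3], [H 2, P 3, p 4], [H 2, L 3, p 5], [P 2, L 4, p 5], [P 2, L 3], [H 1, L 4, p 5],
      [H 1, P 3, p 5], [H 1, P 3, L 4], [H 1, P 2, L 5], [P 1]],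
    [[H 3, p 4], [H 2, L 3, p 5], [P 2, L 4, p 5], [H 1, P 3, L 4, p 5], [H 1, P 2, p 5],
      [H 1, L 2], [P 1, L 3]]]

open Threefold in
/-- The flag types of the non-stable quintic threefolds, in the order of the weights, part 5. -/
def nonstable55Types_5 : List FlagType :=
  [[[H 2, P 3, p 4], [H 2, L 3, p 5], [P 2, L 4, p 5], [P 2, L 3], [H 1, P 4, p 5], [H 1, L 4],
      [H 1, P 3, L 5], [H 1, P 2]],
    [[P 3, p 4], [H 2, p 4], [H 2, L 3, p 5], [P 2, L 4, p 5], [H 1, L 4, p 5], [H 1, P 3, p 5],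
      [H 1, P 2, L 3], [P 1, L 4]],
    [[p 3], [H 2, p 4], [H 2, L 3, p 5], [P 2, L 4, p 5], [L 2], [H 1, P 4, p 5],
      [H 1, P 3, L 4], [H 1, P 2, L 5], [P 1]],
    [[H 3, p 4], [L 3, p 5], [P 2, L 4, p 5], [L 2], [H 1, P 3, L 4, p 5], [H 1, P 2, L 3],
      [P 1, p 5]]]

open Threefold in
/-- The flag types of the non-stable quintic threefolds, in the order of the weights, part 6. -/
def nonstable55Types_6 : List FlagType :=
  [[[H 2, P 3, p 4], [H 2, L 3, p 5], [P 2, p 5], [P 2, L 4], [H 1, L 4, p 5], [H 1, P 3, L 5],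
      [H 1, P 2]],
    [[H 3, p 4], [L 3, p 5], [P 2, L 4, p 5], [P 2, L 3], [H 1, P 3, L 4, p 5], [H 1, L 3]],
    [[H 2, P 3, p 4], [H 2, L 3, p 5], [P 2, L 5], [H 1, p 4], [H 1, P 3, L 5], [H 1, P 2]],
    [[H 3, p 4], [H 2, L 3, p 5], [P 2, L 4, p 5], [H 1, L 4, p 5], [H 1, P 3, p 5], [P 1, L 2]],
    [[H 2, p 4], [H 2, L 3, p 5], [P 2, L 4, p 5], [L 2], [H 1, p 5], [H 1, P 4, L 5],
      [H 1, P 3]],
    [[H 3, p 4], [H 2, L 3, p 5], [P 2, L 4, p 5], [H 1, P 4, p 5], [L 1]]]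

open Threefold in
/-- The flag types of the non-stable quintic threefolds, in the order of the weights, part 7. -/
def nonstable55Types_7 : List FlagType :=
  [[[H 2, p 4], [H 2, L 3, p 5], [P 2, L 4, p 5], [H 1, L 5], [H 1, P 4]]]

/-- The flag types of the non-stable quintic threefolds, in the order of the weights. -/
def nonstable55Types : List FlagType :=
  nonstable55Types_1 ++ nonstable55Types_2 ++ nonstable55Types_3 ++ nonstable55Types_4 ++
    nonstable55Types_5 ++ nonstable55Types_6 ++ nonstable55Types_7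

open Threefold in
/-- The flag types of the non-stable quintic threefolds with isolated singularities, part 1. -/
def nonstable55IsoTypes_1 : List FlagType :=
  [[[p 3], [H 2, p 4], [H 1, p 5]],
    [[H 3, p 4], [P 2, p 5], [H 1, P 3, p 5]],
    [[p 4]],
    [[L 3, p 4], [H 2, p 4], [H 2, L 3, p 5], [P 2, L 4, p 5], [H 1, P 4, p 5], [H 1, L 3],
      [H 1, P 2, L 4], [P 1, L 5]],
    [[P 3, p 4], [H 2, p 4], [H 2, L 3, p 5], [P 2, p 5], [H 1, P 3, p 5], [H 1, P 2, L 3],
      [P 1, L 5]],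
    [[P 3, p 4], [P 2, p 5], [P 1]],
    [[H 3, p 4], [H 2, L 3, p 5], [H 1, L 4, p 5], [H 1, L 2]],
    [[H 3, p 4], [H 2, L 3, p 5], [P 2, L 4, p 5], [H 1, P 3, L 4, p 5], [H 1, P 2, p 5],
      [H 1, L 2], [P 1, L 3]]]

open Threefold in
/-- The flag types of the non-stable quintic threefolds with isolated singularities, part 2. -/
def nonstable55IsoTypes_2 : List FlagType :=
  [[[P 3, p 4], [H 2, p 4], [H 2, L 3, p 5], [P 2, L 4, p 5], [H 1, L 4, p 5], [H 1, P 3, p 5],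
      [H 1, P 2, L 3], [P 1, L 4]],
    [[H 3, p 4], [H 2, L 3, p 5], [P 2, L 4, p 5], [H 1, L 4, p 5], [H 1, P 3, p 5], [P 1, L 2]],
    [[H 3, p 4], [H 2, L 3, p 5], [P 2, L 4, p 5], [H 1, P 4, p 5], [L 1]]]

/-- The flag types of the non-stable quintic threefolds with isolated singularities. -/
def nonstable55IsoTypes : List FlagType :=
  nonstable55IsoTypes_1 ++ nonstable55IsoTypes_2

open Threefold in
/-- The flag types of the unstable quintic threefolds, in the order of the weights, part 1. -/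
def unstable55Types_1 : List FlagType :=
  [[[P 3, p 4], [L 3], [H 2, P 3, L 4, p 5], [P 2, L 4]],
    [[L 3], [H 2, P 3, L 4, p 5], [P 2, L 4], [H 1, P 3, L 4]],
    [[H 2, P 3, L 4, p 5], [P 2], [H 1, P 3]],
    [[p 3], [H 2, P 3, L 4, p 5], [P 2, p 5], [P 2, L 4], [H 1, L 4, p 5], [H 1, P 3, L 5],
      [H 1, P 2]],
    [[p 4], [H 2, P 3, L 4, p 5], [P 2, p 5], [H 1, P 3, p 5]],
    [[H 3, p 4], [H 2, P 3, L 4, p 5], [H 1, L 4, p 5], [H 1, P 3, p 5], [H 1, L 2], [P 1, L 3]],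
    [[H 3, p 4], [L 3, p 5], [H 2, P 3, L 4, p 5], [L 2], [H 1, P 2, p 5], [H 1, P 2, L 3],
      [P 1, L 4]]]

open Threefold in
/-- The flag types of the unstable quintic threefolds, in the order of the weights, part 2. -/
def unstable55Types_2 : List FlagType :=
  [[[H 3, p 4], [L 3, p 5], [H 2, P 3, L 4, p 5], [P 2, L 3], [H 1, L 3], [P 1, p 5],
      [P 1, L 4]],
    [[P 3, p 4], [H 2, P 3, L 4, p 5], [P 2, p 5], [P 2, L 4], [H 1, p 4], [H 1, P 3, p 5],
      [H 1, P 2, L 5], [P 1]],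
    [[H 2, P 3, L 4, p 5], [H 2, L 3], [P 2, L 5], [H 1, P 3, L 5], [H 1, P 2]],
    [[P 3, p 4], [L 3, p 5], [H 2, p 4], [H 2, P 3, L 4, p 5], [P 2, p 5], [P 2, L 3],
      [H 1, P 2, L 4], [P 1, L 5]],
    [[P 3, p 4], [L 3, p 5], [H 2, p 4], [H 2, P 3, L 4, p 5], [P 2, L 3], [H 1, L 3],
      [H 1, P 2, p 5], [H 1, P 2, L 4]]]

open Threefold in
/-- The flag types of the unstable quintic threefolds, in the order of the weights, part 3. -/
def unstable55Types_3 : List FlagType :=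
  [[[L 3, p 5], [H 2, p 4], [H 2, P 3, L 4, p 5], [H 2, L 3], [H 1, L 4, p 5], [H 1, P 3, L 4]],
    [[H 3, p 4], [L 3, p 5], [H 2, P 3, L 4, p 5], [L 2], [H 1, L 4, p 5], [H 1, P 2, p 5],
      [H 1, P 2, L 3]],
    [[P 3, p 4], [H 2, p 4], [H 2, P 3, L 4, p 5], [L 2], [H 1, L 4, p 5], [H 1, P 3, p 5],
      [H 1, L 3], [H 1, P 2, L 4]],
    [[H 2, p 4], [H 2, P 3, L 4, p 5], [P 2, L 3], [H 1, p 5], [H 1, P 4, L 5], [H 1, P 3]],
    [[p 4], [H 2, P 3, L 4, p 5], [H 1, L 4, p 5], [H 1, P 3, p 5]]]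

open Threefold in
/-- The flag types of the unstable quintic threefolds, in the order of the weights, part 4. -/
def unstable55Types_4 : List FlagType :=
  [[[p 3], [H 2, p 4], [H 2, P 3, L 4, p 5], [H 2, L 3], [H 1, P 4, p 5], [H 1, L 4],
      [H 1, P 3, L 5]],
    [[p 3], [H 2, p 4], [H 2, P 3, L 4, p 5], [P 2, p 5], [H 1, P 4, p 5], [H 1, P 3, L 5],
      [H 1, P 2]],
    [[H 2, P 3, L 4, p 5], [H 2, L 3], [P 2, L 4], [H 1, L 4], [H 1, P 3, L 5]],
    [[H 3, p 4], [H 2, P 3, L 4, p 5], [H 1, p 5]],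
    [[P 3, p 4], [L 3, p 5], [H 2, P 3, L 4, p 5], [P 2, p 5], [P 2, L 4], [P 1, L 5]],
    [[L 3, p 4], [H 2, p 4], [H 2, P 3, L 4, p 5], [P 2, L 3], [H 1, L 4, p 5], [H 1, P 3, p 5],
      [H 1, P 3, L 4]]]

open Threefold in
/-- The flag types of the unstable quintic threefolds, in the order of the weights, part 5. -/
def unstable55Types_5 : List FlagType :=
  [[[H 2, p 4], [H 2, P 3, L 4, p 5], [P 2, p 5], [H 1, p 5], [H 1, P 4]],
    [[H 2, P 3, L 4, p 5], [P 2, L 5], [H 1, L 4, p 5], [H 1, P 3]],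
    [[p 4], [L 3, p 5], [H 2, P 3, L 4, p 5]],
    [[P 3, p 4], [L 3, p 5], [H 2, P 3, L 4, p 5], [H 2, L 3], [P 2, L 4], [H 1, p 4],
      [H 1, P 2, p 5], [P 1, L 5]],
    [[H 2, p 4], [H 2, P 3, L 4, p 5], [H 2, L 3], [H 1, p 5], [H 1, P 4, L 5]],
    [[L 3, p 4], [H 2, P 3, L 4, p 5], [H 2, L 3], [P 2, L 4], [H 1, L 4, p 5], [H 1, P 3, p 5],
      [H 1, P 3, L 4], [H 1, P 2, L 5]]]

open Threefold in
/-- The flag types of the unstable quintic threefolds, in the order of the weights, part 6. -/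
def unstable55Types_6 : List FlagType :=
  [[[P 3, p 4], [H 2, p 4], [H 2, P 3, L 4, p 5], [P 2, p 5], [L 2], [H 1, P 3, p 5],
      [H 1, P 2, L 4], [P 1, L 5]],
    [[L 3, p 4], [H 2, p 4], [H 2, P 3, L 4, p 5], [L 2], [H 1, P 4, p 5], [H 1, P 3, L 4]],
    [[H 3, p 4], [H 2, P 3, L 4, p 5], [H 1, P 4, p 5], [P 1, L 2]],
    [[P 3, p 4], [H 2, p 4], [H 2, P 3, L 4, p 5], [H 1, P 4, p 5], [H 1, L 3], [H 1, P 2, L 4]],
    [[P 3, p 4], [L 3], [H 2, p 4], [H 2, P 3, L 4, p 5], [H 1, P 2, L 4]],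
    [[p 3], [H 2, p 4], [H 2, P 3, L 4, p 5], [H 1, p 5], [H 1, L 4], [H 1, P 3, L 5]]]

open Threefold in
/-- The flag types of the unstable quintic threefolds, in the order of the weights, part 7. -/
def unstable55Types_7 : List FlagType :=
  [[[L 3, p 5], [H 2, P 3, L 4, p 5], [H 2, L 3], [P 2, L 4], [H 1, p 4], [H 1, P 3, L 4],
      [H 1, P 2, p 5], [P 1, L 5]],
    [[P 3, p 4], [H 2, p 4], [H 2, P 3, L 4, p 5], [P 2, p 5], [H 1, L 4, p 5], [H 1, P 3, p 5],
      [H 1, P 2, L 4], [P 1, L 5]],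
    [[H 3, p 4], [H 2, P 3, L 4, p 5], [P 2, p 5], [H 1, P 4, p 5]],
    [[P 3, p 4], [L 3, p 5], [H 2, p 4], [H 2, P 3, L 4, p 5], [H 2, L 3], [H 1, P 2, L 4],
      [P 1, p 5]],
    [[L 3, p 5], [H 2, P 3, L 4, p 5], [H 2, L 3], [P 2, p 5], [P 2, L 4], [H 1, P 3, L 4],
      [H 1, P 2, L 5], [P 1]]]

open Threefold in
/-- The flag types of the unstable quintic threefolds, in the order of the weights, part 8. -/
def unstable55Types_8 : List FlagType :=
  [[[p 3], [H 2, P 3, L 4, p 5], [P 2], [H 1, P 3, L 5]],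
    [[P 3, p 4], [L 3, p 5], [H 2, p 4], [H 2, P 3, L 4, p 5], [H 2, L 3], [H 1, L 4, p 5],
      [H 1, P 2, L 4]],
    [[p 3], [H 2, P 3, L 4, p 5], [P 2, L 5], [H 1, p 4], [H 1, P 3, L 5], [H 1, P 2]],
    [[P 3, p 4], [H 2, p 4], [H 2, P 3, L 4, p 5], [P 2, p 5], [H 1, P 3, p 5], [H 1, P 2, L 4],
      [P 1]],
    [[P 3, p 4], [H 2, P 3, L 4, p 5], [P 2, L 5], [H 1, P 3, p 5], [H 1, P 2]],
    [[H 2, P 3, L 4, p 5], [P 2, p 5], [P 2, L 4], [H 1, P 4, p 5], [H 1, L 4], [H 1, P 3]]]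

open Threefold in
/-- The flag types of the unstable quintic threefolds, in the order of the weights, part 9. -/
def unstable55Types_9 : List FlagType :=
  [[[L 3, p 4], [H 2, P 3, L 4, p 5], [P 2, L 5], [H 1, P 3, p 5], [H 1, P 3, L 4], [H 1, P 2]],
    [[H 3, p 4], [L 3, p 5], [H 2, P 3, L 4, p 5], [L 2], [H 1, L 4, p 5], [H 1, L 3]],
    [[L 3, p 4], [H 2, P 3, L 4, p 5], [P 2, p 5], [P 2, L 4], [H 1, p 4], [H 1, P 3, p 5],
      [H 1, P 3, L 4], [H 1, P 2, L 5], [P 1]],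
    [[H 2, p 4], [H 2, P 3, L 4, p 5], [H 1, P 5]],
    [[p 3], [H 2, p 4], [H 2, P 3, L 4, p 5], [P 2, L 3], [H 1, P 4, p 5], [H 1, L 4],
      [H 1, P 3, L 5], [P 1]],
    [[H 3, p 4], [L 3, p 5], [H 2, P 3, L 4, p 5], [H 2, L 3], [P 1, L 4]]]

open Threefold in
/-- The flag types of the unstable quintic threefolds, in the order of the weights, part 10. -/
def unstable55Types_10 : List FlagType :=
  [[[L 3, p 4], [H 2, p 4], [H 2, P 3, L 4, p 5], [H 1, p 5], [H 1, P 3, L 4]],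
    [[H 2, p 4], [H 2, P 3, L 4, p 5], [L 2], [H 1, L 5], [H 1, P 4]],
    [[H 3, p 4], [H 2, P 3, L 4, p 5], [P 2, p 5], [H 1, L 4, p 5], [H 1, P 3, p 5], [P 1, L 3]],
    [[L 3, p 4], [H 2, p 4], [H 2, P 3, L 4, p 5], [P 2, p 5], [H 1, P 4, p 5], [H 1, P 3, L 4],
      [H 1, P 2, L 5], [P 1]],
    [[H 3, p 4], [H 2, P 3, L 4, p 5], [P 2, p 5], [H 1, P 3, p 5], [P 1, L 4]]]

/-- The flag types of the unstable quintic threefolds, in the order of the weights. -/
def unstable55Types : List FlagType :=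
  unstable55Types_1 ++ unstable55Types_2 ++ unstable55Types_3 ++ unstable55Types_4 ++
    unstable55Types_5 ++ unstable55Types_6 ++ unstable55Types_7 ++ unstable55Types_8 ++
    unstable55Types_9 ++ unstable55Types_10

open Threefold in
/-- The flag types of the unstable quintic threefolds with isolated singularities, part 1. -/
def unstable55IsoTypes_1 : List FlagType :=
  [[[p 4], [H 2, P 3, L 4, p 5], [P 2, p 5], [H 1, P 3, p 5]],
    [[H 3, p 4], [H 2, P 3, L 4, p 5], [H 1, L 4, p 5], [H 1, P 3, p 5], [H 1, L 2], [P 1, L 3]],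
    [[p 4], [H 2, P 3, L 4, p 5], [H 1, L 4, p 5], [H 1, P 3, p 5]],
    [[H 3, p 4], [H 2, P 3, L 4, p 5], [H 1, p 5]],
    [[p 4], [L 3, p 5], [H 2, P 3, L 4, p 5]],
    [[H 3, p 4], [H 2, P 3, L 4, p 5], [H 1, P 4, p 5], [P 1, L 2]],
    [[P 3, p 4], [H 2, p 4], [H 2, P 3, L 4, p 5], [H 1, P 4, p 5], [H 1, L 3], [H 1, P 2, L 4]],
    [[p 3], [H 2, p 4], [H 2, P 3, L 4, p 5], [H 1, p 5], [H 1, L 4], [H 1, P 3, L 5]]]

open Threefold in
/-- The flag types of the unstable quintic threefolds with isolated singularities, part 2. -/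
def unstable55IsoTypes_2 : List FlagType :=
  [[[P 3, p 4], [H 2, p 4], [H 2, P 3, L 4, p 5], [P 2, p 5], [H 1, L 4, p 5], [H 1, P 3, p 5],
      [H 1, P 2, L 4], [P 1, L 5]],
    [[H 3, p 4], [H 2, P 3, L 4, p 5], [P 2, p 5], [H 1, P 4, p 5]],
    [[P 3, p 4], [H 2, p 4], [H 2, P 3, L 4, p 5], [P 2, p 5], [H 1, P 3, p 5], [H 1, P 2, L 4],
      [P 1]],
    [[L 3, p 4], [H 2, p 4], [H 2, P 3, L 4, p 5], [H 1, p 5], [H 1, P 3, L 4]],
    [[H 3, p 4], [H 2, P 3, L 4, p 5], [P 2, p 5], [H 1, L 4, p 5], [H 1, P 3, p 5], [P 1, L 3]]]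

open Threefold in
/-- The flag types of the unstable quintic threefolds with isolated singularities, part 3. -/
def unstable55IsoTypes_3 : List FlagType :=
  [[[L 3, p 4], [H 2, p 4], [H 2, P 3, L 4, p 5], [P 2, p 5], [H 1, P 4, p 5], [H 1, P 3, L 4],
      [H 1, P 2, L 5], [P 1]],
    [[H 3, p 4], [H 2, P 3, L 4, p 5], [P 2, p 5], [H 1, P 3, p 5], [P 1, L 4]]]

/-- The flag types of the unstable quintic threefolds with isolated singularities. -/
def unstable55IsoTypes : List FlagType :=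
  unstable55IsoTypes_1 ++ unstable55IsoTypes_2 ++ unstable55IsoTypes_3

end Pool.Agent.Lib.MP_965dfe_ag
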