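import Mathlib
import Pool.Agent.Lib.MP_965dfe_ag.Flags
import Pool.Agent.Lib.MP_965dfe_ag.Check
import Pool.Agent.Lib.MP_965dfe_ag.Weights
import Pool.Agent.Lib.MP_965dfe_ag.Types

/-!
The weights and the flag types describe the same families.
-/

open MvPolynomial

namespace Pool.Agent.Lib.MP_965dfe_ag

variable {n : ℕ}

namespace Check

def takeSum (k : ℕ) (a : List ℤ) : ℤ := (a.take k).sum

def satType (t : List (List (ℕ × ℕ))) (a : List ℤ) : Bool :=
  t.all fun c => c.any fun q => (q.2 : ℤ) ≤ takeSum q.1 a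

def checkType (s : Bool) (M : List (List ℤ)) (w : List ℤ) (t : List (List (ℕ × ℕ))) : Bool :=
  M.all fun a => posZ s (dotZ w a) == satType t a

def checkTypes (s : Bool) (M : List (List ℤ)) :
    List (List ℤ) → List (List (List (ℕ × ℕ))) → Bool
  | [], [] => true
  | [], _ :: _ => false
  | _ :: _, [] => false
  | w :: ws, t :: ts => checkType s M w t && checkTypes s M ws ts

lemma checkTypes_left {s : Bool} {M : List (List ℤ)} : ∀ (ws : List (List ℤ))
    (ts : List (List (List (ℕ × ℕ)))), checkTypes s M ws ts = true → ∀ w ∈ ws, ∃ t ∈ ts,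
      checkType s M w t = true
  | [], [], _, w, hw => by simp at hw
  | [], _ :: _, h, _, _ => by simp [checkTypes] at h
  | _ :: _, [], h, _, _ => by simp [checkTypes] at h
  | w' :: ws, t' :: ts, h, w, hw => by
      simp only [checkTypes, Bool.and_eq_true] at h
      rcases List.mem_cons.mp hw with rfl | hw
      · exact ⟨t', List.mem_cons_self, h.1⟩
      · obtain ⟨t, ht, h'⟩ := checkTypes_left ws ts h.2 w hw
        exact ⟨t, List.mem_cons_of_mem _ ht, h'⟩

lemma checkTypes_right {s : Bool} {M : List (List ℤ)} : ∀ (ws : List (List ℤ))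
    (ts : List (List (List (ℕ × ℕ)))), checkTypes s M ws ts = true → ∀ t ∈ ts, ∃ w ∈ ws,
      checkType s M w t = true
  | [], [], _, t, ht => by simp at ht
  | [], _ :: _, h, _, _ => by simp [checkTypes] at h
  | _ :: _, [], h, _, _ => by simp [checkTypes] at h
  | w' :: ws, t' :: ts, h, t, ht => by
      simp only [checkTypes, Bool.and_eq_true] at h
      rcases List.mem_cons.mp ht with rfl | ht
      · exact ⟨w', List.mem_cons_self, h.1⟩
      · obtain ⟨w, hw, h'⟩ := checkTypes_right ws ts h.2 t ht
        exact ⟨w, List.mem_cons_of_mem _ hw, h'⟩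

lemma takeSum_ofFn : ∀ (n k : ℕ) (α : Fin n → ℕ),
    takeSum k (List.ofFn fun i => (α i : ℤ)) =
      ((∑ i ∈ Finset.univ.filter (fun i : Fin n => (i : ℕ) < k), α i : ℕ) : ℤ)
  | 0, k, α => by simp [takeSum]
  | n + 1, 0, α => by simp [takeSum]
  | n + 1, k + 1, α => by
      have h := takeSum_ofFn n k (fun i => α i.succ)
      rw [takeSum] at h
      rw [takeSum, List.ofFn_succ, List.take_succ_cons, List.sum_cons, h]
      have h1 : Finset.univ.filter (fun i : Fin (n + 1) => (i : ℕ) < k + 1) =
          insert 0 ((Finset.univ.filter (fun i : Fin n => (i : ℕ) < k)).map (Fin.succEmb n)) := by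
        ext i
        refine Fin.cases ?_ (fun j => ?_) i
        · simp
        · simp [Fin.succ_ne_zero]
      rw [h1, Finset.sum_insert, Finset.sum_map]
      · simp
      · simp [Fin.succ_ne_zero]

end Check

theorem flag_iff_weight_aux {s : Bool} {d : ℕ} {w : Fin n → ℤ} {t : List (List (ℕ × ℕ))}
    (h : Check.checkType s (Check.monos n d) (List.ofFn w) t = true) (α : Fin n →₀ ℕ)
    (hα : ∑ i, α i = d) :
    (if s = true then 0 < ∑ i, w i * (α i : ℤ) else 0 ≤ ∑ i, w i * (α i : ℤ)) ↔
      ∀ c ∈ t, ∃ q ∈ c, q.2 ≤ psum q.1 α := by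
  rw [Check.checkType, List.all_eq_true] at h
  have h1 := h _ (Check.mem_monos n d (fun i => α i) hα)
  rw [beq_iff_eq, Check.dotZ_ofFn, Check.satType] at h1
  have h2 : (if s = true then 0 < ∑ i, w i * (α i : ℤ) else 0 ≤ ∑ i, w i * (α i : ℤ)) ↔
      Check.posZ s (∑ i, w i * (α i : ℤ)) = true := by
    cases s <;> simp [Check.posZ]
  rw [h2, h1, List.all_eq_true]
  refine forall₂_congr fun c _ => ?_
  rw [List.any_eq_true]
  refine exists_congr fun q => and_congr_right fun _ => ?_
  rw [decide_eq_true_eq, Check.takeSum_ofFn, psum]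
  exact_mod_cast Iff.rfl

theorem flag_iff_weight {s : Bool} {d : ℕ} (W : List (Fin n → ℤ))
    (ts : List (List (List (ℕ × ℕ))))
    (h : Check.checkTypes s (Check.monos n d) (W.map List.ofFn) ts = true)
    {f : MvPolynomial (Fin n) ℂ} (hf : f.IsHomogeneous d) :
    (∃ t ∈ ts, HasFlagType f t) ↔
      ∃ g : Matrix (Fin n) (Fin n) ℂ, g.det ≠ 0 ∧ ∃ w ∈ W, ∀ α ∈ (subst g f).support,
        (if s = true then 0 < ∑ i, w i * (α i : ℤ) else 0 ≤ ∑ i, w i * (α i : ℤ)) := by
  constructor
  · rintro ⟨t, ht, hft⟩
    obtain ⟨g, hg, hα⟩ := (hasFlagType_iff f t).mp hft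
    obtain ⟨w', hw', hc⟩ := Check.checkTypes_right _ _ h t ht
    obtain ⟨w, hw, rfl⟩ := List.mem_map.mp hw'
    refine ⟨g, hg, w, hw, fun α hαs => ?_⟩
    rw [flag_iff_weight_aux hc α (sum_of_homogeneous (isHomogeneous_subst hf g)
      (mem_support_iff.mp hαs))]
    exact hα α hαs
  · rintro ⟨g, hg, w, hw, hα⟩
    obtain ⟨t, ht, hc⟩ := Check.checkTypes_left _ _ h (List.ofFn w) (List.mem_map_of_mem hw)
    refine ⟨t, ht, (hasFlagType_iff f t).mpr ⟨g, hg, fun α hαs => ?_⟩⟩
    rw [← flag_iff_weight_aux hc α (sum_of_homogeneous (isHomogeneous_subst hf g)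
      (mem_support_iff.mp hαs))]
    exact hα α hαs

open Check in
lemma types_nonstable45 : checkTypes false (monos 4 5) (nonstable45.map List.ofFn)
    nonstable45Types = true := by decide +kernel
open Check in
lemma types_unstable45 : checkTypes true (monos 4 5) (unstable45.map List.ofFn)
    unstable45Types = true := by decide +kernel
open Check in
lemma types_nonstable54 : checkTypes false (monos 5 4) (nonstable54.map List.ofFn)
    nonstable54Types = true := by decide +kernel
open Check in
lemma types_unstable54 : checkTypes true (monos 5 4) (unstable54.map List.ofFn)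
    unstable54Types = true := by decide +kernel
open Check in
lemma types_nonstable55 : checkTypes false (monos 5 5) (nonstable55.map List.ofFn)
    nonstable55Types = true := by decide +kernel
open Check in
lemma types_unstable55 : checkTypes true (monos 5 5) (unstable55.map List.ofFn)
    unstable55Types = true := by decide +kernel

end Pool.Agent.Lib.MP_965dfe_ag
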