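import Mathlib
import Pool.Agent.Lib.MP_965dfe_ag.Subst

/-!
Types which force infinitely many singular points.
-/

open MvPolynomial Filter Topology
open scoped LinearAlgebra.Projectivization

namespace Pool.Agent.Lib.MP_965dfe_ag

variable {n : ℕ}

lemma eval_smul_homogeneous {p : MvPolynomial (Fin n) ℂ} {d : ℕ} (hp : p.IsHomogeneous d)
    (a : ℂ) (v : Fin n → ℂ) : eval (a • v) p = a ^ d * eval v p := by
  rw [eval_eq', eval_eq', Finset.mul_sum]
  refine Finset.sum_congr rfl fun α hα => ?_
  have h := sum_of_homogeneous hp (mem_support_iff.mp hα)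
  simp only [Pi.smul_apply, smul_eq_mul, mul_pow, Finset.prod_mul_distrib]
  rw [Finset.prod_pow_eq_pow_sum, h]
  ring

lemma mem_singularLocus_mk {f : MvPolynomial (Fin n) ℂ} {d : ℕ} (hf : f.IsHomogeneous d)
    {v : Fin n → ℂ} (hv : v ≠ 0) (h : ∀ i, eval v (pderiv i f) = 0) :
    Projectivization.mk ℂ v hv ∈ singularLocus f := by
  intro i
  obtain ⟨a, ha⟩ := Projectivization.exists_smul_eq_mk_rep ℂ v hv
  rw [← ha]
  have h1 : (a • v : Fin n → ℂ) = (a : ℂ) • v := rfl
  rw [h1, eval_smul_homogeneous hf.pderiv, h i, mul_zero]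

lemma eval_subst (g : Matrix (Fin n) (Fin n) ℂ) (v : Fin n → ℂ) (p : MvPolynomial (Fin n) ℂ) :
    eval v (subst g p) = eval (g.mulVec v) p := by
  induction p using MvPolynomial.induction_on with
  | C a => simp
  | add p q hp hq => rw [map_add, map_add, map_add, hp, hq]
  | mul_X p i hp =>
    rw [map_mul, map_mul, map_mul, hp, subst_X, eval_X, map_sum]
    congr 1
    rw [Matrix.mulVec, dotProduct]
    refine Finset.sum_congr rfl fun j _ => ?_
    rw [map_mul, eval_C, eval_X]

lemma pderiv_subst (g : Matrix (Fin n) (Fin n) ℂ) (i : Fin n) (p : MvPolynomial (Fin n) ℂ) :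
    pderiv i (subst g p) = ∑ k, C (g k i) * subst g (pderiv k p) := by
  classical
  induction p using MvPolynomial.induction_on with
  | C a => simp
  | add p q hp hq =>
    rw [map_add, map_add, hp, hq, ← Finset.sum_add_distrib]
    refine Finset.sum_congr rfl fun k _ => ?_
    rw [map_add, map_add, mul_add]
  | mul_X p j hp =>
    rw [map_mul, pderiv_mul, hp]
    have h1 : pderiv i (subst g (X j)) = C (g j i) := by
      rw [subst_X, map_sum, Finset.sum_eq_single i]
      · rw [pderiv_C_mul, pderiv_X_self, mul_one]
      · intro k _ hk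
        rw [pderiv_C_mul, pderiv_X_of_ne hk, mul_zero]
      · simp
    rw [h1]
    have h2 : ∀ k, C (g k i) * subst g (pderiv k (p * X j)) =
        C (g k i) * subst g (pderiv k p) * subst g (X j) +
          (if k = j then C (g j i) * subst g p else 0) := by
      intro k
      rw [pderiv_mul, map_add, map_mul, map_mul]
      split_ifs with h
      · subst h
        rw [pderiv_X_self, map_one]
        ring
      · rw [pderiv_X_of_ne (Ne.symm h), map_zero]
        ring
    rw [Finset.sum_congr rfl fun k _ => h2 k, Finset.sum_add_distrib, ← Finset.sum_mul,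
      Finset.sum_ite_eq' Finset.univ j, if_pos (Finset.mem_univ _)]
    ring

/-- Singular points in the new coordinates give singular points in the old ones. -/
lemma sing_of_subst {g : Matrix (Fin n) (Fin n) ℂ} (hg : g.det ≠ 0)
    {f : MvPolynomial (Fin n) ℂ} {v : Fin n → ℂ}
    (h : ∀ i, eval v (pderiv i (subst g f)) = 0) (k : Fin n) :
    eval (g.mulVec v) (pderiv k f) = 0 := by
  have h1 : Matrix.vecMul (fun k => eval (g.mulVec v) (pderiv k f)) g = 0 := by
    funext i
    have h2 := h i
    rw [pderiv_subst, map_sum] at h2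
    rw [Matrix.vecMul, dotProduct, Pi.zero_apply, ← h2]
    refine Finset.sum_congr rfl fun k _ => ?_
    rw [map_mul, eval_C, eval_subst, mul_comm]
  have h3 := Matrix.eq_zero_of_vecMul_eq_zero hg h1
  exact congrFun h3 k

/-- A one-parameter family of pairwise distinct singular points in new coordinates. -/
lemma infinite_of_family {f : MvPolynomial (Fin n) ℂ} {d : ℕ} (hf : f.IsHomogeneous d)
    {g : Matrix (Fin n) (Fin n) ℂ} (hg : g.det ≠ 0) (v : ℂ → Fin n → ℂ) (j : Fin n)
    (hj : ∀ c, v c j = 1) (hinj : Function.Injective v)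
    (h : ∀ c i, eval (v c) (pderiv i (subst g f)) = 0) : (singularLocus f).Infinite := by
  have hv : ∀ c, v c ≠ 0 := by
    intro c h0
    have := hj c
    rw [h0] at this
    simp at this
  have hgv : ∀ c, g.mulVec (v c) ≠ 0 := by
    intro c h0
    exact hv c (Matrix.eq_zero_of_mulVec_eq_zero hg h0)
  apply Set.infinite_of_injective_forall_mem (f := fun c => Projectivization.mk ℂ _ (hgv c))
  · intro a b hab
    obtain ⟨u, hu⟩ := (Projectivization.mk_eq_mk_iff ℂ _ _ _ _).mp hab
    have h1 : g.mulVec ((u : ℂ) • v b) = g.mulVec (v a) := by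
      rw [Matrix.mulVec_smul]
      exact hu
    have h2 : (u : ℂ) • v b = v a := by
      have h3 : g.mulVec ((u : ℂ) • v b - v a) = 0 := by
        rw [Matrix.mulVec_sub, h1, sub_self]
      exact sub_eq_zero.mp (Matrix.eq_zero_of_mulVec_eq_zero hg h3)
    have h4 : (u : ℂ) = 1 := by
      have := congrFun h2 j
      simpa [hj] using this
    rw [h4, one_smul] at h2
    exact hinj h2.symm
  · intro c
    exact mem_singularLocus_mk hf (hgv c) (fun k => sing_of_subst hg (h c) k)

lemma eval_pderiv_eq_zero {h : MvPolynomial (Fin n) ℂ} {v : Fin n → ℂ} {i : Fin n}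
    (hs : ∀ α ∈ h.support, α i = 0 ∨ ∃ j, v j = 0 ∧ (if j = i then 1 else 0) < α j) :
    eval v (pderiv i h) = 0 := by
  classical
  rw [h.as_sum, map_sum, map_sum]
  apply Finset.sum_eq_zero
  intro α hα
  rw [pderiv_monomial, eval_monomial]
  rcases hs α hα with h0 | ⟨j, hj, hlt⟩
  · rw [h0]; simp
  · have : (α - Finsupp.single i 1).prod (fun n e => v n ^ e) = 0 := by
      rw [Finsupp.prod_fintype _ _ (by simp)]
      apply Finset.prod_eq_zero (Finset.mem_univ j)
      rw [hj, zero_pow]
      rw [Finsupp.tsub_apply, Finsupp.single_apply]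
      split_ifs at hlt with hji
      · subst hji; simp; omega
      · rw [if_neg (Ne.symm hji)]; omega
    rw [this, mul_zero]

/-- Type A: all monomials have degree at most `d - 2` in the last two variables: the line is
singular. -/
lemma infinite_of_line {f : MvPolynomial (Fin (n + 2)) ℂ} {d : ℕ} (hf : f.IsHomogeneous d)
    {g : Matrix (Fin (n + 2)) (Fin (n + 2)) ℂ} (hg : g.det ≠ 0)
    (h : ∀ α ∈ (subst g f).support, 2 ≤ ∑ i : Fin n, α (Fin.castAdd 2 i)) :
    (singularLocus f).Infinite := by
  classical
  set v : ℂ → Fin (n + 2) → ℂ := fun c => Fin.append (0 : Fin n → ℂ) ![1, c] with hv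
  refine infinite_of_family hf hg v (Fin.natAdd n 0) ?_ ?_ ?_
  · intro c
    simp [hv, Fin.append_right]
  · intro a b hab
    have := congrFun hab (Fin.natAdd n 1)
    simpa [hv, Fin.append_right] using this
  · intro c i
    apply eval_pderiv_eq_zero
    intro α hα
    have h1 := h α hα
    by_cases hi : α i = 0
    · exact Or.inl hi
    right
    by_contra hcon
    push Not at hcon
    have h2 : ∀ j : Fin n, α (Fin.castAdd 2 j) ≤ if Fin.castAdd 2 j = i then 1 else 0 := by
      intro j
      exact hcon _ (by simp [hv, Fin.append_left])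
    have h3 : ∑ j : Fin n, α (Fin.castAdd 2 j) ≤ 1 := by
      refine (Finset.sum_le_sum fun j _ => h2 j).trans ?_
      rw [Finset.sum_ite, Finset.sum_const_zero, add_zero, Finset.sum_const, smul_eq_mul, mul_one]
      rw [Finset.card_le_one]
      intro a ha b hb
      simp only [Finset.mem_filter, Finset.mem_univ, true_and] at ha hb
      exact Fin.castAdd_injective n 2 (ha.trans hb.symm)
    omega

/-- A ternary form has infinitely many zeros: a family with last coordinate `1` or the line. -/
lemma exists_zero_family {F : (Fin 3 → ℂ) → ℂ} {m : ℕ} (hm : m ≠ 0)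
    (hhom : ∀ (a : ℂ) (y : Fin 3 → ℂ), F (a • y) = a ^ m * F y)
    (hpoly : ∀ q r : Fin 3 → ℂ, ∃ φ : Polynomial ℂ, ∀ u : ℂ, φ.eval u = F (u • q + r))
    (hcont : Continuous F) :
    ∃ (v : ℂ → Fin 3 → ℂ) (j : Fin 3), (∀ c, v c j = 1) ∧ Function.Injective v ∧
      ∀ c, F (v c) = 0 := by
  by_cases hline : ∀ c : ℂ, F ![1, c, 0] = 0
  · refine ⟨fun c => ![1, c, 0], 0, fun c => rfl, ?_, hline⟩
    intro a b hab
    have := congrFun hab 1
    simpa using this
  · push Not at hline
    obtain ⟨c₀, hc₀⟩ := hline
    set q : Fin 3 → ℂ := ![1, c₀, 0] with hq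
    have key : ∀ c : ℂ, ∃ u : ℂ, F (u • q + ![0, c, 1]) = 0 := by
      intro c
      obtain ⟨φ, hφ⟩ := hpoly q ![0, c, 1]
      by_contra hcon
      push Not at hcon
      have hdeg : φ.degree = 0 := by
        by_contra hdeg
        obtain ⟨u, hu⟩ := IsAlgClosed.exists_root φ hdeg
        exact hcon u (by rw [← hφ]; exact hu)
      rw [Polynomial.eq_C_of_degree_eq_zero hdeg] at hφ
      simp only [Polynomial.eval_C] at hφ
      set a := φ.coeff 0
      have h1 : ∀ v : ℂ, v ≠ 0 → F (q + v • ![0, c, 1]) = v ^ m * a := by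
        intro v hv
        have h2 : q + v • ![0, c, 1] = v • (v⁻¹ • q + ![0, c, 1]) := by
          rw [smul_add, smul_smul, mul_inv_cancel₀ hv, one_smul]
        rw [h2, hhom, ← hφ]
      have h3 : Tendsto (fun v : ℂ => F (q + v • ![0, c, 1])) (𝓝[≠] 0) (𝓝 (F q)) := by
        have h4 : Continuous fun v : ℂ => F (q + v • ![0, c, 1]) := by
          apply hcont.comp
          fun_prop
        have h5 := h4.tendsto 0
        simp only [zero_smul, add_zero] at h5
        exact h5.mono_left nhdsWithin_le_nhds
      have h6 : Tendsto (fun v : ℂ => F (q + v • ![0, c, 1])) (𝓝[≠] 0) (𝓝 0) := by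
        have h7 : Tendsto (fun v : ℂ => v ^ m * a) (𝓝[≠] 0) (𝓝 0) := by
          have h8 : Continuous fun v : ℂ => v ^ m * a := by fun_prop
          have h9 := h8.tendsto 0
          rw [zero_pow hm, zero_mul] at h9
          exact h9.mono_left nhdsWithin_le_nhds
        refine h7.congr' ?_
        filter_upwards [self_mem_nhdsWithin] with v hv
        exact (h1 v hv).symm
      exact hc₀ (tendsto_nhds_unique h3 h6)
    choose u hu using key
    refine ⟨fun c => u c • q + ![0, c, 1], 2, ?_, ?_, hu⟩
    · intro c
      simp [hq]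
    · intro a b hab
      have h0 := congrFun hab 0
      have h1 := congrFun hab 1
      simp [hq] at h0 h1
      rw [h0] at h1
      simpa using h1

/-- Type B: in the new coordinates all partial derivatives except the first one vanish on the
plane of the last three coordinates. -/
lemma infinite_of_plane {f : MvPolynomial (Fin (n + 3)) ℂ} {d : ℕ} (hf : f.IsHomogeneous d)
    (hd : 2 ≤ d) {g : Matrix (Fin (n + 3)) (Fin (n + 3)) ℂ} (hg : g.det ≠ 0) (i₀ : Fin (n + 3))
    (h : ∀ i, i ≠ i₀ → ∀ y : Fin 3 → ℂ,
      eval (Fin.append (0 : Fin n → ℂ) y) (pderiv i (subst g f)) = 0) :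
    (singularLocus f).Infinite := by
  set F : (Fin 3 → ℂ) → ℂ := fun y => eval (Fin.append (0 : Fin n → ℂ) y)
    (pderiv i₀ (subst g f)) with hF
  have happ : ∀ (a : ℂ) (y : Fin 3 → ℂ), Fin.append (0 : Fin n → ℂ) (a • y) =
      a • Fin.append (0 : Fin n → ℂ) y := by
    intro a y
    funext i
    refine Fin.addCases (fun i => ?_) (fun i => ?_) i
    · simp [Fin.append_left]
    · simp [Fin.append_right]
  have hcontapp : Continuous fun y : Fin 3 → ℂ => Fin.append (0 : Fin n → ℂ) y := by
    refine continuous_pi fun i => ?_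
    refine Fin.addCases (fun i => ?_) (fun i => ?_) i
    · simp only [Fin.append_left]
      exact continuous_const
    · simp only [Fin.append_right]
      exact continuous_apply i
  obtain ⟨v, j, hj, hinj, hv⟩ := exists_zero_family (F := F) (m := d - 1) (by omega)
    (by
      intro a y
      rw [hF]
      simp only [happ]
      exact eval_smul_homogeneous (isHomogeneous_subst hf g).pderiv a _)
    (by
      intro q r
      refine ⟨aeval (fun i : Fin (n + 3) =>
        Polynomial.C (Fin.append (0 : Fin n → ℂ) q i) * Polynomial.X +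
          Polynomial.C (Fin.append (0 : Fin n → ℂ) r i)) (pderiv i₀ (subst g f)), ?_⟩
      intro u
      rw [hF]
      have h1 : ∀ p : MvPolynomial (Fin (n + 3)) ℂ, Polynomial.eval u (aeval
          (fun i : Fin (n + 3) => Polynomial.C (Fin.append (0 : Fin n → ℂ) q i) * Polynomial.X +
          Polynomial.C (Fin.append (0 : Fin n → ℂ) r i)) p) =
          eval (Fin.append (0 : Fin n → ℂ) (u • q + r)) p := by
        intro p
        induction p using MvPolynomial.induction_on with
        | C a => simp
        | add p q hp hq => rw [map_add, Polynomial.eval_add, map_add, hp, hq]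
        | mul_X p i hp =>
          rw [map_mul, Polynomial.eval_mul, map_mul, hp, aeval_X, eval_X]
          congr 1
          simp only [Polynomial.eval_add, Polynomial.eval_mul, Polynomial.eval_C,
            Polynomial.eval_X]
          refine Fin.addCases (fun i => ?_) (fun i => ?_) i
          · simp [Fin.append_left]
          · simp [Fin.append_right, mul_comm]
      exact h1 _)
    (by
      rw [hF]
      exact (continuous_eval _).comp hcontapp)
  refine infinite_of_family hf hg (fun c => Fin.append (0 : Fin n → ℂ) (v c)) (Fin.natAdd n j)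
    ?_ ?_ ?_
  · intro c
    simp [Fin.append_right, hj]
  · intro a b hab
    apply hinj
    funext i
    have := congrFun hab (Fin.natAdd n i)
    simpa [Fin.append_right] using this
  · intro c i
    by_cases hi : i = i₀
    · subst hi
      exact hv c
    · exact h i hi (v c)

end Pool.Agent.Lib.MP_965dfe_ag
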