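import Mathlib
import Pool.Agent.Lib.MP_965dfe_ag.Weights

/-!
Sublists of the lists of weights: those which do not force a positive-dimensional singular locus.
-/

namespace Pool.Agent.Lib.MP_965dfe_ag

/-- The weights of the non-stable quintic surfaces with isolated singularities. -/
def nonstable45Iso : List (Fin 4 → ℤ) :=
  [wt4 1 0 0 (-1), wt4 1 1 1 (-3), wt4 2 1 0 (-3), wt4 4 2 (-1) (-5)]

/-- The weights of the unstable quintic surfaces with isolated singularities. -/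
def unstable45Iso : List (Fin 4 → ℤ) :=
  [wt4 1 1 1 (-3), wt4 5 1 1 (-7), wt4 9 5 (-1) (-13), wt4 13 1 (-3) (-11), wt4 13 5 (-3) (-15),
    wt4 13 5 1 (-19)]

/-- The weights of the non-stable quartic threefolds with isolated singularities. -/
def nonstable54Iso : List (Fin 5 → ℤ) :=
  [wt5 1 0 0 0 (-1), wt5 1 1 0 0 (-2), wt5 1 1 1 0 (-3), wt5 3 1 0 (-1) (-3),
    wt5 3 2 1 (-1) (-5), wt5 5 3 2 (-1) (-9)]

/-- The weights of the unstable quartic threefolds with isolated singularities. -/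
def unstable54Iso : List (Fin 5 → ℤ) :=
  [wt5 4 4 (-1) (-1) (-6), wt5 4 4 4 (-1) (-11), wt5 7 5 1 1 (-14), wt5 9 4 4 (-1) (-16),
    wt5 16 2 2 (-5) (-15), wt5 19 4 (-1) (-6) (-16), wt5 19 7 (-2) (-6) (-18),
    wt5 14 8 5 (-4) (-23), wt5 14 9 4 (-1) (-26), wt5 16 13 2 (-4) (-27)]

/-- The weights of the non-stable quintic threefolds with isolated singularities. -/
def nonstable55Iso : List (Fin 5 → ℤ) :=
  [wt5 1 0 0 0 (-1), wt5 2 1 0 0 (-3), wt5 1 1 1 1 (-4), wt5 4 1 0 (-1) (-4),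
    wt5 4 2 0 (-1) (-5), wt5 4 4 (-1) (-1) (-6), wt5 8 3 3 (-2) (-12), wt5 12 7 2 (-3) (-18),
    wt5 16 6 1 (-4) (-19), wt5 18 8 3 (-2) (-27), wt5 24 9 4 (-1) (-36)]

/-- The weights of the unstable quintic threefolds with isolated singularities. -/
def unstable55Iso : List (Fin 5 → ℤ) :=
  [wt5 7 5 2 1 (-15), wt5 11 5 2 (-2) (-16), wt5 10 6 4 1 (-21), wt5 17 4 3 1 (-25),
    wt5 10 9 7 1 (-27), wt5 23 9 4 (-2) (-34), wt5 30 9 2 (-7) (-34), wt5 37 3 1 (-9) (-32),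
    wt5 33 13 1 (-8) (-39), wt5 29 11 2 1 (-43), wt5 45 23 (-4) (-10) (-54),
    wt5 93 17 7 (-23) (-94), wt5 69 33 7 (-8) (-101), wt5 117 29 (-7) (-28) (-111),
    wt5 81 45 4 (-11) (-119)]

end Pool.Agent.Lib.MP_965dfe_ag
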