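import Mathlib
import Pool.Agent.Lib.MP_965dfe_ag.FlagCheck
import Pool.Agent.Lib.MP_965dfe_ag.Iso
import Pool.Agent.Lib.MP_965dfe_ag.WeightsIso

/-!
For hypersurfaces with finitely many singular points the lists of weights can be shortened.
-/

open MvPolynomial

namespace Pool.Agent.Lib.MP_965dfe_ag

variable {n : ℕ}

/-- The families described by a list of weights. -/
def InFamily (s : Bool) (W : List (Fin n → ℤ)) (f : MvPolynomial (Fin n) ℂ) : Prop :=
  ∃ g : Matrix (Fin n) (Fin n) ℂ, g.det ≠ 0 ∧ ∃ w ∈ W, ∀ α ∈ (subst g f).support,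
        (if s = true then 0 < ∑ i, w i * (α i : ℤ) else 0 ≤ ∑ i, w i * (α i : ℤ))

namespace Check

def checkImp (s : Bool) (M : List (List ℤ)) (w : List ℤ) (t : List (List (ℕ × ℕ))) : Bool :=
  M.all fun a => !(posZ s (dotZ w a)) || satType t a

def memB (w : List ℤ) : List (List ℤ) → Bool
  | [] => false
  | v :: vs => (w == v) || memB w vs

lemma memB_sound {w : List ℤ} : ∀ {vs : List (List ℤ)}, memB w vs = true → w ∈ vs
  | [], h => by simp [memB] at h
  | v :: vs, h => by
      simp only [memB, Bool.or_eq_true, beq_iff_eq] at h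
      rcases h with rfl | h
      · exact List.mem_cons_self
      · exact List.mem_cons_of_mem _ (memB_sound h)

/-- Each weight is kept or forces one of the two types. -/
def checkIso (s : Bool) (M : List (List ℤ)) (tA tB : List (List (ℕ × ℕ)))
    (W Wiso : List (List ℤ)) : Bool :=
  W.all fun w => memB w Wiso || checkImp s M w tA || checkImp s M w tB

end Check

theorem imp_aux {s : Bool} {d : ℕ} {w : Fin n → ℤ} {t : List (List (ℕ × ℕ))}
    (h : Check.checkImp s (Check.monos n d) (List.ofFn w) t = true) (α : Fin n →₀ ℕ)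
    (hα : ∑ i, α i = d)
    (h0 : if s = true then 0 < ∑ i, w i * (α i : ℤ) else 0 ≤ ∑ i, w i * (α i : ℤ)) :
      ∀ c ∈ t, ∃ q ∈ c, q.2 ≤ psum q.1 α := by
  rw [Check.checkImp, List.all_eq_true] at h
  have h1 := h _ (Check.mem_monos n d (fun i => α i) hα)
  rw [Check.dotZ_ofFn, Check.satType] at h1
  have h2 : Check.posZ s (∑ i, w i * (α i : ℤ)) = true := by
    cases s <;> simpa [Check.posZ] using h0
  rw [h2, Bool.not_true, Bool.false_or, List.all_eq_true] at h1
  intro c hc
  have h3 := h1 c hc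
  rw [List.any_eq_true] at h3
  obtain ⟨q, hq, h4⟩ := h3
  refine ⟨q, hq, ?_⟩
  rw [decide_eq_true_eq, Check.takeSum_ofFn] at h4
  rw [psum]
  exact_mod_cast h4

lemma psum_castAdd (m : ℕ) (α : Fin (n + m) →₀ ℕ) :
    psum n α = ∑ i : Fin n, α (Fin.castAdd m i) := by
  rw [psum, Finset.sum_filter, Fin.sum_univ_add]
  have h1 : ∀ i : Fin n, (if ((Fin.castAdd m i : Fin (n + m)) : ℕ) < n then
      α (Fin.castAdd m i) else 0) = α (Fin.castAdd m i) := by
    intro i
    rw [if_pos]
    simp
  have h2 : ∀ i : Fin m, (if ((Fin.natAdd n i : Fin (n + m)) : ℕ) < n then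
      α (Fin.natAdd n i) else 0) = 0 := by
    intro i
    rw [if_neg]
    simp
  rw [Finset.sum_congr rfl fun i _ => h1 i, Finset.sum_congr rfl fun i _ => h2 i]
  simp

lemma infinite_A {f : MvPolynomial (Fin (n + 2)) ℂ} {d : ℕ} (hf : f.IsHomogeneous d)
    {g : Matrix (Fin (n + 2)) (Fin (n + 2)) ℂ} (hg : g.det ≠ 0)
    (h : ∀ α ∈ (subst g f).support, ∀ c ∈ [[(n, 2)]], ∃ q ∈ c, q.2 ≤ psum q.1 α) :
    (singularLocus f).Infinite := by
  refine infinite_of_line hf hg fun α hα => ?_
  have h1 := h α hα [(n, 2)] (by simp)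
  simp only [List.mem_singleton, exists_eq_left] at h1
  rwa [psum_castAdd] at h1

lemma infinite_B4 {f : MvPolynomial (Fin 4) ℂ} {d : ℕ} (hf : f.IsHomogeneous d) (hd : 2 ≤ d)
    {g : Matrix (Fin 4) (Fin 4) ℂ} (hg : g.det ≠ 0)
    (h : ∀ α ∈ (subst g f).support, ∀ c ∈ [[(1, 1)]], ∃ q ∈ c, q.2 ≤ psum q.1 α) :
    (singularLocus f).Infinite := by
  refine infinite_of_plane (n := 1) hf hd hg 0 ?_
  intro i hi y
  apply eval_pderiv_eq_zero
  intro α hα
  have h1 := h α hα [(1, 1)] (by simp)
  simp only [List.mem_singleton, exists_eq_left] at h1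
  have h2 : psum 1 α = α 0 := by
    rw [psum]
    have : Finset.univ.filter (fun i : Fin 4 => (i : ℕ) < 1) = {0} := by decide
    rw [this, Finset.sum_singleton]
  rw [h2] at h1
  refine Or.inr ⟨0, ?_, ?_⟩
  · rfl
  · rw [if_neg (Ne.symm hi)]
    omega

lemma infinite_B5 {f : MvPolynomial (Fin 5) ℂ} {d : ℕ} (hf : f.IsHomogeneous d) (hd : 2 ≤ d)
    {g : Matrix (Fin 5) (Fin 5) ℂ} (hg : g.det ≠ 0)
    (h : ∀ α ∈ (subst g f).support, ∀ c ∈ [[(1, 1), (2, 2)]], ∃ q ∈ c, q.2 ≤ psum q.1 α) :
    (singularLocus f).Infinite := by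
  refine infinite_of_plane (n := 2) hf hd hg 0 ?_
  intro i hi y
  apply eval_pderiv_eq_zero
  intro α hα
  have h1 := h α hα [(1, 1), (2, 2)] (by simp)
  simp only [List.mem_cons, List.not_mem_nil, or_false, exists_eq_or_imp,
    exists_eq_left] at h1
  have h2 : psum 1 α = α 0 := by
    rw [psum]
    have : Finset.univ.filter (fun i : Fin 5 => (i : ℕ) < 1) = {0} := by decide
    rw [this, Finset.sum_singleton]
  have h3 : psum 2 α = α 0 + α 1 := by
    rw [psum]
    have : Finset.univ.filter (fun i : Fin 5 => (i : ℕ) < 2) = {0, 1} := by decide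
    rw [this, Finset.sum_pair (by decide)]
  rw [h2, h3] at h1
  by_cases h0 : 1 ≤ α 0
  · refine Or.inr ⟨0, ?_, ?_⟩
    · rfl
    · rw [if_neg (Ne.symm hi)]
      omega
  · refine Or.inr ⟨1, ?_, ?_⟩
    · rfl
    · split_ifs <;> omega

theorem iso_reduction4 {s : Bool} {d : ℕ} (hd : 2 ≤ d) (W Wiso : List (Fin 4 → ℤ))
    (h : Check.checkIso s (Check.monos 4 d) [[(2, 2)]] [[(1, 1)]] (W.map List.ofFn)
      (Wiso.map List.ofFn) = true)
    {f : MvPolynomial (Fin 4) ℂ} (hf : f.IsHomogeneous d) (hfin : (singularLocus f).Finite)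
    (hW : InFamily s W f) : InFamily s Wiso f := by
  obtain ⟨g, hg, w, hw, hα⟩ := hW
  rw [Check.checkIso, List.all_eq_true] at h
  have h1 := h _ (List.mem_map_of_mem hw)
  simp only [Bool.or_eq_true] at h1
  rcases h1 with (h1 | h1) | h1
  · obtain ⟨w', hw', hww⟩ := List.mem_map.mp (Check.memB_sound h1)
    rw [List.ofFn_injective hww] at hw'
    exact ⟨g, hg, w, hw', hα⟩
  · exfalso
    exact (infinite_A (n := 2) hf hg fun α hαs => imp_aux h1 α
      (sum_of_homogeneous (isHomogeneous_subst hf g) (mem_support_iff.mp hαs)) (hα α hαs)) hfin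
  · exfalso
    exact (infinite_B4 hf hd hg fun α hαs => imp_aux h1 α
      (sum_of_homogeneous (isHomogeneous_subst hf g) (mem_support_iff.mp hαs)) (hα α hαs)) hfin

theorem iso_reduction5 {s : Bool} {d : ℕ} (hd : 2 ≤ d) (W Wiso : List (Fin 5 → ℤ))
    (h : Check.checkIso s (Check.monos 5 d) [[(3, 2)]] [[(1, 1), (2, 2)]] (W.map List.ofFn)
      (Wiso.map List.ofFn) = true)
    {f : MvPolynomial (Fin 5) ℂ} (hf : f.IsHomogeneous d) (hfin : (singularLocus f).Finite)
    (hW : InFamily s W f) : InFamily s Wiso f := by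
  obtain ⟨g, hg, w, hw, hα⟩ := hW
  rw [Check.checkIso, List.all_eq_true] at h
  have h1 := h _ (List.mem_map_of_mem hw)
  simp only [Bool.or_eq_true] at h1
  rcases h1 with (h1 | h1) | h1
  · obtain ⟨w', hw', hww⟩ := List.mem_map.mp (Check.memB_sound h1)
    rw [List.ofFn_injective hww] at hw'
    exact ⟨g, hg, w, hw', hα⟩
  · exfalso
    exact (infinite_A (n := 3) hf hg fun α hαs => imp_aux h1 α
      (sum_of_homogeneous (isHomogeneous_subst hf g) (mem_support_iff.mp hαs)) (hα α hαs)) hfin
  · exfalso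
    exact (infinite_B5 hf hd hg fun α hαs => imp_aux h1 α
      (sum_of_homogeneous (isHomogeneous_subst hf g) (mem_support_iff.mp hαs)) (hα α hαs)) hfin

lemma InFamily.mono {s : Bool} {W W' : List (Fin n → ℤ)} (h : ∀ w ∈ W, w ∈ W')
    {f : MvPolynomial (Fin n) ℂ} (hf : InFamily s W f) : InFamily s W' f := by
  obtain ⟨g, hg, w, hw, hα⟩ := hf
  exact ⟨g, hg, w, h w hw, hα⟩

open Check in
lemma iso_nonstable45 : checkIso false (monos 4 5) [[(2, 2)]] [[(1, 1)]]
    (nonstable45.map List.ofFn) (nonstable45Iso.map List.ofFn) = true := by decide +kernel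
open Check in
lemma iso_unstable45 : checkIso true (monos 4 5) [[(2, 2)]] [[(1, 1)]]
    (unstable45.map List.ofFn) (unstable45Iso.map List.ofFn) = true := by decide +kernel
open Check in
lemma iso_nonstable54 : checkIso false (monos 5 4) [[(3, 2)]] [[(1, 1), (2, 2)]]
    (nonstable54.map List.ofFn) (nonstable54Iso.map List.ofFn) = true := by decide +kernel
open Check in
lemma iso_unstable54 : checkIso true (monos 5 4) [[(3, 2)]] [[(1, 1), (2, 2)]]
    (unstable54.map List.ofFn) (unstable54Iso.map List.ofFn) = true := by decide +kernel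
open Check in
lemma iso_nonstable55 : checkIso false (monos 5 5) [[(3, 2)]] [[(1, 1), (2, 2)]]
    (nonstable55.map List.ofFn) (nonstable55Iso.map List.ofFn) = true := by decide +kernel
open Check in
lemma iso_unstable55 : checkIso true (monos 5 5) [[(3, 2)]] [[(1, 1), (2, 2)]]
    (unstable55.map List.ofFn) (unstable55Iso.map List.ofFn) = true := by decide +kernel

lemma sub_nonstable45 : ∀ w ∈ nonstable45Iso, w ∈ nonstable45 := by decide +kernel
lemma sub_unstable45 : ∀ w ∈ unstable45Iso, w ∈ unstable45 := by decide +kernel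
lemma sub_nonstable54 : ∀ w ∈ nonstable54Iso, w ∈ nonstable54 := by decide +kernel
lemma sub_unstable54 : ∀ w ∈ unstable54Iso, w ∈ unstable54 := by decide +kernel
lemma sub_nonstable55 : ∀ w ∈ nonstable55Iso, w ∈ nonstable55 := by decide +kernel
lemma sub_unstable55 : ∀ w ∈ unstable55Iso, w ∈ unstable55 := by decide +kernel

open Check in
lemma typesIso_nonstable45 : checkTypes false (monos 4 5) (nonstable45Iso.map List.ofFn)
    nonstable45IsoTypes = true := by decide +kernel
open Check in
lemma typesIso_unstable45 : checkTypes true (monos 4 5) (unstable45Iso.map List.ofFn)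
    unstable45IsoTypes = true := by decide +kernel
open Check in
lemma typesIso_nonstable54 : checkTypes false (monos 5 4) (nonstable54Iso.map List.ofFn)
    nonstable54IsoTypes = true := by decide +kernel
open Check in
lemma typesIso_unstable54 : checkTypes true (monos 5 4) (unstable54Iso.map List.ofFn)
    unstable54IsoTypes = true := by decide +kernel
open Check in
lemma typesIso_nonstable55 : checkTypes false (monos 5 5) (nonstable55Iso.map List.ofFn)
    nonstable55IsoTypes = true := by decide +kernel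
open Check in
lemma typesIso_unstable55 : checkTypes true (monos 5 5) (unstable55Iso.map List.ofFn)
    unstable55IsoTypes = true := by decide +kernel

end Pool.Agent.Lib.MP_965dfe_ag
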