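import Mathlib
import Pool.Agent.Lib.MP_965dfe_ag.Criterion
import Pool.Agent.Lib.MP_965dfe_ag.Data

open MvPolynomial

namespace Pool.Agent.Lib.MP_965dfe_ag

variable {n : ℕ}

/-- Sanity conditions on a list of weights. -/
def goodWeights (W : List (Fin n → ℤ)) : Prop :=
  ∀ w ∈ W, (∀ i j : Fin n, i ≤ j → w j ≤ w i) ∧ ∑ i, w i = 0 ∧ ∃ i, w i ≠ 0

instance (W : List (Fin n → ℤ)) : Decidable (goodWeights W) := by
  unfold goodWeights
  infer_instance

lemma antitone_cast {w : Fin n → ℤ} (h : ∀ i j : Fin n, i ≤ j → w j ≤ w i) :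
    Antitone (fun i => (w i : ℝ)) := by
  intro i j hij
  have := h i j hij
  show (w j : ℝ) ≤ (w i : ℝ)
  exact_mod_cast this

theorem stable_iff_of_check {d : ℕ} (hn : 1 < n) (W : List (Fin n → ℤ))
    (Ts : List (List (List ℤ))) (t : Check.Tree)
    (h : Check.checkAll n d false (W.map List.ofFn) Ts t = true) (hW : goodWeights W)
    {f : MvPolynomial (Fin n) ℂ} (hf : f.IsHomogeneous d) :
    IsStable f ↔ ¬ ∃ g : Matrix (Fin n) (Fin n) ℂ, g.det ≠ 0 ∧ ∃ w ∈ W,
      ∀ α ∈ (subst g f).support, 0 ≤ ∑ i, w i * (α i : ℤ) := by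
  rw [← not_iff_not, not_not, not_isStable_iff hf hn]
  constructor
  · rintro ⟨g, r, hg, hr, hsum, hr0, hα⟩
    obtain ⟨w, hw, hw'⟩ := Check.exists_weight false W Ts t (by omega) h hr hsum (fun _ => hr0)
    refine ⟨g, hg, w, hw, fun α hαs => ?_⟩
    have h1 := hw' (fun i => α i) (sum_of_homogeneous (isHomogeneous_subst hf g)
      (mem_support_iff.mp hαs))
    simp only [Bool.false_eq_true, if_false] at h1
    exact h1 (hα α hαs)
  · rintro ⟨g, hg, w, hw, hα⟩
    obtain ⟨hw1, hw2, i, hi⟩ := hW w hw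
    refine ⟨g, fun i => (w i : ℝ), hg, antitone_cast hw1, by
      show ∑ i, (w i : ℝ) = 0
      exact_mod_cast hw2, ?_, ?_⟩
    · intro h0
      apply hi
      have := congrFun h0 i
      simpa using this
    · intro α hαs
      have := hα α hαs
      show 0 ≤ ∑ i, (w i : ℝ) * (α i : ℝ)
      exact_mod_cast this

theorem semistable_iff_of_check {d : ℕ} (hn : 1 < n) (W : List (Fin n → ℤ))
    (Ts : List (List (List ℤ))) (t : Check.Tree)
    (h : Check.checkAll n d true (W.map List.ofFn) Ts t = true) (hW : goodWeights W)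
    {f : MvPolynomial (Fin n) ℂ} (hf : f.IsHomogeneous d) :
    IsSemistable f ↔ ¬ ∃ g : Matrix (Fin n) (Fin n) ℂ, g.det ≠ 0 ∧ ∃ w ∈ W,
      ∀ α ∈ (subst g f).support, 0 < ∑ i, w i * (α i : ℤ) := by
  rw [← not_iff_not, not_not, not_isSemistable_iff hf (by omega)]
  constructor
  · rintro ⟨g, r, hg, hr, hsum, hα⟩
    obtain ⟨w, hw, hw'⟩ := Check.exists_weight true W Ts t (by omega) h hr hsum (fun h => by simp at h)
    refine ⟨g, hg, w, hw, fun α hαs => ?_⟩
    have h1 := hw' (fun i => α i) (sum_of_homogeneous (isHomogeneous_subst hf g)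
      (mem_support_iff.mp hαs))
    simp only [if_true] at h1
    exact h1 (hα α hαs)
  · rintro ⟨g, hg, w, hw, hα⟩
    obtain ⟨hw1, hw2, -⟩ := hW w hw
    refine ⟨g, fun i => (w i : ℝ), hg, antitone_cast hw1, by
      show ∑ i, (w i : ℝ) = 0
      exact_mod_cast hw2, ?_⟩
    intro α hαs
    have := hα α hαs
    show 0 < ∑ i, (w i : ℝ) * (α i : ℝ)
    exact_mod_cast this

lemma good_nonstable45 : goodWeights nonstable45 := by decide +kernel
lemma good_unstable45 : goodWeights unstable45 := by decide +kernel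
lemma good_nonstable54 : goodWeights nonstable54 := by decide +kernel
lemma good_unstable54 : goodWeights unstable54 := by decide +kernel
lemma good_nonstable55 : goodWeights nonstable55 := by decide +kernel
lemma good_unstable55 : goodWeights unstable55 := by decide +kernel

end Pool.Agent.Lib.MP_965dfe_ag
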